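import Mathlib

set_option autoImplicit false

/-!
# MP_13b5d9_gt, block LR: statements of part A (analysis), each with its complete proof
-/

open MeasureTheory Set Filter Topology
open scoped ContDiff ENNReal

namespace Pool.Agent.LR

/-- Interpolation, first derivative.  Let `a_0, ..., a_(k-1)` be real numbers with
`∑ a_i i^j = 1` for `j = 1` and `= 0` for the other `j < k` (Vandermonde matrix of the nodes `0, ...,
k - 1`; for `k = 1` there is nothing to prove: `‖fderiv f x‖ = ‖iteratedFDeriv 1 f x‖ ≤ Λ`, take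
`C ≥ 1`).  Let `v` be a unit vector, `r = ρ / k`, `φ s = f (x + s v)` for `|s| ≤ r0`.  Taylor
(mean value form for `ξ ∘ φ` with a functional `ξ` of norm one, or the norm version
`taylor_mean_remainder_bound`): `φ (i r) = ∑_{j<k} φ^(j)(0) (i r)^j / j! + R_i`,
`‖R_i‖ ≤ Λ (i r)^k` (`‖φ^(k)‖ ≤ Λ`).  So `∑ a_i φ (i r) = r φ'(0) + ∑ a_i R_i` and
`‖φ'(0)‖ ≤ (∑ |a_i|) (μ / r + Λ k^k r^(k-1))`. -/
def StInt1 : Prop := ∀ (k : ℕ) (r0 : ℝ), 1 ≤ k → 0 < r0 → ∃ C : ℝ, 0 < C ∧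
  ∀ (V F : Type) [NormedAddCommGroup V] [NormedSpace ℝ V] [NormedAddCommGroup F]
    [NormedSpace ℝ F] (f : V → F) (x : V) (μ Λ ρ : ℝ), ContDiff ℝ k f → 0 ≤ μ → 0 ≤ Λ →
    0 < ρ → ρ ≤ r0 →
    (∀ y ∈ Metric.closedBall x r0, ‖f y‖ ≤ μ ∧ ‖iteratedFDeriv ℝ k f y‖ ≤ Λ) →
    ‖fderiv ℝ f x‖ ≤ C * (μ / ρ + Λ * ρ ^ (k - 1))

/-- Interpolation, all derivatives (uses `StInt1`).  Induction on `i`; `i = 0` is clear (`C = 1`) and
`i = k` too.  Step from `i` to `i + 1 < k`: by the induction hypothesis for the radius `r0 / 2`,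
`‖iteratedFDeriv i f y‖ ≤ C₁ (1 + Λ) μ^(1 - i/k)` for all `y` in the ball of radius `r0 / 2` around
`x`; apply `StInt1` to `iteratedFDeriv i f` (its derivative of order `k - i` has the norm of
`iteratedFDeriv k f`, `norm_iteratedFDeriv_fderiv` or `iteratedFDeriv_succ`...; the norm of the
derivative of `iteratedFDeriv i f` is the norm of `iteratedFDeriv (i+1) f`,
`norm_fderiv_iteratedFDeriv`) with `k - i` in place of `k`, radius `r0 / 2`, and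
`ρ = (r0 / 2) μ^(1/k)`: both terms are at most a constant times `(1 + Λ) μ^(1 - (i+1)/k)`. -/
def StInt2 : Prop := ∀ (k i : ℕ) (r0 : ℝ), 1 ≤ k → i ≤ k → 0 < r0 → ∃ C : ℝ, 0 < C ∧
  ∀ (V F : Type) [NormedAddCommGroup V] [NormedSpace ℝ V] [NormedAddCommGroup F]
    [NormedSpace ℝ F] (f : V → F) (x : V) (μ Λ : ℝ), ContDiff ℝ k f → 0 < μ → μ ≤ 1 → 0 ≤ Λ →
    (∀ y ∈ Metric.closedBall x r0, ‖f y‖ ≤ μ ∧ ‖iteratedFDeriv ℝ k f y‖ ≤ Λ) →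
    ‖iteratedFDeriv ℝ i f x‖ ≤ C * (1 + Λ) * μ ^ (1 - (i : ℝ) / k)

/-- Taylor: a curve which is small at `0` and `q` and has bounded second derivative has a small
derivative at `0` (`q > 0`; `f q = f 0 + q f'(0) + O(M q^2)`: mean value inequality for
`f t - t f'(0)`, whose derivative `f' t - f' 0` has norm `≤ M t`).  The second part is the mirror
image. -/
def StTay : Prop := ∀ (F : Type) [NormedAddCommGroup F] [NormedSpace ℝ F] (f : ℝ → F)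
  (q ε M : ℝ), ContDiff ℝ 2 f → 0 < q → ‖f 0‖ ≤ ε →
  ((‖f q‖ ≤ ε → (∀ t ∈ Icc 0 q, ‖deriv (deriv f) t‖ ≤ M) → ‖deriv f 0‖ ≤ 2 * ε / q + M * q) ∧
  (‖f (-q)‖ ≤ ε → (∀ t ∈ Icc (-q) 0, ‖deriv (deriv f) t‖ ≤ M) →
    ‖deriv f 0‖ ≤ 2 * ε / q + M * q))

/-- Fourier series with an explicit remainder.  The Fourier coefficients
`c_k = (1/l) ∫_0^l exp(-2 π i k t / l) u t dt` satisfy `‖c_k‖ ≤ (l / (2 π |k|))^2 M` for `k ≠ 0`
(two integrations by parts, no boundary terms by periodicity), so the series is summable and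
`u t = ∑ c_k exp(2 π i k t / l)` (`has_pointwise_sum_fourier_series_of_summable` on
`AddCircle l`).  `∑_{|k| > J} (l / (2 π k))^2 M ≤ (l^2 M / (4 π^2)) (2 / J) ≤ l^2 M / J`. -/
def StF1 : Prop := ∀ (l M : ℝ) (J : ℕ) (u : ℝ → ℂ), 0 < l → 1 ≤ J → ContDiff ℝ 2 u →
  (∀ t, u (t + l) = u t) → (∀ t, ‖deriv (deriv u) t‖ ≤ M) →
  ∀ t, ‖u t‖ ≤ (∑ k ∈ Finset.Icc (-(J : ℤ)) J,
    ‖(1 / l : ℂ) * ∫ s in (0 : ℝ)..l,
      Complex.exp (-(2 * Real.pi * Complex.I * k * s / l)) * u s‖) + l ^ 2 * M / J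

/-- FOURIER LEMMA (uses `StF1`).  A function `H` of two variables, invariant under `(0, l)` and
`(ell, a)` and of mean zero in `t`, all of whose integrals over the closed lines of direction
`(k ell, k a + j l)` are small, is small.  Let `F_k S = (1/l) ∫_0^l exp(-2 π i k t / l) H S t dt`:
`F_0 = 0`, `‖F_(-k)‖ = ‖F_k‖` (`H` is real), `F_k` is `C^2` with first two derivatives (and values)
bounded by `M` in norm.  `StF1` for `t ↦ H S t` gives `|H S t| ≤ 2 ∑_{1 ≤ k ≤ J} ‖F_k S‖ + l^2 M / J`.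
Let `ω = 2 π k a / (ell l)`, `Φ_k S = exp(i ω S) F_k S`.  `F_k (S + ell) = exp(-2 π i k a / l) F_k S`
(substitute `t ↦ t - a`, periodicity), so `Φ_k` is `ell`-periodic, and
`‖Φ_k''‖ ≤ (1 + |ω|)^2 M ≤ C J^2 M` for `k ≤ J` (`|ω| ≤ 2 π L^3 J`).  `StF1` for `Φ_k` with
`J^4` in place of `J`: `‖F_k S‖ = ‖Φ_k S‖ ≤ ∑_{|j| ≤ J^4} ‖c_j(Φ_k)‖ + ell^2 C J^2 M / J^4`.
Finally, with `D = k ell`, `τ = k a + j l`:
`(1/l) ∫_0^l exp(-2 π i k θ / l) (∫_0^D H S (θ + (τ / D) S) dS) dθ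
= ∫_0^D exp(2 π i k (τ / D) S / l) F_k S dS = ∫_0^D exp(2 π i j S / ell) Φ_k S dS
= k ell c_(-j)(Φ_k)` (exchange the integrals, substitute `t = θ + (τ / D) S` and use periodicity in
`t`; `k τ / (D l) = k a / (ell l) + j / ell`).  So `‖c_(-j)(Φ_k)‖ ≤ ε / (k ell) ≤ L ε` and the sum
over `|j| ≤ J^4` is at most `3 J^4 L ε`. -/
def StFou : Prop := ∀ L : ℝ, 1 ≤ L → ∃ C : ℝ, 0 < C ∧
  ∀ (l ell a M ε : ℝ) (J : ℕ) (H : ℝ → ℝ → ℝ), 1 ≤ L * l → l ≤ L → 1 ≤ L * ell → |a| ≤ L →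
  0 ≤ M → 0 ≤ ε → 1 ≤ J → ContDiff ℝ 2 (fun q : ℝ × ℝ => H q.1 q.2) →
  (∀ S t, H S (t + l) = H S t) → (∀ S t, H (S + ell) (t + a) = H S t) →
  (∀ S, ∫ t in (0 : ℝ)..l, H S t = 0) →
  (∀ q, ∀ i ≤ 2, ‖iteratedFDeriv ℝ i (fun q : ℝ × ℝ => H q.1 q.2) q‖ ≤ M) →
  (∀ (k : ℕ) (j : ℤ) (θ : ℝ), 1 ≤ k → k ≤ J → |j| ≤ (J : ℤ) ^ 4 →
    |∫ S in (0 : ℝ)..(k * ell), H S (θ + (k * a + j * l) / (k * ell) * S)| ≤ ε) →
  ∀ S t, |H S t| ≤ C * ((J : ℝ) ^ 5 * ε + (1 + ell) ^ 2 * M / J)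

end Pool.Agent.LR
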