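import Pool.Agent.Work.MP_13b5d9_gt.LR.StmtsA

set_option autoImplicit false

/-!
# MP_13b5d9_gt, block LR, item Int1: interpolation, first derivative
-/

open MeasureTheory Set Filter Topology
open scoped ContDiff ENNReal

namespace Pool.Agent.LR

namespace IInt1

/-- coefficients of a finite difference which gives the first derivative -/
theorem coeff (k : ℕ) : ∃ a : ℕ → ℝ, ∀ j < k,
    ∑ i ∈ Finset.range k, a i * (i : ℝ) ^ j = if j = 1 then 1 else 0 := by
  classical
  let v : ℕ → ℝ := fun i => (i : ℝ)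
  have hv : Set.InjOn v (Finset.range k : Finset ℕ) := fun a _ b _ h => Nat.cast_injective h
  refine ⟨fun i => (Polynomial.derivative (Lagrange.basis (Finset.range k) v i)).eval 0, ?_⟩
  intro j hj
  have h1 : (Polynomial.X ^ j : Polynomial ℝ) = Lagrange.interpolate (Finset.range k) v
      fun i => (Polynomial.X ^ j : Polynomial ℝ).eval (v i) := by
    apply Lagrange.eq_interpolate hv
    rw [Polynomial.degree_X_pow, Finset.card_range]
    exact_mod_cast hj
  have h2 := congrArg (fun p : Polynomial ℝ => (Polynomial.derivative p).eval 0) h1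
  simp only [Lagrange.interpolate_apply, Polynomial.derivative_sum, Polynomial.derivative_C_mul,
    Polynomial.eval_finset_sum, Polynomial.eval_mul, Polynomial.eval_C, Polynomial.eval_pow,
    Polynomial.eval_X, Polynomial.derivative_X_pow] at h2
  have h3 : ∑ i ∈ Finset.range k,
      (Polynomial.derivative (Lagrange.basis (Finset.range k) v i)).eval 0 * (i : ℝ) ^ j =
      (j : ℝ) * 0 ^ (j - 1) := by
    rw [h2]
    exact Finset.sum_congr rfl fun i _ => mul_comm _ _
  rw [h3]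
  rcases Nat.lt_trichotomy j 1 with h | h | h
  · have : j = 0 := by omega
    subst this
    simp
  · subst h
    simp
  · rw [if_neg (by omega), zero_pow (by omega), mul_zero]

/-- the interpolation inequality in one variable -/
theorem one {F : Type} [NormedAddCommGroup F] [NormedSpace ℝ F] {k : ℕ} (hk : 2 ≤ k) {a : ℕ → ℝ}
    (ha : ∀ j < k, ∑ i ∈ Finset.range k, a i * (i : ℝ) ^ j = if j = 1 then 1 else 0)
    {φ : ℝ → F} (hφ : ContDiff ℝ k φ) {μ Λ ρ r0 : ℝ} (hΛ : 0 ≤ Λ)
    (hρ : 0 < ρ) (hρr : ρ ≤ r0) (h1 : ∀ s ∈ Icc 0 r0, ‖φ s‖ ≤ μ)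
    (h2 : ∀ s ∈ Icc 0 r0, ‖iteratedDeriv k φ s‖ ≤ Λ) :
    ‖deriv φ 0‖ ≤ (∑ i ∈ Finset.range k, |a i|) * k * (μ / ρ + Λ * ρ ^ (k - 1)) := by
  have hr0 : 0 < r0 := hρ.trans_le hρr
  have hk0 : (0 : ℝ) < k := by exact_mod_cast (by omega : 0 < k)
  obtain ⟨n, rfl⟩ : ∃ n, k = n + 1 := ⟨k - 1, by omega⟩
  have huniq : UniqueDiffOn ℝ (Icc (0 : ℝ) r0) := uniqueDiffOn_Icc hr0
  set r : ℝ := ρ / ((n + 1 : ℕ) : ℝ) with hr
  have hrpos : 0 < r := div_pos hρ hk0
  have hkr : ((n + 1 : ℕ) : ℝ) * r = ρ := by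
    rw [hr]
    field_simp
  have h0mem : (0 : ℝ) ∈ Icc 0 r0 := ⟨le_rfl, hr0.le⟩
  -- the nodes
  have hnode : ∀ i ∈ Finset.range (n + 1), (i : ℝ) * r ∈ Icc 0 r0 := by
    intro i hi
    refine ⟨by positivity, ?_⟩
    have h3 : (i : ℝ) ≤ ((n + 1 : ℕ) : ℝ) := by
      exact_mod_cast (Finset.mem_range.1 hi).le
    calc (i : ℝ) * r ≤ ((n + 1 : ℕ) : ℝ) * r := mul_le_mul_of_nonneg_right h3 hrpos.le
      _ = ρ := hkr
      _ ≤ r0 := hρr
  let D : ℕ → F := fun j => iteratedDerivWithin j φ (Icc 0 r0) 0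
  have hD1 : D 1 = deriv φ 0 := by
    show iteratedDerivWithin 1 φ (Icc 0 r0) 0 = deriv φ 0
    rw [iteratedDerivWithin_eq_iteratedDeriv huniq
      ((hφ.of_le (by exact_mod_cast (by omega : 1 ≤ n + 1))).contDiffAt) h0mem,
      iteratedDeriv_one]
  have htay : ∀ i ∈ Finset.range (n + 1),
      ‖φ ((i : ℝ) * r) - ∑ j ∈ Finset.range (n + 1),
        ((j.factorial : ℝ)⁻¹ * ((i : ℝ) * r) ^ j) • D j‖ ≤ Λ * ρ ^ (n + 1) := by
    intro i hi
    have h3 := taylor_mean_remainder_bound (f := φ) (a := 0) (b := r0) (C := Λ)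
      (x := (i : ℝ) * r) (n := n) hr0.le (by exact_mod_cast hφ.contDiffOn) (hnode i hi)
      (fun y hy => by
        rw [iteratedDerivWithin_eq_iteratedDeriv huniq (by exact_mod_cast hφ.contDiffAt) hy]
        exact h2 y hy)
    rw [taylor_within_apply] at h3
    simp only [sub_zero] at h3
    refine h3.trans ?_
    have h4 : ((i : ℝ) * r) ^ (n + 1) ≤ ρ ^ (n + 1) := by
      refine pow_le_pow_left₀ (hnode i hi).1 ?_ _
      rw [← hkr]
      refine mul_le_mul_of_nonneg_right ?_ hrpos.le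
      exact_mod_cast (Finset.mem_range.1 hi).le
    have h5 : (1 : ℝ) ≤ (n.factorial : ℝ) := by exact_mod_cast Nat.one_le_iff_ne_zero.2 n.factorial_ne_zero
    calc Λ * ((i : ℝ) * r) ^ (n + 1) / (n.factorial : ℝ) ≤ Λ * ((i : ℝ) * r) ^ (n + 1) :=
          div_le_self (mul_nonneg hΛ (pow_nonneg (hnode i hi).1 _)) h5
      _ ≤ Λ * ρ ^ (n + 1) := mul_le_mul_of_nonneg_left h4 hΛ
  -- the finite difference
  have hid : ∑ i ∈ Finset.range (n + 1), a i • ∑ j ∈ Finset.range (n + 1),
      ((j.factorial : ℝ)⁻¹ * ((i : ℝ) * r) ^ j) • D j = r • deriv φ 0 := by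
    have h3 : ∀ i ∈ Finset.range (n + 1), a i • ∑ j ∈ Finset.range (n + 1),
        ((j.factorial : ℝ)⁻¹ * ((i : ℝ) * r) ^ j) • D j =
        ∑ j ∈ Finset.range (n + 1),
          ((j.factorial : ℝ)⁻¹ * r ^ j * (a i * (i : ℝ) ^ j)) • D j := by
      intro i _
      rw [Finset.smul_sum]
      refine Finset.sum_congr rfl fun j _ => ?_
      rw [smul_smul]
      congr 1
      rw [mul_pow]
      ring
    rw [Finset.sum_congr rfl h3, Finset.sum_comm]
    have h4 : ∀ j ∈ Finset.range (n + 1), ∑ i ∈ Finset.range (n + 1),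
        ((j.factorial : ℝ)⁻¹ * r ^ j * (a i * (i : ℝ) ^ j)) • D j =
        ((j.factorial : ℝ)⁻¹ * r ^ j * (if j = 1 then 1 else 0)) • D j := by
      intro j hj
      rw [← Finset.sum_smul, ← Finset.mul_sum, ha j (Finset.mem_range.1 hj)]
    rw [Finset.sum_congr rfl h4, Finset.sum_eq_single 1]
    · rw [hD1]
      simp
    · intro j _ hj
      rw [if_neg hj, mul_zero, zero_smul]
    · intro h
      exact absurd (Finset.mem_range.2 (by omega)) h
  have hmain : ‖r • deriv φ 0‖ ≤ (∑ i ∈ Finset.range (n + 1), |a i|) * (μ + Λ * ρ ^ (n + 1)) := by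
    rw [← hid, Finset.sum_mul]
    refine (norm_sum_le _ _).trans (Finset.sum_le_sum fun i hi => ?_)
    rw [norm_smul, Real.norm_eq_abs]
    refine mul_le_mul_of_nonneg_left ?_ (abs_nonneg _)
    have h3 := htay i hi
    have h4 := h1 _ (hnode i hi)
    have h5 : ∑ j ∈ Finset.range (n + 1), ((j.factorial : ℝ)⁻¹ * ((i : ℝ) * r) ^ j) • D j =
        φ ((i : ℝ) * r) - (φ ((i : ℝ) * r) - ∑ j ∈ Finset.range (n + 1),
          ((j.factorial : ℝ)⁻¹ * ((i : ℝ) * r) ^ j) • D j) := by abel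
    rw [h5]
    exact (norm_sub_le _ _).trans (add_le_add h4 h3)
  rw [norm_smul, Real.norm_eq_abs, abs_of_pos hrpos] at hmain
  have h6 : ‖deriv φ 0‖ ≤ (∑ i ∈ Finset.range (n + 1), |a i|) * (μ + Λ * ρ ^ (n + 1)) / r := by
    rw [le_div_iff₀ hrpos, mul_comm]
    exact hmain
  refine h6.trans (le_of_eq ?_)
  have h7 : n + 1 - 1 = n := by omega
  rw [h7, hr]
  field_simp
  ring

end IInt1

theorem pr_Int1 : StInt1 := by
  intro k r0 hk hr0
  rcases Nat.lt_or_ge k 2 with hk2 | hk2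
  · -- k = 1
    have hk1 : k = 1 := by omega
    subst hk1
    refine ⟨1, one_pos, ?_⟩
    intro V F _ _ _ _ f x μ Λ ρ hf hμ hΛ hρ hρr h
    have h1 := (h x (Metric.mem_closedBall_self hr0.le)).2
    rw [norm_iteratedFDeriv_one] at h1
    have h2 : 0 ≤ μ / ρ := div_nonneg hμ hρ.le
    simp only [Nat.sub_self, pow_zero, mul_one, one_mul]
    linarith
  · obtain ⟨a, ha⟩ := IInt1.coeff k
    have hA : 0 ≤ ∑ i ∈ Finset.range k, |a i| := Finset.sum_nonneg fun i _ => abs_nonneg _
    have hk0 : (0 : ℝ) ≤ k := Nat.cast_nonneg k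
    refine ⟨(∑ i ∈ Finset.range k, |a i|) * k + 1, by positivity, ?_⟩
    intro V F _ _ _ _ f x μ Λ ρ hf hμ hΛ hρ hρr h
    have hB : 0 ≤ μ / ρ + Λ * ρ ^ (k - 1) := by positivity
    apply ContinuousLinearMap.opNorm_le_of_unit_norm (by positivity)
    intro v hv
    let L : ℝ →L[ℝ] V := (ContinuousLinearMap.id ℝ ℝ).smulRight v
    have hL : ∀ s, L s = s • v := fun s => rfl
    have hLn : ‖L‖ = 1 := by
      rw [ContinuousLinearMap.norm_smulRight_apply, hv, mul_one]
      exact ContinuousLinearMap.norm_id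
    let g : V → F := fun y => f (x + y)
    have hg : ContDiff ℝ k g := hf.comp (contDiff_const.add contDiff_id)
    have hφ : ContDiff ℝ k (g ∘ L) := hg.comp L.contDiff
    have hball : ∀ s ∈ Icc 0 r0, x + L s ∈ Metric.closedBall x r0 := by
      intro s hs
      rw [Metric.mem_closedBall, dist_eq_norm, add_sub_cancel_left, hL, norm_smul, hv, mul_one,
        Real.norm_eq_abs, abs_of_nonneg hs.1]
      exact hs.2
    have hder : deriv (g ∘ L) 0 = fderiv ℝ f x v := by
      have hdf : HasFDerivAt f (fderiv ℝ f x) (x + L 0) := by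
        rw [map_zero, add_zero]
        exact ((hf.differentiable (by exact_mod_cast (by omega : k ≠ 0))) x).hasFDerivAt
      have h1 : HasDerivAt (fun s : ℝ => x + L s) v 0 := by
        have h2 : HasDerivAt (fun s : ℝ => x + s • v) ((1 : ℝ) • v) 0 :=
          ((hasDerivAt_id (0 : ℝ)).smul_const v).const_add x
        rwa [one_smul] at h2
      exact (hdf.comp_hasDerivAt (0 : ℝ) h1).deriv
    have hone := IInt1.one hk2 ha hφ hΛ hρ hρr (fun s hs => (h _ (hball s hs)).1)
      (fun s hs => by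
        rw [← norm_iteratedFDeriv_eq_norm_iteratedDeriv,
          ContinuousLinearMap.iteratedFDeriv_comp_right L hg s le_rfl]
        refine (ContinuousMultilinearMap.norm_compContinuousLinearMap_le _ _).trans ?_
        rw [Finset.prod_const, hLn, one_pow, mul_one]
        have h3 : iteratedFDeriv ℝ k g (L s) = iteratedFDeriv ℝ k f (x + L s) :=
          iteratedFDeriv_comp_add_left k x (L s)
        rw [h3]
        exact (h _ (hball s hs)).2)
    rw [hder] at hone
    refine hone.trans ?_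
    exact mul_le_mul_of_nonneg_right (by linarith) hB

end Pool.Agent.LR
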