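import Pool.Agent.Work.MP_13b5d9_gt.LR.StmtsA

set_option autoImplicit false

/-!
# Item Int2: interpolation for all derivatives
-/

open MeasureTheory Set Filter Topology
open scoped ContDiff ENNReal

namespace Pool.Agent.LR

namespace IInt2

/-- the derivative of order `n` of the derivative of order `i` -/
theorem norm_it {V : Type} [NormedAddCommGroup V] [NormedSpace ℝ V] (i : ℕ) :
    ∀ {F : Type} [NormedAddCommGroup F] [NormedSpace ℝ F] (f : V → F) (n : ℕ) (y : V),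
    ‖iteratedFDeriv ℝ n (iteratedFDeriv ℝ i f) y‖ = ‖iteratedFDeriv ℝ (n + i) f y‖ := by
  induction i with
  | zero =>
    intro F _ _ f n y
    rw [iteratedFDeriv_zero_eq_comp, LinearIsometryEquiv.norm_iteratedFDeriv_comp_left, add_zero]
  | succ i ih =>
    intro F _ _ f n y
    have h1 : iteratedFDeriv ℝ (i + 1) f =
        (continuousMultilinearCurryRightEquiv' ℝ i V F).symm ∘ iteratedFDeriv ℝ i (fderiv ℝ f) := by
      funext x
      exact iteratedFDeriv_succ_eq_comp_right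
    have h2 := LinearIsometryEquiv.norm_iteratedFDeriv_comp_left
      (continuousMultilinearCurryRightEquiv' ℝ i V F).symm (iteratedFDeriv ℝ i (fderiv ℝ f)) y n
    rw [← h1] at h2
    rw [h2, ih (fderiv ℝ f) n y, norm_iteratedFDeriv_fderiv, add_assoc]

end IInt2

open IInt2

theorem pr_Int2 (h : StInt1) : StInt2 := by
  intro k i
  induction i with
  | zero =>
    intro r0 hk _ hr
    refine ⟨1, one_pos, ?_⟩
    intro V F _ _ _ _ f x μ Λ hf hμ hμ1 hΛ hy
    have h1 := (hy x (Metric.mem_closedBall_self hr.le)).1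
    rw [norm_iteratedFDeriv_zero]
    have h2 : (1 : ℝ) - ((0 : ℕ) : ℝ) / k = 1 := by simp
    rw [h2, Real.rpow_one]
    nlinarith
  | succ i ih =>
    intro r0 hk hik hr
    obtain ⟨C₁, hC₁, h1⟩ := ih (r0 / 2) hk (by omega) (by positivity)
    obtain ⟨C₂, hC₂, h2⟩ := h (k - i) (r0 / 2) (by omega) (by positivity)
    refine ⟨C₂ * (2 * C₁ / r0 + (r0 / 2) ^ (k - i - 1)), by positivity, ?_⟩
    intro V F _ _ _ _ f x μ Λ hf hμ hμ1 hΛ hy
    have hk0 : (0 : ℝ) < k := by exact_mod_cast hk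
    set μ' : ℝ := C₁ * (1 + Λ) * μ ^ (1 - (i : ℝ) / k) with hμ'
    set ρ : ℝ := r0 / 2 * μ ^ (1 / (k : ℝ)) with hρ
    have hp : 0 < μ ^ (1 / (k : ℝ)) := Real.rpow_pos_of_pos hμ _
    have hp1 : μ ^ (1 / (k : ℝ)) ≤ 1 := Real.rpow_le_one hμ.le hμ1 (by positivity)
    have hρ0 : 0 < ρ := by positivity
    have hρ1 : ρ ≤ r0 / 2 := by
      rw [hρ]
      have : 0 < r0 / 2 := by positivity
      nlinarith
    have hμ'0 : 0 ≤ μ' := by
      have := Real.rpow_nonneg hμ.le (1 - (i : ℝ) / k)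
      positivity
    have hg : ContDiff ℝ ((k - i : ℕ) : WithTop ℕ∞) (iteratedFDeriv ℝ i f) := by
      refine hf.iteratedFDeriv_right (m := ((k - i : ℕ) : WithTop ℕ∞)) ?_
      have h3 : ((k - i : ℕ) : WithTop ℕ∞) + (i : ℕ) = ((k - i + i : ℕ) : WithTop ℕ∞) := by
        push_cast
        rfl
      rw [h3, Nat.sub_add_cancel (by omega)]
    have h3 := h2 V (ContinuousMultilinearMap ℝ (fun _ : Fin i => V) F) (iteratedFDeriv ℝ i f) x μ' Λ
      ρ hg hμ'0 hΛ hρ0 hρ1 (by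
        intro y hy1
        have hsub : ∀ w ∈ Metric.closedBall y (r0 / 2), w ∈ Metric.closedBall x r0 := by
          intro w hw
          rw [Metric.mem_closedBall] at *
          calc dist w x ≤ dist w y + dist y x := dist_triangle _ _ _
            _ ≤ r0 / 2 + r0 / 2 := add_le_add hw hy1
            _ = r0 := by ring
        refine ⟨h1 V F f y μ Λ hf hμ hμ1 hΛ fun w hw => hy w (hsub w hw), ?_⟩
        rw [norm_it i f (k - i) y, Nat.sub_add_cancel (by omega)]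
        exact (hy y (hsub y (Metric.mem_closedBall_self (by positivity)))).2)
    rw [norm_fderiv_iteratedFDeriv] at h3
    refine h3.trans ?_
    have e1 : μ' / ρ = 2 * C₁ / r0 * (1 + Λ) * μ ^ (1 - ((i + 1 : ℕ) : ℝ) / k) := by
      have e2 : μ ^ (1 - (i : ℝ) / k) = μ ^ (1 - ((i + 1 : ℕ) : ℝ) / k) * μ ^ (1 / (k : ℝ)) := by
        rw [← Real.rpow_add hμ]
        congr 1
        push_cast
        field_simp
        ring
      rw [hμ', hρ, e2]
      field_simp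
    have e3 : ρ ^ (k - i - 1) = (r0 / 2) ^ (k - i - 1) * μ ^ (1 - ((i + 1 : ℕ) : ℝ) / k) := by
      rw [hρ, mul_pow]
      congr 1
      rw [← Real.rpow_natCast, ← Real.rpow_mul hμ.le]
      congr 1
      have h4 : ((k - i - 1 : ℕ) : ℝ) = (k : ℝ) - (i + 1 : ℕ) := by
        rw [Nat.sub_sub, Nat.cast_sub hik]
      rw [h4]
      field_simp
    rw [e1, e3]
    have hq : 0 ≤ μ ^ (1 - ((i + 1 : ℕ) : ℝ) / k) := Real.rpow_nonneg hμ.le _
    have hr2 : 0 ≤ (r0 / 2) ^ (k - i - 1) := by positivity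
    have h5 : Λ * ((r0 / 2) ^ (k - i - 1) * μ ^ (1 - ((i + 1 : ℕ) : ℝ) / k)) ≤
        (1 + Λ) * ((r0 / 2) ^ (k - i - 1) * μ ^ (1 - ((i + 1 : ℕ) : ℝ) / k)) :=
      mul_le_mul_of_nonneg_right (by linarith) (mul_nonneg hr2 hq)
    calc C₂ * (2 * C₁ / r0 * (1 + Λ) * μ ^ (1 - ((i + 1 : ℕ) : ℝ) / k) +
          Λ * ((r0 / 2) ^ (k - i - 1) * μ ^ (1 - ((i + 1 : ℕ) : ℝ) / k)))
        ≤ C₂ * (2 * C₁ / r0 * (1 + Λ) * μ ^ (1 - ((i + 1 : ℕ) : ℝ) / k) +
          (1 + Λ) * ((r0 / 2) ^ (k - i - 1) * μ ^ (1 - ((i + 1 : ℕ) : ℝ) / k))) :=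
          mul_le_mul_of_nonneg_left (by linarith) hC₂.le
      _ = C₂ * (2 * C₁ / r0 + (r0 / 2) ^ (k - i - 1)) * (1 + Λ) *
          μ ^ (1 - ((i + 1 : ℕ) : ℝ) / k) := by ring

end Pool.Agent.LR
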