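import Pool.Agent.Work.MP_25cd3b_gt.NG.Defs
import Pool.Agent.Work.MP_13b5d9_gt.ST.Defs

set_option autoImplicit false

/-!
# MP_13b5d9_gt, block LR (local rigidity at negatively curved products): definitions

`R^(m+1) = R^m x R`; the metrics are `g = dt^2 + g_t` (`Blk`), `gb` is the mean over `t` of the `g_t`.
-/

open MeasureTheory Set Filter Topology
open scoped ContDiff ENNReal
open Pool.Agent.Work.MP_c9f990_an.Al (IsFlow)

namespace Pool.Agent.LR

open Pool.Agent.MLS Pool.Agent.STR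

/-- projection of `R^(m+1) = R^m x R` to `R^m` -/
noncomputable def pr {m : ℕ} : E (m + 1) →L[ℝ] E m :=
  ∑ i : Fin m, (EuclideanSpace.proj (𝕜 := ℝ) (Fin.castSucc i)).smulRight (ee i)

/-- last coordinate -/
noncomputable def ht {m : ℕ} : E (m + 1) →L[ℝ] ℝ := EuclideanSpace.proj (𝕜 := ℝ) (Fin.last m)

/-- inclusion of `R^m` -/
noncomputable def inc {m : ℕ} : E m →L[ℝ] E (m + 1) :=
  ∑ i : Fin m, (EuclideanSpace.proj (𝕜 := ℝ) i).smulRight (ee (Fin.castSucc i))

/-- last vector of the standard basis -/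
noncomputable def eL {m : ℕ} : E (m + 1) := ee (Fin.last m)

/-- the point `(x, t)` -/
noncomputable def jn {m : ℕ} (x : E m) (t : ℝ) : E (m + 1) := inc x + t • eL

/-- `G` acts on `R^m x R` by `a (x, t) = (p a x, t + h a)`, and `z` is the translation by `l` of the
second factor -/
structure Tw (m : ℕ) (Γ G : Type) [Group Γ] [MulAction Γ (E m)] [Group G]
    [MulAction G (E (m + 1))] (p : G →* Γ) (h : G → ℝ) (z : G) (l : ℝ) : Prop where
  coc : Cocompact m Γ
  cocG : Cocompact (m + 1) G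
  act : ∀ (a : G) (y : E (m + 1)), a • y = jn (p a • pr y) (ht y + h a)
  surj : Function.Surjective p
  pz : p z = 1
  hz : h z = l
  pos : 0 < l

/-- the metric is `dt^2 + g_t` -/
def Blk {m : ℕ} (g : Form (m + 1)) : Prop := ∀ x v, g.val x eL v = ht v

/-- `gb` is the mean over `t ∈ [0, l]` of the metrics `g_t` -/
def IsMean {m : ℕ} (l : ℝ) (g : Form (m + 1)) (gb : Form m) : Prop :=
  ∀ x u v, l * gb.val x u v = ∫ t in (0 : ℝ)..l, g.val (jn x t) (inc u) (inc v)

/-- the difference `g_t - gb` -/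
noncomputable def hf {m : ℕ} (g : Form (m + 1)) (gb : Form m) (y : E (m + 1)) :
    E m →L[ℝ] E m →L[ℝ] ℝ :=
  ((ContinuousLinearMap.compL ℝ (E m) (E (m + 1)) ℝ).flip inc).comp ((g.val y).comp inc) -
    gb.val (pr y)

/-- `|g_t - gb| ≤ κ gb` -/
def Pin {m : ℕ} (κ : ℝ) (g : Form (m + 1)) (gb : Form m) : Prop :=
  ∀ (y : E (m + 1)) (v : E m), |hf g gb y v v| ≤ κ * gb.val (pr y) v v

/-- closed neighbourhood -/
def nb {n : ℕ} (K : Set (E n)) (r : ℝ) : Set (E n) := Metric.cthickening r K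

/-- the points over `S` -/
def cyl {m : ℕ} (S : Set (E m)) : Set (E (m + 1)) := {y | pr y ∈ S}

/-- bounds for a metric on the set `S` -/
structure Bd {n : ℕ} (S : Set (E n)) (L : ℝ) (k : ℕ) (g : Form n) : Prop where
  lo : ∀ x ∈ S, ∀ v, ‖v‖ ^ 2 ≤ L * g.val x v v
  up : ∀ x ∈ S, ∀ i ≤ k, ‖iteratedFDeriv ℝ i g.val x‖ ≤ L

/-- the class of metrics on the closed manifold `R^m / Γ` with curvature at most `-c0^2` and with
bounds near the compact set `K` -/
structure Cls (m : ℕ) (Γ : Type) [Group Γ] [MulAction Γ (E m)] (K : Set (E m)) (L c0 : ℝ)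
    (gb : Form m) : Prop where
  coc : Cocompact m Γ
  cpt : IsCompact K
  cov : ∀ x : E m, ∃ a : Γ, a • x ∈ K
  riem : Riem gb
  inv : Inv Γ gb
  curv : CurvLe gb c0
  bd : Bd (nb K 1) L 3 gb
  one_le : 1 ≤ L
  c0_pos : 0 < c0

/-- the normal form of a metric without conjugate points -/
structure Nf (m : ℕ) (Γ G : Type) [Group Γ] [MulAction Γ (E m)] [Group G]
    [MulAction G (E (m + 1))] (p : G →* Γ) (h : G → ℝ) (z : G) (l : ℝ) (K : Set (E m))
    (L c0 : ℝ) (g : Form (m + 1)) (gb : Form m) : Prop where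
  tw : Tw m Γ G p h z l
  cls : Cls m Γ K L c0 gb
  riem : Riem g
  inv : Inv G g
  noc : NoConj g
  blk : Blk g
  mean : IsMean l g gb
  bdg : Bd (cyl (nb K 1)) L 3 g
  l_lo : 1 ≤ L * l
  l_up : l ≤ L

/-- bounds for the derivatives of order `i ≤ k` of `g_t - gb` near `K` -/
def HB {m : ℕ} (K : Set (E m)) (k : ℕ) (H : ℝ) (g : Form (m + 1)) (gb : Form m) : Prop :=
  ∀ y : E (m + 1), pr y ∈ nb K (1 / 2) → ∀ i ≤ k, ‖iteratedFDeriv ℝ i (hf g gb) y‖ ≤ H

/-- unit speed geodesics -/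
structure UG {n : ℕ} (g : Form n) (c : ℝ → E n) : Prop where
  geo : IsGeo g c
  unit : ∀ t, g.val (c t) (deriv c t) (deriv c t) = 1

/-- complete metric of `R^n` with curvature at most `-κ^2` -/
structure Cv {n : ℕ} (g : Form n) (κ : ℝ) : Prop where
  riem : Riem g
  pos : 0 < κ
  curv : CurvLe g κ
  flow : ∃ (φ : ℝ → W n → W n) (M : ℝ → W n → W n →L[ℝ] W n), IsFlow (XH (Hm g)) φ M

/-- `c` is an axis of the isometry `f`, of translation length `ell` -/
structure Ax {n : ℕ} (g : Form n) (f : E n → E n) (c : ℝ → E n) (ell : ℝ) : Prop where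
  ug : UG g c
  pos : 0 < ell
  tr : ∀ s, c (s + ell) = f (c s)
  min : ∀ (k : ℕ) (x : E n), k * ell ≤ gd g x (f^[k] x)

/-- distance of two curves in phase space at time `t` (in the coordinates of `R^n`) -/
noncomputable def pd {n : ℕ} (c d : ℝ → E n) (t : ℝ) : ℝ :=
  ‖c t - d t‖ + ‖deriv c t - deriv d t‖

/-- half the square of the displacement of `a` -/
noncomputable def dsp {n : ℕ} {G : Type} [Group G] [MulAction G (E n)] (g : Form n)
    (lg : E n → E n → E n) (a : G) (x : E n) : ℝ :=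
  1 / 2 * g.val x (lg x (a • x)) (lg x (a • x))

/-- gradient -/
noncomputable def grd {n : ℕ} (g : Form n) (F : E n → ℝ) (x : E n) : E n :=
  iop g x (sh (fderiv ℝ F x))

/-- the value of `g_t - gb` on the velocity of the curve `c` -/
noncomputable def Hc {m : ℕ} (g : Form (m + 1)) (gb : Form m) (c : ℝ → E m) (S t : ℝ) : ℝ :=
  hf g gb (jn (c S) t) (deriv c S) (deriv c S)

/-- integral of `g_t - gb` over the closed curve `S ↦ (c S, θ + (τ / D) S)`, `0 ≤ S ≤ D` -/
noncomputable def Xr {m : ℕ} (g : Form (m + 1)) (gb : Form m) (c : ℝ → E m) (D τ θ : ℝ) : ℝ :=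
  ∫ S in (0 : ℝ)..D, Hc g gb c S (θ + τ / D * S)

end Pool.Agent.LR
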