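import Pool.Agent.Work.MP_13b5d9_gt.LR.StmtsB
import Pool.Agent.Work.MP_13b5d9_gt.ST.Stmts
import Pool.Agent.Work.MP_25cd3b_gt.NG.All

set_option autoImplicit false

/-!
# MP_13b5d9_gt, block LR, item Axis: existence of axes
-/

open MeasureTheory Set Filter Topology
open scoped ContDiff ENNReal
open Pool.Agent.Work.MP_c9f990_an.Al (IsFlow)

namespace Pool.Agent.LR

open Pool.Agent.MLS Pool.Agent.STR

namespace IAxis

/-- the displacement attains its minimum -/
theorem exists_min {n : ℕ} {G : Type} [Group G] [MulAction G (E n)] (hG : Cocompact n G)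
    {g : Form n} (hg : Riem g) (hinv : Inv G g) (f : G) :
    ∃ y : E n, ∀ x : E n, gd g y (f • y) ≤ gd g x (f • x) := by
  have hd := (pr_InvD n G hG g hinv).2
  have hcd := p_CtsD n g
  obtain ⟨K, hK, hcov⟩ := hG.cocompact
  set r : ℝ := gd g (0 : E n) (f • (0 : E n)) with hr
  obtain ⟨K', hK', hprop⟩ := p_Prop n G hG g hg hinv K r hK
  have hfin := hG.proper (K ∪ K') (hK.union hK')
  set S : Set G := {a : G | ((fun x : E n => a • x) '' (K ∪ K') ∩ (K ∪ K')).Nonempty ∧
    ∃ b : G, a = b * f * b⁻¹} with hS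
  have hSfin : S.Finite := hfin.subset fun a ha => ha.1
  -- every point of small displacement gives an element of `S`
  have key : ∀ x : E n, gd g x (f • x) ≤ r → ∃ b : G, b • x ∈ K ∧ b * f * b⁻¹ ∈ S ∧
      gd g (b • x) ((b * f * b⁻¹) • (b • x)) = gd g x (f • x) := by
    intro x hx
    obtain ⟨b, hb⟩ := hcov x
    have e1 : (b * f * b⁻¹) • (b • x) = b • (f • x) := by
      rw [← mul_smul, ← mul_smul]
      congr 1
      group
    have e2 : gd g (b • x) ((b * f * b⁻¹) • (b • x)) = gd g x (f • x) := by rw [e1, hd]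
    refine ⟨b, hb, ⟨⟨(b * f * b⁻¹) • (b • x), ⟨b • x, Or.inl hb, rfl⟩, Or.inr ?_⟩, b, rfl⟩, e2⟩
    exact hprop _ hb _ (by rw [e2]; exact hx)
  obtain ⟨b0, hb0, hb0S, hb0e⟩ := key 0 le_rfl
  have hmin : ∀ a : G, ∃ x ∈ K, ∀ x' ∈ K, gd g x (a • x) ≤ gd g x' (a • x') := by
    intro a
    have hc : Continuous fun x : E n => gd g x (a • x) :=
      hcd.comp (continuous_id.prodMk (hG.smooth a).continuous)
    obtain ⟨x, hx, hx'⟩ := hK.exists_isMinOn ⟨_, hb0⟩ hc.continuousOn
    exact ⟨x, hx, fun x' h => hx' h⟩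
  choose xa hxa hxa' using hmin
  obtain ⟨a, haS, ha⟩ := Set.exists_min_image S (fun a => gd g (xa a) (a • xa a)) hSfin ⟨_, hb0S⟩
  obtain ⟨-, b, hab⟩ := haS
  refine ⟨b⁻¹ • xa a, fun x => ?_⟩
  have e3 : gd g (b⁻¹ • xa a) (f • (b⁻¹ • xa a)) = gd g (xa a) (a • xa a) := by
    rw [← hd b, smul_inv_smul, hab, mul_smul, mul_smul]
  rw [e3]
  by_cases hx : gd g x (f • x) ≤ r
  · obtain ⟨b', hb', hbS, hbe⟩ := key x hx
    rw [← hbe]
    exact (ha _ hbS).trans (hxa' _ _ hb')
  · push Not at hx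
    refine le_trans ?_ hx.le
    rw [hr, ← hb0e]
    exact (ha _ hb0S).trans (hxa' _ _ hb0)

theorem pow_le {n : ℕ} {G : Type} [Group G] [MulAction G (E n)] {g : Form n}
    (hpm : IsPM (gd g)) (hd : ∀ (a : G) x y, gd g (a • x) (a • y) = gd g x y) (a : G) (x : E n)
    (r : ℕ) : gd g x (a ^ r • x) ≤ r * gd g x (a • x) := by
  induction r with
  | zero => rw [pow_zero, one_smul, hpm.self, Nat.cast_zero, zero_mul]
  | succ r ih =>
    have h1 := hpm.tri x (a ^ r • x) (a ^ (r + 1) • x)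
    have h2 : gd g (a ^ r • x) (a ^ (r + 1) • x) = gd g x (a • x) := by
      rw [pow_succ, mul_smul, hd]
    rw [h2] at h1
    push_cast
    linarith

end IAxis

open IAxis

theorem pr_Axis (h1 : STR.StLog) (h2 : STR.StCrit) (h3 : STR.StIter) : StAxis := by
  intro n G _ _ hG g hg hinv hnc f hf
  obtain ⟨φ, M, hφ⟩ := p_Flow n G hG g hg hinv
  obtain ⟨lg, hlg⟩ := h1 n g φ M hg hφ hnc
  have hpm := (pr_Gd n g).2.1
  have hd := (pr_InvD n G hG g hinv).2
  obtain ⟨-, -, hio, -, -, -, -, -, hHm⟩ := pr_Op n g hg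
  obtain ⟨y, hy⟩ := exists_min hG hg hinv f
  -- the function `F` has a minimum at `y`
  have hsq : ∀ x : E n, g.val x (lg x (f • x)) (lg x (f • x)) = gd g x (f • x) ^ 2 := by
    intro x
    rw [hlg.dist, nrm, Real.sq_sqrt (g.nonneg _ _)]
  have hF : IsLocalMin (fun x => 1 / 2 * g.val x (lg x (f • x)) (lg x (f • x))) y := by
    refine Filter.Eventually.of_forall fun x => ?_
    show 1 / 2 * g.val y (lg y (f • y)) (lg y (f • y)) ≤
      1 / 2 * g.val x (lg x (f • x)) (lg x (f • x))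
    rw [hsq, hsq]
    have h5 := pow_le_pow_left₀ (hpm.nonneg y (f • y)) (hy x) 2
    linarith
  have hcr := h2 n G hG g hg hinv φ M hφ lg hlg f y hF.fderiv_eq_zero
  obtain ⟨hs, hk⟩ := h3 n G hG g hg hinv φ M hφ lg hlg f y hcr
  obtain ⟨-, -, hexp, -, hexp0⟩ := p_NcExp n g φ M hg hφ y
  set v : E n := lg y (f • y) with hv
  set ell : ℝ := gd g y (f • y) with hell
  have hellv : g.val y v v = ell ^ 2 := hsq y
  have hellpos : 0 < ell := by
    rcases (hpm.nonneg y (f • y)).lt_or_eq with h | h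
    · exact h
    · exfalso
      have h5 : v = 0 := by
        by_contra hne
        have h6 := hg y v hne
        rw [hellv, hell, ← h] at h6
        norm_num at h6
      have h7 := hlg.exp_log y (f • y)
      rw [← hv, h5, hexp0] at h7
      exact hf (hG.free f y h7.symm)
  set u : E n := (1 / ell) • v with hu
  have huu : g.val y u u = 1 := by
    have h5 : g.val y u u = (1 / ell) ^ 2 * g.val y v v := by
      rw [hu]
      simp only [map_smul, smul_apply, smul_eq_mul]
      ring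
    rw [h5, hellv]
    field_simp
  set ζ : W n := (y, op g y u) with hζ
  obtain ⟨hgeo, hder, hen⟩ := p_Geo1 n g hg (fun t => φ t ζ) (fun t => hφ.ode ζ t)
  have hvel : vel g ζ = u := hio y u
  refine ⟨fun t => (φ t ζ).1, ell, ⟨hgeo, fun t => ?_⟩, hellpos, fun s => ?_, fun k x => ?_⟩
  · have h5 := hder t
    have h6 := hen t
    have h7 := hHm (φ t ζ)
    have h8 := hHm (φ 0 ζ)
    have h9 : Hm g (φ 0 ζ) = 1 / 2 := by
      rw [h8, hφ.zero, hvel]
      show 1 / 2 * g.val y u u = 1 / 2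
      rw [huu, mul_one]
    have h10 : Hm g (φ t ζ) = 1 / 2 := by
      rw [← h9]
      exact h6
    have h11 : g.val (φ t ζ).1 (vel g (φ t ζ)) (vel g (φ t ζ)) = 1 := by
      rw [h10] at h7
      linarith
    have h12 : deriv (fun s => (φ s ζ).1) t = vel g (φ t ζ) := h5
    rw [h12]
    exact h11
  · show (φ (s + ell) ζ).1 = f • (φ s ζ).1
    rw [hexp (s + ell) u, hexp s u]
    have h5 : (s + ell) • u = (s / ell + 1) • v := by
      rw [hu, smul_smul]
      congr 1
      field_simp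
    have h6 : s • u = (s / ell) • v := by
      rw [hu, smul_smul]
      congr 1
      field_simp
    rw [h5, h6]
    exact hs (s / ell)
  · have h5 : (fun x : E n => f • x)^[k] x = f ^ k • x := smul_iterate_apply f k x
    rw [h5]
    by_contra hlt
    push Not at hlt
    obtain ⟨r, hr⟩ := exists_nat_gt (2 * gd g x y / (k * ell - gd g x (f ^ k • x)))
    have hpos : 0 < k * ell - gd g x (f ^ k • x) := sub_pos.2 hlt
    rw [div_lt_iff₀ hpos] at hr
    have h6 := hk (k * r)
    rw [pow_mul] at h6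
    have h7 := pow_le hpm hd (f ^ k) x r
    have h8 := hpm.tri y x ((f ^ k) ^ r • y)
    have h9 := hpm.tri x ((f ^ k) ^ r • x) ((f ^ k) ^ r • y)
    have h10 := hd ((f ^ k) ^ r) x y
    have h11 := hpm.symm y x
    have h12 : (((k * r : ℕ) : ℝ)) * ell = r * (k * ell) := by
      push_cast
      ring
    rw [h12] at h6
    nlinarith

end Pool.Agent.LR
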