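import Pool.Agent.Work.MP_25cd3b_gt.NG.Stmts
import Pool.Agent.Work.MP_13b5d9_gt.ST.Stmts
import Pool.Agent.Work.MP_13b5d9_gt.LR.Defs

set_option autoImplicit false

/-!
# MP_13b5d9_gt, block LR: statements of part D (the path lemma), each with its complete proof

All statements of the blocks M, NC and NG of MP_25cd3b_gt are theorems: import
`Pool.Agent.Work.MP_25cd3b_gt.NG.All` and use them freely.  `STR.StX` are statements of ST/Stmts
(may be used as hypotheses).  Notation of the comments: `d = gd g`, `F = dsp g lg a`,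
`F x = d(x, a x)^2 / 2`, `|v| = nrm g x v`.
-/

open MeasureTheory Set Filter Topology
open scoped ContDiff ENNReal
open Pool.Agent.Work.MP_c9f990_an.Al (IsFlow)

namespace Pool.Agent.LR

open Pool.Agent.MLS Pool.Agent.STR

/-- The displacement function and its gradient (uses `STR.StVar`, `STR.StLgI`).  `F` is smooth
(`IsLog.smooth`), `F x = 1/2 (nrm g x (lg x (a x)))^2 = 1/2 d(x, a x)^2`.  `g (grd g F x, w) =
inner (op (iop (sh (dF)))) w = inner (sh dF) w = dF w` (`StOp`).  `StVar` with `Y = (a • ·)`: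
`dF(x) w = g_(a x) (P, dac a x w) - g_x (v, w)`, `v = lg x (a x)`, `P = ev φ g x v`, `|P| = |v|`
(energy is constant along the flow, `StGeo1`, `StOp`), so `|dF(x) w| ≤ 2 |v| |w|` (Cauchy-Schwarz,
`Inv`), so `|grd| ≤ 2 |v|` (take `w = grd`), and `|v|^2 = 2 F`.  Equivariance for `b a = a b`:
`STR.StLgI`: `lg (b x) (a b x) = lg (b x) (b a x) = dac b x (lg x (a x))`, so `F (b x) = F x`;
differentiate: `dF(b x)(dac b x w) = dF(x) w`, so
`g_(b x)(grd (b x), dac b x w) = g_x(grd x, w) = g_(b x)(dac b x (grd x), dac b x w)` for all `w`, and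
`dac b x` is surjective. -/
def StGrd : Prop := ∀ (n : ℕ) (G : Type) [Group G] [MulAction G (E n)], Cocompact n G →
  ∀ g : Form n, Riem g → Inv G g → ∀ (φ : ℝ → W n → W n) (M : ℝ → W n → W n →L[ℝ] W n),
  IsFlow (XH (Hm g)) φ M → ∀ lg : E n → E n → E n, IsLog g φ lg → ∀ a : G,
  ContDiff ℝ ∞ (dsp g lg a) ∧ ContDiff ℝ ∞ (grd g (dsp g lg a)) ∧
  (∀ x, dsp g lg a x = 1 / 2 * gd g x (a • x) ^ 2) ∧
  (∀ x w, g.val x (grd g (dsp g lg a) x) w = fderiv ℝ (dsp g lg a) x w) ∧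
  (∀ x, g.val x (grd g (dsp g lg a) x) (grd g (dsp g lg a) x) ≤ 8 * dsp g lg a x) ∧
  ∀ b : G, b * a = a * b → ∀ x, dsp g lg a (b • x) = dsp g lg a x ∧
    grd g (dsp g lg a) (b • x) = dac b x (grd g (dsp g lg a) x)

/-- Critical points are minima.  `STR.StCrit` and `STR.StIter` (hypotheses) give
`d(x, a^k x) = k d(x, a x)` for all `k : ℕ`; for every `y`, by induction
`d(y, a^k y) ≤ k d(y, a y)`, so `k d(x, a x) ≤ 2 d(x, y) + k d(y, a y)` for all `k`. -/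
def StCM : Prop := ∀ (n : ℕ) (G : Type) [Group G] [MulAction G (E n)], Cocompact n G →
  ∀ g : Form n, Riem g → Inv G g → ∀ (φ : ℝ → W n → W n) (M : ℝ → W n → W n →L[ℝ] W n),
  IsFlow (XH (Hm g)) φ M → ∀ lg : E n → E n → E n, IsLog g φ lg → ∀ (a : G) (x : E n),
  fderiv ℝ (dsp g lg a) x = 0 → ∀ y, gd g x (a • x) ≤ gd g y (a • y)

/-- Sublevel sets of the displacement are cocompact under the centraliser.  Let `K` be compact with
`G K = R^n`.  For `x` with `d(x, a x) ≤ C` choose `b` with `b x ∈ K`; the element `a' = b a b⁻¹` moves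
the point `b x ∈ K` by at most `C`, so it is in a finite set `A` (`StProp` gives a compact `K'` with
`a' b x ∈ K'`; `proper` for `K ∪ K'`).  For every `a' ∈ A` which is of the form `b a b⁻¹` fix one such
element `b_(a')`; then `b_(a')⁻¹ b` commutes with `a` and `b_(a')⁻¹ b x ∈ b_(a')⁻¹ K`.  Let `Q` be the
union of the `b_(a')⁻¹ K`. -/
def StCen : Prop := ∀ (n : ℕ) (G : Type) [Group G] [MulAction G (E n)], Cocompact n G →
  ∀ g : Form n, Riem g → Inv G g → ∀ (a : G) (C : ℝ), ∃ Q : Set (E n), IsCompact Q ∧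
  ∀ x, gd g x (a • x) ≤ C → ∃ b : G, b * a = a * b ∧ b • x ∈ Q

/-- Lower bound of the gradient (uses `StGrd`, `StCM`, `StCen`).  Let `Q` be as in `StCen`; by
equivariance (`gd g (b x) (a b x) = gd g x (a x)`, `g (grd, grd)` invariant) it is enough to consider
`x ∈ Q`.  The set of the `x ∈ Q` with `c₁ ≤ d(x, a x) ≤ C` is compact, and `g (grd, grd) > 0` on it:
if `grd = 0` at `x` then `dF(x) = 0` and `StCM` gives `c₁ ≤ d(x, a x) ≤ d(y₀, a y₀) < c₁`. -/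
def StMu : Prop := ∀ (n : ℕ) (G : Type) [Group G] [MulAction G (E n)], Cocompact n G →
  ∀ g : Form n, Riem g → Inv G g → ∀ (φ : ℝ → W n → W n) (M : ℝ → W n → W n →L[ℝ] W n),
  IsFlow (XH (Hm g)) φ M → ∀ lg : E n → E n → E n, IsLog g φ lg → ∀ (a : G) (y₀ : E n)
  (c₁ C : ℝ), gd g y₀ (a • y₀) < c₁ → ∃ μ : ℝ, 0 < μ ∧ ∀ x, c₁ ≤ gd g x (a • x) →
  gd g x (a • x) ≤ C → μ ≤ g.val x (grd g (dsp g lg a) x) (grd g (dsp g lg a) x)

/-- The gradient flow (uses `StGrd`).  Let `ρ : ℝ → ℝ` be smooth, `0 ≤ ρ ≤ 1`, `ρ r = 1` for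
`r ≤ C^2 / 2 + 1` and `ρ r = 0` for `r ≥ C^2 / 2 + 2` (`Real.smoothTransition`), and
`Z x = - ρ (F x) grd x`, a smooth field with `|Z|^2 ≤ 8 (C^2 / 2 + 2)`.  `StPatch` (its hypothesis: if
`y' = ψ (y) Z (y)`, `0 ≤ ψ ≤ 1`, then the curve `y` has bounded speed for `g`, so
`d(y 0, y t) ≤ B |t|` (`StGd`) and `y t` stays in the compact set of `StProp`) gives a complete flow
`(Ψ, M')` of `Z`.  `F` is nonincreasing along the flow: the derivative is `- ρ g(grd, grd) ≤ 0`; so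
`F (Ψ t x) ≤ C^2 / 2` for `t ≥ 0` if `d(x, a x) ≤ C`, and there `Z = - grd`.  For `b a = a b`:
`Z (b x) = dac b x (Z x)`, so `s ↦ b Ψ s x` is a solution; `IsFlow.uniq` gives
`Ψ t (b x) = b Ψ t x` for `t ≥ 0`. -/
def StGF : Prop := ∀ (n : ℕ) (G : Type) [Group G] [MulAction G (E n)], Cocompact n G →
  ∀ g : Form n, Riem g → Inv G g → ∀ (φ : ℝ → W n → W n) (M : ℝ → W n → W n →L[ℝ] W n),
  IsFlow (XH (Hm g)) φ M → ∀ lg : E n → E n → E n, IsLog g φ lg → ∀ (a : G) (C : ℝ),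
  ∃ Ψ : ℝ → E n → E n, Continuous (fun q : ℝ × E n => Ψ q.1 q.2) ∧ (∀ x, Ψ 0 x = x) ∧
  (∀ x, gd g x (a • x) ≤ C → ∀ t, 0 ≤ t → gd g (Ψ t x) (a • Ψ t x) ≤ C ∧
    HasDerivAt (fun s => Ψ s x) (-grd g (dsp g lg a) (Ψ t x)) t) ∧
  ∀ b : G, b * a = a * b → ∀ t, 0 ≤ t → ∀ x, Ψ t (b • x) = b • Ψ t x

/-- PATH LEMMA (uses `STR.StLog`, `StGrd`, `StMu`, `StGF`; flow from `StFlow`).  Let `c* = inf d(y, a y)`;
it is enough to find a path on which `d(x, a x) ≤ c* + ε`.  Let `y₀` be any point with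
`d(y₀, a y₀) < c* + ε =: c₁` and `C` the maximum of `d(x, a x)` over the segment from `y₀` to `z y₀`
(and `C ≥ c₁`), `μ` from `StMu`, `Ψ` from `StGF`.  If `d(x, a x) ≤ C` then for `T = C^2 / μ` the point
`Ψ T x` has `d ≤ c₁`: `F (Ψ t x)` is nonincreasing with derivative `- g (grd, grd)`, which is `≤ -μ` as
long as `d ≥ c₁`, and `F ≥ 0`, `F ≤ C^2 / 2`.  So `u q = Ψ T (y₀ + q (z y₀ - y₀))` is a path with
`d(u, a u) ≤ c₁` and `u 1 = Ψ T (z y₀) = z u 0` (`z a = a z`). -/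
def StPath : Prop := ∀ (n : ℕ) (G : Type) [Group G] [MulAction G (E n)], Cocompact n G →
  ∀ g : Form n, Riem g → Inv G g → NoConj g → ∀ a z : G, z * a = a * z → ∀ ε : ℝ, 0 < ε →
  ∃ u : ℝ → E n, Continuous u ∧ u 1 = z • u 0 ∧
    ∀ q ∈ Icc (0 : ℝ) 1, ∀ y, gd g (u q) (a • u q) ≤ gd g y (a • y) + ε

end Pool.Agent.LR
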