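import Mathlib
import Pool.Agent.Work.MP_25cd3b_gt.NG.All
import Pool.Agent.Work.MP_13b5d9_gt.LR.StmtsD

set_option autoImplicit false

/-! # MP_13b5d9_gt, block LR, item CM: critical points of the displacement are minima -/

open MeasureTheory Set Filter Topology
open scoped ContDiff ENNReal
open Pool.Agent.Work.MP_c9f990_an.Al (IsFlow)

namespace Pool.Agent.LR

open Pool.Agent.MLS Pool.Agent.STR

namespace ICM

variable {n : ℕ} {G : Type} [Group G] [MulAction G (E n)]

lemma iter_le (hG : Cocompact n G) {g : Form n} (hI : Inv G g) (z : G)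
    (y : E n) (k : ℕ) : gd g y (z ^ k • y) ≤ k * gd g y (z • y) := by
  have hpm := (pr_Gd n g).2.1
  induction k with
  | zero => simp [hpm.self]
  | succ k ih =>
    have e : gd g (z ^ k • y) (z ^ (k + 1) • y) = gd g y (z • y) := by
      rw [pow_succ, ← smul_smul]
      exact (pr_InvD n G hG g hI).2 (z ^ k) y (z • y)
    have := hpm.tri y (z ^ k • y) (z ^ (k + 1) • y)
    rw [e] at this
    push_cast
    linarith

end ICM

open ICM in
/-- critical points of the displacement function are minima -/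
theorem pr_CM (h1 : STR.StCrit) (h2 : STR.StIter) : StCM := by
  intro n G _ _ hG g hR hI φ M hφ lg hlg z x₀ hd0 y
  have hpm := (pr_Gd n g).2.1
  have hx₀ := h1 n G hG g hR hI φ M hφ lg hlg z x₀ hd0
  have hit := (h2 n G hG g hR hI φ M hφ lg hlg z x₀ hx₀).2
  by_contra hlt
  rw [not_le] at hlt
  have key : ∀ k : ℕ, (k : ℝ) * (gd g x₀ (z • x₀) - gd g y (z • y)) ≤ 2 * gd g x₀ y := by
    intro k
    have t1 := hpm.tri x₀ y (z ^ k • x₀)
    have t2 := hpm.tri y (z ^ k • y) (z ^ k • x₀)
    have t3 : gd g (z ^ k • y) (z ^ k • x₀) = gd g y x₀ := (pr_InvD n G hG g hI).2 (z ^ k) y x₀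
    have t4 := iter_le hG hI z y k
    have t5 := hit k
    have t6 := hpm.symm x₀ y
    rw [mul_sub]
    linarith
  obtain ⟨k, hk⟩ := exists_nat_gt (2 * gd g x₀ y / (gd g x₀ (z • x₀) - gd g y (z • y)))
  have hpos : 0 < gd g x₀ (z • x₀) - gd g y (z • y) := by linarith
  rw [div_lt_iff₀ hpos] at hk
  linarith [key k]

end Pool.Agent.LR
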