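import Pool.Agent.Work.MP_25cd3b_gt.NG.Stmts
import Pool.Agent.Work.MP_13b5d9_gt.LR.Defs

set_option autoImplicit false

/-!
# MP_13b5d9_gt, block LR: statements of part B (geometry of curvature at most `-κ^2`), each with its
complete proof

All statements of the blocks M, NC and NG of MP_25cd3b_gt are theorems: import
`Pool.Agent.Work.MP_25cd3b_gt.NG.All` (`p_StGd` etc. in `M/All`, `p_NcDist`, ..., `p_NgVar`, `p_NgJc`,
`p_NgOde`, `p_NgRT`, `p_NgPt`) and use them freely.  Notation of the comments: `d = gd g`.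
-/

open MeasureTheory Set Filter Topology
open scoped ContDiff ENNReal
open Pool.Agent.Work.MP_c9f990_an.Al (IsFlow)

namespace Pool.Agent.LR

open Pool.Agent.MLS Pool.Agent.STR

/-- Operations on unit speed geodesics: shift of the parameter, reversal (the Euler-Lagrange
equations are invariant; `IsGeo.smooth`), images under the group (`StEqG` and `Inv`:
`deriv (a • c) t = dac a (c t) (deriv c t)`). -/
def StUG : Prop := ∀ (n : ℕ) (g : Form n) (c : ℝ → E n), UG g c →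
  (∀ s, UG g (fun t => c (t + s))) ∧ (∀ s, UG g (fun t => c (s - t))) ∧
  ∀ (G : Type) [Group G] [MulAction G (E n)], Cocompact n G → Riem g → Inv G g → ∀ a : G,
    UG g (fun t => a • c t) ∧ ∀ t, deriv (fun s => a • c s) t = dac a (c t) (deriv c t)

/-- Geodesics of a metric without conjugate points.  The first part is `NcMinz`.  Second part: by
`NcDist` (with `NcInj`) there is `v` with `expo φ g x v = y`, `gd g x y = nrm g x v`; `v ≠ 0` since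
`x ≠ y` (`NcExp`: `expo φ g x 0 = x`).  `σ t = expo φ g x (t • (nrm g x v)⁻¹ • v)
= (φ t (x, op g x ((nrm g x v)⁻¹ • v))).1` is a geodesic (`StGeo1`) of speed one (constant energy,
`StOp`). -/
def StGe : Prop := ∀ (n : ℕ) (g : Form n) (φ : ℝ → W n → W n) (M : ℝ → W n → W n →L[ℝ] W n),
  Riem g → IsFlow (XH (Hm g)) φ M → NoConj g →
  (∀ σ, UG g σ → ∀ s t, gd g (σ s) (σ t) = |s - t|) ∧
  ∀ x y, x ≠ y → ∃ σ, UG g σ ∧ σ 0 = x ∧ σ (gd g x y) = y ∧ 0 < gd g x y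

/-- `CurvLe g κ` implies `CurvLe g 0` (`Ar ≥ 0`, Cauchy-Schwarz), so `NoConj g` by `NgNoC`; then
`StGe` (hypothesis). -/
def StCvG : Prop := ∀ (n : ℕ) (g : Form n) (κ : ℝ), Cv g κ → NoConj g ∧
  (∀ σ, UG g σ → ∀ s t, gd g (σ s) (σ t) = |s - t|) ∧
  ∀ x y, x ≠ y → ∃ σ, UG g σ ∧ σ 0 = x ∧ σ (gd g x y) = y ∧ 0 < gd g x y

/-- STEWART INEQUALITY (uses `StCvG`).  If `y = σ t₀` then `d(y, σ t) = |t - t₀|` and the claim is the
identity `sinh (a + b) cosh t = sinh b cosh (t - a) + sinh a cosh (t + b)`.  Otherwise take `w, e, e1, e2`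
from `NgVar` (with `φ` of `Cv.flow`; its hypotheses are `NcInj`, `NcDist`); `d(y, σ t) = nrm g y (w t) =
(2 e t)^(1/2)` by `NcDist`, `e t > 0` for all `t` (if `w t = 0` then `σ t = expo 0 = y`).  `NgJc` for the
Jacobi field of `NgVar` (along the geodesic `γ_t s = (φ s (y, op g y (w t))).1` of speed
`l = (2 e t)^(1/2)`; `g(J 1, γ_t' 1) = e1 t`, `g(J 1, J 1) = 1`) gives the inequality between `e1` and
`e2` which is the hypothesis of `NgOde`; exactly as in the proof of `NgOde` the function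
`h t = cosh (κ (2 e t)^(1/2))` is `C^2` with `h'' ≥ κ^2 h`.  (See `I_RT.lean`, `I_Ode.lean` of NG.)  Let
`W` be the right side of the claim divided by `sinh (κ (a + b))` as a function of the position
`s ∈ [t - a, t + b]`, that is the solution of `W'' = κ^2 W` with the values of `h` at the end points.
`h ≤ W` on the interval: otherwise `h - W` has a positive maximum in the interior, where its second
derivative is `≤ 0`, but it is `≥ κ^2 (h - W) > 0`.  (For `a = 0` or `b = 0` trivial.) -/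
def StStew : Prop := ∀ (n : ℕ) (g : Form n) (κ : ℝ), Cv g κ → ∀ σ, UG g σ →
  ∀ (y : E n) (t a b : ℝ), 0 ≤ a → 0 ≤ b →
  Real.sinh (κ * (a + b)) * Real.cosh (κ * gd g y (σ t)) ≤
    Real.sinh (κ * b) * Real.cosh (κ * gd g y (σ (t - a))) +
    Real.sinh (κ * a) * Real.cosh (κ * gd g y (σ (t + b)))

/-- Nearest point (uses `StStew`).  Let `f s = cosh (κ d(x, σ s)) ≥ f t₀ = cosh κρ`.  For `0 < q < t`:
`sinh (κ t) f(t₀ + q) ≤ sinh (κ (t - q)) f(t₀) + sinh (κ q) f(t₀ + t)` (Stewart at `t₀ + q`, `a = q`,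
`b = t - q`) and `f(t₀ + q) ≥ f(t₀)`, so
`f(t₀ + t) ≥ f(t₀) (sinh (κ t) - sinh (κ (t - q))) / sinh (κ q)`, which tends to
`f(t₀) cosh (κ t)` as `q → 0`.  For `t < 0` the same on the other side. -/
def StRA : Prop := ∀ (n : ℕ) (g : Form n) (κ : ℝ), Cv g κ → ∀ σ, UG g σ →
  ∀ (x : E n) (t₀ : ℝ), (∀ t, gd g x (σ t₀) ≤ gd g x (σ t)) → ∀ t,
  Real.cosh (κ * gd g x (σ t₀)) * Real.cosh (κ * t) ≤ Real.cosh (κ * gd g x (σ (t₀ + t)))

/-- Quadrilaterals (uses `StCvG`, `StStew`).  If `x = o'` the claim follows from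
`cosh A + cosh B ≥ 2 cosh ((A + B) / 2)`, the triangle inequality and monotonicity of `cosh`.
Otherwise let `σ` be the geodesic from `x` to `o'`, `δ = d(x, o')`, `μ = σ (δ / 2)`.  Stewart with
`a = b = δ / 2` (divide by `sinh (κ δ / 2)`): `2 cosh (κ δ / 2) cosh (κ d(y, μ)) ≤
cosh (κ d(y, x)) + cosh (κ d(y, o'))` for `y = o` and `y = x'`; add, and
`cosh (κ d(o, μ)) + cosh (κ d(x', μ)) ≥ 2 cosh (κ (d(o, μ) + d(x', μ)) / 2) ≥
2 cosh (κ d(x', o) / 2)`. -/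
def StQd : Prop := ∀ (n : ℕ) (g : Form n) (κ : ℝ), Cv g κ → ∀ x o o' x' : E n,
  4 * Real.cosh (κ * gd g x o' / 2) * Real.cosh (κ * gd g x' o / 2) ≤
    Real.cosh (κ * gd g x o) + Real.cosh (κ * gd g o o') + Real.cosh (κ * gd g o' x') +
      Real.cosh (κ * gd g x' x)

/-- TUBE INEQUALITY (uses `StCvG`, `StRA`, `StQd`).  `t ↦ d(x, σ t)` is continuous and tends to
infinity (`≥ |t| - d(x, σ 0)`), so it has a minimum at some `t₀`, `ρ = d(x, σ t₀)`.  Let `o = σ t₀`,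
`o' = f o = σ (t₀ + D)`, `x' = f x`; `d(x', σ (t + D)) = d(x, σ t)`, so `o'` is the nearest point to
`x'`.  `StRA`: `cosh (κ d(x, o')) ≥ cosh κρ cosh κD` and `cosh (κ d(x', o)) ≥ cosh κρ cosh κD`.  Let
`cosh κδ = cosh κρ cosh κD`, `δ ≥ 0`: by `StQd` `4 cosh^2 (κδ / 2) = 2 cosh κρ cosh κD + 2 ≤
2 cosh κρ + cosh κD + cosh (κ d(x, x'))`. -/
def StTube : Prop := ∀ (n : ℕ) (g : Form n) (κ : ℝ), Cv g κ → ∀ (f : E n → E n),
  (∀ x y, gd g (f x) (f y) = gd g x y) → ∀ σ, UG g σ → ∀ D : ℝ, 0 < D →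
  (∀ t, σ (t + D) = f (σ t)) → ∀ x : E n, ∃ t₀ : ℝ,
  2 * (Real.cosh (κ * gd g x (σ t₀)) - 1) * (Real.cosh (κ * D) - 1) ≤
    Real.cosh (κ * gd g x (f x)) - Real.cosh (κ * D)

/-- Elementary: `cosh κ(D + e) - cosh κD ≤ κ e sinh κ(D + e) ≤ κ e exp(κ C₁) exp(κ D)`,
`cosh κD - 1 ≥ c exp(κD)` for `D ≥ l0`, and `cosh κρ - 1 ≥ (κρ)^2 / 2`. -/
def StTubeN : Prop := ∀ κ l0 C₁ : ℝ, 0 < κ → 0 < l0 → 0 < C₁ → ∃ C : ℝ, 0 < C ∧
  ∀ D e ρ : ℝ, l0 ≤ D → 0 ≤ e → e ≤ C₁ → 0 ≤ ρ →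
  2 * (Real.cosh (κ * ρ) - 1) * (Real.cosh (κ * D) - 1) ≤
    Real.cosh (κ * (D + e)) - Real.cosh (κ * D) → ρ ≤ C * Real.sqrt e

/-- Two geodesics from one point (uses `StCvG`, `StStew`).  WLOG `κ = 1` in the notation.  Stewart for
`σ₃` at the point `s` (`a = s`, `b = S - s`) with `y = σ₁ s`, where `d(σ₁ s, σ₃ 0) = s`:
`sinh S cosh d(σ₁ s, σ₃ s) ≤ sinh (S - s) cosh s + sinh s cosh d(σ₁ s, σ₃ S)`; and for `σ₁` with
`y = σ₃ S`: `sinh S cosh d(σ₃ S, σ₁ s) ≤ sinh (S - s) cosh S + sinh s cosh B`, `B = d(σ₁ S, σ₃ S)`.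
Multiply the first by `sinh S` and insert: `sinh^2 S cosh d ≤ sinh (S - s) sinh (S + s) +
sinh^2 s cosh B` and `sinh (S - s) sinh (S + s) = sinh^2 S - sinh^2 s`. -/
def StIso : Prop := ∀ (n : ℕ) (g : Form n) (κ : ℝ), Cv g κ → ∀ σ₁ σ₃, UG g σ₁ → UG g σ₃ →
  σ₁ 0 = σ₃ 0 → ∀ s S : ℝ, 0 ≤ s → s ≤ S →
  Real.sinh (κ * S) ^ 2 * (Real.cosh (κ * gd g (σ₁ s) (σ₃ s)) - 1) ≤
    Real.sinh (κ * s) ^ 2 * (Real.cosh (κ * gd g (σ₁ S) (σ₃ S)) - 1)

/-- Exponential closeness (uses `StCvG`, `StUG`, `StIso`).  Let `A = σ (-R)`, `B = σ R`, `A' = τ s₁`,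
`B' = τ s₂`, `S = 2 R`, `S' = d(A, B') ∈ [2R - D, 2R + D]`, `S'' = s₂ - s₁ ∈ [2R - 2D, 2R + 2D]`
(`R` large, so all are positive).  Let `ρ` be the geodesic from `A` to `B'`, `ρ 0 = A`, `ρ S' = B'`.
(1) `StIso` for `u ↦ σ (u - R)` and `ρ`, with `S₀ = min S S'`: `d(σ(S₀ - R), ρ S₀) ≤ 2 D`
(triangle inequality), and at distance `R + s` from `A`, `|s| ≤ 1`:
`cosh (κ d(σ s, ρ (R + s))) - 1 ≤ (sinh κ(R + 1) / sinh κ(2R - D))^2 (cosh 2κD - 1) ≤
C exp(-2κR)`, so `d ≤ C exp(-κR)` (`cosh u - 1 ≥ u^2 / 2`).  (2) The same for the geodesics from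
`B'`: `u ↦ ρ (S' - u)` and `u ↦ τ (s₂ - u)` at distance `S' - R - s` from `B'`:
`d(ρ (R + s), τ (s₂ - S' + R + s)) ≤ C exp(-κR)`.  Take `t₁ = s₂ - S' + R`. -/
def StNear : Prop := ∀ κ D : ℝ, 0 < κ → 0 < D → ∃ C R0 : ℝ, 1 ≤ C ∧ 1 ≤ R0 ∧
  ∀ (n : ℕ) (g : Form n), Cv g κ → ∀ σ τ, UG g σ → UG g τ → ∀ R s₁ s₂ : ℝ, R0 ≤ R → s₁ ≤ s₂ →
  gd g (σ (-R)) (τ s₁) ≤ D → gd g (σ R) (τ s₂) ≤ D →
  ∃ t₁ : ℝ, ∀ s, |s| ≤ 1 → gd g (σ s) (τ (t₁ + s)) ≤ C * Real.exp (-(κ * R))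

/-- Existence of an axis of `f ≠ 1` (`G` acts cocompactly by isometries; `g` has no conjugate
points).  Let `φ, M` be the flow (`StFlow`), `lg` from the block ST (`STR.StLog`, hypothesis), and
`F y = dsp g lg f y = d(y, f y)^2 / 2` (`IsLog.dist`), smooth.  The infimum of `d(y, f y)` over `y` is
attained: let `y_j` be a minimising sequence, `b_j y_j ∈ K` (`K` compact, `G K = R^n`); the elements
`b_j f b_j⁻¹` move the point `b_j y_j ∈ K` by a bounded distance, so they are in a finite set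
(`StProp`, `proper`); pass to a constant subsequence `f' = b_j f b_j⁻¹` and to a limit `y'` of
`b_j y_j`; then `d(y', f' y') = inf`, and `y = b_1⁻¹ y'` is a minimum.  `F y > 0` as `f` acts freely.
So `fderiv F y = 0`, and `STR.StCrit`, `STR.StIter` (hypotheses) with `v = lg y (f y)`:
`ex_y ((s + 1) v) = f (ex_y (s v))` for all real `s` and `d(y, f^k y) = k d(y, f y)`.  Put
`ell = d(y, f y) = nrm g y v`, `c s = ex_y ((s / ell) v)`.  `min`: for every `x`, `r`: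
`r k ell = d(y, f^(r k) y) ≤ 2 d(x, y) + r d(x, f^k x)`; divide by `r` and let `r → ∞`. -/
def StAxis : Prop := ∀ (n : ℕ) (G : Type) [Group G] [MulAction G (E n)], Cocompact n G →
  ∀ g : Form n, Riem g → Inv G g → NoConj g → ∀ f : G, f ≠ 1 →
  ∃ (c : ℝ → E n) (ell : ℝ), Ax g (fun x => f • x) c ell

end Pool.Agent.LR
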