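import Mathlib
import Pool.Agent.Work.MP_13b5d9_gt.LR.StmtsB
import Pool.Agent.Work.MP_25cd3b_gt.NG.All

set_option autoImplicit false

/-!
# MP_13b5d9_gt, block LR, item CvG: complete metrics of negative curvature
-/

open MeasureTheory Set Filter Topology
open scoped ContDiff ENNReal

namespace Pool.Agent.LR

open Pool.Agent.MLS Pool.Agent.STR

namespace ICvG

theorem curv_zero {n : ℕ} {g : Form n} {κ : ℝ} (hc : CurvLe g κ) : CurvLe g 0 := by
  intro x u v
  have h1 := hc x u v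
  have h2 : 0 ≤ κ ^ 2 * Ar g x u v := mul_nonneg (sq_nonneg κ) (INgPt.ar_nonneg g x u v)
  have h3 : -(0 : ℝ) ^ 2 * Ar g x u v = 0 := by ring
  linarith

end ICvG

theorem pr_CvG (h : StGe) : StCvG := by
  intro n g κ hg
  obtain ⟨φ, M, hφ⟩ := hg.flow
  have hN : NoConj g := p_NgNoC n g hg.riem (ICvG.curv_zero hg.curv)
  exact ⟨hN, h n g φ M hg.riem hφ hN⟩

end Pool.Agent.LR
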