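import Pool.Agent.Work.MP_13b5d9_gt.LR.StmtsA

set_option autoImplicit false

/-!
# MP_13b5d9_gt, block LR, item F1: Fourier series with an explicit remainder
-/

open MeasureTheory Set Filter Topology
open scoped ContDiff ENNReal

namespace Pool.Agent.LR

namespace IF1

theorem norm_e (l : ℝ) (n : ℤ) (s : ℝ) :
    ‖Complex.exp (-(2 * Real.pi * Complex.I * n * s / l))‖ = 1 := by
  have h : (-(2 * Real.pi * Complex.I * n * s / l) : ℂ) =
      ((-(2 * Real.pi * n * s / l) : ℝ) : ℂ) * Complex.I := by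
    push_cast
    ring
  rw [h, Complex.norm_exp_ofReal_mul_I]

theorem cont_e (l : ℝ) (n : ℤ) :
    Continuous fun s : ℝ => Complex.exp (-(2 * Real.pi * Complex.I * n * s / l)) := by
  fun_prop

/-- integration by parts -/
theorem ibp {l : ℝ} (hl : 0 < l) {n : ℤ} (hn : n ≠ 0) {u : ℝ → ℂ} (hu : ContDiff ℝ 1 u)
    (hper : ∀ t, u (t + l) = u t) :
    (∫ s in (0 : ℝ)..l, Complex.exp (-(2 * Real.pi * Complex.I * n * s / l)) * u s) =
      (l / (2 * Real.pi * Complex.I * n)) *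
        ∫ s in (0 : ℝ)..l, Complex.exp (-(2 * Real.pi * Complex.I * n * s / l)) * deriv u s := by
  have hl' : (l : ℂ) ≠ 0 := by exact_mod_cast hl.ne'
  have hn' : (n : ℂ) ≠ 0 := by exact_mod_cast hn
  have hpi : (Real.pi : ℂ) ≠ 0 := by exact_mod_cast Real.pi_ne_zero
  have hI : Complex.I ≠ 0 := Complex.I_ne_zero
  have hd : Differentiable ℝ u := hu.differentiable (by norm_num)
  have hdc : Continuous (deriv u) := hu.continuous_deriv (by norm_num)
  set v : ℝ → ℂ := fun s =>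
    -(l / (2 * Real.pi * Complex.I * n)) * Complex.exp (-(2 * Real.pi * Complex.I * n * s / l))
    with hv
  have hv' : ∀ s : ℝ, HasDerivAt v (Complex.exp (-(2 * Real.pi * Complex.I * n * s / l))) s := by
    intro s
    have h1 : HasDerivAt (fun s : ℝ => (-(2 * Real.pi * Complex.I * n * s / l) : ℂ))
        (-(2 * Real.pi * Complex.I * n / l)) s := by
      have h2 : HasDerivAt (fun s : ℝ => ((s : ℂ))) 1 s := Complex.ofRealCLM.hasDerivAt
      have h3 := h2.const_mul (-(2 * Real.pi * Complex.I * n / l) : ℂ)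
      rw [mul_one] at h3
      refine h3.congr_of_eventuallyEq (Eventually.of_forall fun s => ?_)
      change (-(2 * Real.pi * Complex.I * n * s / l) : ℂ) =
        -(2 * Real.pi * Complex.I * n / l) * (s : ℂ)
      ring
    have h4 := (h1.cexp).const_mul (-(l / (2 * Real.pi * Complex.I * n)) : ℂ)
    have h5 : ((l : ℂ) / (2 * Real.pi * Complex.I * n)) * (2 * Real.pi * Complex.I * n / l) = 1 := by
      field_simp
    refine h4.congr_deriv ?_
    linear_combination (Complex.exp (-(2 * Real.pi * Complex.I * n * s / l))) * h5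
  have key := intervalIntegral.integral_mul_deriv_eq_deriv_mul (a := 0) (b := l) (u := u)
    (v := v) (u' := deriv u)
    (v' := fun s => Complex.exp (-(2 * Real.pi * Complex.I * n * s / l)))
    (fun x _ => (hd x).hasDerivAt) (fun x _ => hv' x)
    (hdc.intervalIntegrable _ _) ((cont_e l n).intervalIntegrable _ _)
  have h0 : u l = u 0 := by
    have := hper 0
    rwa [zero_add] at this
  have hvl : v l = v 0 := by
    rw [hv]
    change -(l / (2 * Real.pi * Complex.I * n)) *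
        Complex.exp (-(2 * Real.pi * Complex.I * n * l / l)) =
      -(l / (2 * Real.pi * Complex.I * n)) *
        Complex.exp (-(2 * Real.pi * Complex.I * n * ((0 : ℝ) : ℂ) / l))
    have e1 : (-(2 * Real.pi * Complex.I * n * l / l) : ℂ) =
        ((-n : ℤ) : ℂ) * (2 * Real.pi * Complex.I) := by
      push_cast
      field_simp
    have e2 : (-(2 * Real.pi * Complex.I * n * ((0 : ℝ) : ℂ) / l) : ℂ) = 0 := by
      simp
    rw [e1, e2, Complex.exp_int_mul_two_pi_mul_I, Complex.exp_zero]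
  rw [h0, hvl, sub_self, zero_sub] at key
  have e3 : (∫ s in (0 : ℝ)..l, Complex.exp (-(2 * Real.pi * Complex.I * n * s / l)) * u s) =
      ∫ s in (0 : ℝ)..l, u s * Complex.exp (-(2 * Real.pi * Complex.I * n * s / l)) := by
    refine intervalIntegral.integral_congr fun s _ => ?_
    exact mul_comm _ _
  rw [e3, key, ← intervalIntegral.integral_neg, ← intervalIntegral.integral_const_mul]
  refine intervalIntegral.integral_congr fun s _ => ?_
  change -(deriv u s * v s) = _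
  rw [hv]
  ring

/-- bound for the coefficients -/
theorem coef {l M : ℝ} (hl : 0 < l) {n : ℤ} (hn : n ≠ 0) {u : ℝ → ℂ} (hu : ContDiff ℝ 2 u)
    (hper : ∀ t, u (t + l) = u t) (hM : ∀ t, ‖deriv (deriv u) t‖ ≤ M) :
    ‖(1 / l : ℂ) * ∫ s in (0 : ℝ)..l,
      Complex.exp (-(2 * Real.pi * Complex.I * n * s / l)) * u s‖ ≤
      (l ^ 2 * M / 4) * ((n : ℝ) ^ 2)⁻¹ := by
  have hM0 : 0 ≤ M := (norm_nonneg _).trans (hM 0)
  have hu1 : ContDiff ℝ 1 u := hu.of_le (by norm_num)
  have hdu : ContDiff ℝ 1 (deriv u) := by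
    have h2 : ContDiff ℝ (1 + 1) u := by
      have : (1 + 1 : WithTop ℕ∞) = 2 := by norm_num
      rw [this]; exact hu
    exact ((contDiff_succ_iff_deriv).1 h2).2.2
  have hperd : ∀ t, deriv u (t + l) = deriv u t := by
    intro t
    have h1 : (fun s => u (s + l)) = u := funext hper
    have h2 : deriv (fun s => u (s + l)) t = deriv u (t + l) := deriv_comp_add_const u l t
    rw [← h2, h1]
  rw [ibp hl hn hu1 hper, ibp hl hn hdu hperd]
  have hlC : ‖(l : ℂ)‖ = l := by rw [Complex.norm_real, Real.norm_of_nonneg hl.le]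
  have hI : ‖∫ s in (0 : ℝ)..l,
      Complex.exp (-(2 * Real.pi * Complex.I * n * s / l)) * deriv (deriv u) s‖ ≤ M * l := by
    have h := intervalIntegral.norm_integral_le_of_norm_le_const (a := 0) (b := l) (C := M)
      (f := fun s => Complex.exp (-(2 * Real.pi * Complex.I * n * s / l)) * deriv (deriv u) s)
      (fun s _ => by
        rw [norm_mul, norm_e, one_mul]
        exact hM s)
    rwa [sub_zero, abs_of_pos hl] at h
  have hden : ‖(2 * Real.pi * Complex.I * n : ℂ)‖ = 2 * Real.pi * |(n : ℝ)| := by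
    rw [norm_mul, norm_mul, norm_mul, Complex.norm_I, Complex.norm_real,
      Real.norm_of_nonneg Real.pi_pos.le, Complex.norm_intCast]
    norm_num
  have hn1 : 0 < |(n : ℝ)| := abs_pos.2 (by exact_mod_cast hn)
  have hn2 : |(n : ℝ)| ^ 2 = (n : ℝ) ^ 2 := sq_abs _
  rw [norm_mul, norm_mul, norm_mul, norm_div, norm_div, hden, hlC, norm_one]
  have hpi : 1 ≤ Real.pi := by linarith [Real.pi_gt_three]
  calc 1 / l * (l / (2 * Real.pi * |(n : ℝ)|) * (l / (2 * Real.pi * |(n : ℝ)|) *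
        ‖∫ s in (0 : ℝ)..l,
          Complex.exp (-(2 * Real.pi * Complex.I * n * s / l)) * deriv (deriv u) s‖))
      ≤ 1 / l * (l / (2 * Real.pi * |(n : ℝ)|) * (l / (2 * Real.pi * |(n : ℝ)|) * (M * l))) := by
        gcongr
    _ = (l ^ 2 * M / 4) * ((n : ℝ) ^ 2)⁻¹ * (1 / Real.pi ^ 2) := by
        rw [← hn2]
        field_simp
        ring
    _ ≤ (l ^ 2 * M / 4) * ((n : ℝ) ^ 2)⁻¹ * 1 := by
        have h1 : 1 / Real.pi ^ 2 ≤ 1 := by
          rw [div_le_one (by positivity)]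
          nlinarith
        have h2 : 0 ≤ (l ^ 2 * M / 4) * ((n : ℝ) ^ 2)⁻¹ := by positivity
        exact mul_le_mul_of_nonneg_left h1 h2
    _ = _ := mul_one _

/-- the tail -/
theorem tail {g : ℤ → ℝ} {B : ℝ} (hB : 0 ≤ B) (h0 : ∀ n, 0 ≤ g n)
    (hg : ∀ n : ℤ, n ≠ 0 → g n ≤ B * ((n : ℝ) ^ 2)⁻¹) {J : ℕ} (hJ : 1 ≤ J) :
    ∀ N : ℕ, J ≤ N → ∑ n ∈ Finset.Icc (-(N : ℤ)) N, g n ≤
      ∑ n ∈ Finset.Icc (-(J : ℤ)) J, g n + 2 * B * ((J : ℝ)⁻¹ - (N : ℝ)⁻¹) := by
  intro N hN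
  induction N, hN using Nat.le_induction with
  | base => simp
  | succ N hN ih =>
    have hN1 : (1 : ℝ) ≤ N := by exact_mod_cast hJ.trans hN
    have hsub : Finset.Icc (-((N + 1 : ℕ) : ℤ)) ((N + 1 : ℕ) : ℤ) ⊆
        insert ((N + 1 : ℕ) : ℤ) (insert (-((N + 1 : ℕ) : ℤ)) (Finset.Icc (-(N : ℤ)) N)) := by
      intro x hx
      rw [Finset.mem_Icc] at hx
      rw [Finset.mem_insert, Finset.mem_insert, Finset.mem_Icc]
      push_cast at hx ⊢
      omega
    have h1 := Finset.sum_le_sum_of_subset_of_nonneg hsub (f := g) (fun i _ _ => h0 i)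
    have hm1 : ((N + 1 : ℕ) : ℤ) ∉ insert (-((N + 1 : ℕ) : ℤ)) (Finset.Icc (-(N : ℤ)) N) := by
      rw [Finset.mem_insert, Finset.mem_Icc]
      push_cast
      omega
    have hm2 : (-((N + 1 : ℕ) : ℤ)) ∉ Finset.Icc (-(N : ℤ)) N := by
      rw [Finset.mem_Icc]
      push_cast
      omega
    rw [Finset.sum_insert hm1, Finset.sum_insert hm2] at h1
    have h2 := hg ((N + 1 : ℕ) : ℤ) (by push_cast; omega)
    have h3 := hg (-((N + 1 : ℕ) : ℤ)) (by push_cast; omega)
    have e2 : (((N + 1 : ℕ) : ℤ) : ℝ) = (N : ℝ) + 1 := by push_cast; ring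
    have e3 : ((-((N + 1 : ℕ) : ℤ) : ℤ) : ℝ) = -((N : ℝ) + 1) := by push_cast; ring
    rw [e2] at h2
    rw [e3, neg_sq] at h3
    have h4 : (((N : ℝ) + 1) ^ 2)⁻¹ ≤ (N : ℝ)⁻¹ - ((N : ℝ) + 1)⁻¹ := by
      have e : (N : ℝ)⁻¹ - ((N : ℝ) + 1)⁻¹ = ((N : ℝ) * ((N : ℝ) + 1))⁻¹ := by
        field_simp
        ring
      rw [e]
      apply inv_anti₀ (by positivity)
      nlinarith
    have h5 : B * (((N : ℝ) + 1) ^ 2)⁻¹ ≤ B * ((N : ℝ)⁻¹ - ((N : ℝ) + 1)⁻¹) :=
      mul_le_mul_of_nonneg_left h4 hB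
    have e6 : (((N + 1 : ℕ) : ℝ))⁻¹ = ((N : ℝ) + 1)⁻¹ := by push_cast; ring
    rw [e6]
    linarith

end IF1

theorem pr_F1 : StF1 := by
  intro l M J u hl hJ hu hper hM t
  haveI : Fact (0 < l) := ⟨hl⟩
  have hM0 : 0 ≤ M := (norm_nonneg _).trans (hM 0)
  have hp : Function.Periodic u l := hper
  have hcont : Continuous (hp.lift : AddCircle l → ℂ) := by
    refine continuous_coinduced_dom.mpr ?_
    exact hu.continuous
  let f : C(AddCircle l, ℂ) := ⟨hp.lift, hcont⟩
  have hf : ∀ s : ℝ, f (s : AddCircle l) = u s := fun s => hp.lift_coe s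
  set g : ℤ → ℝ := fun n => ‖(1 / l : ℂ) * ∫ s in (0 : ℝ)..l,
      Complex.exp (-(2 * Real.pi * Complex.I * n * s / l)) * u s‖ with hg
  have hc : ∀ n : ℤ, ‖fourierCoeff f n‖ = g n := by
    intro n
    rw [fourierCoeff_eq_intervalIntegral f n 0, zero_add]
    have e : (∫ x in (0 : ℝ)..l, (fourier (-n) (x : AddCircle l)) • f (x : AddCircle l)) =
        ∫ s in (0 : ℝ)..l, Complex.exp (-(2 * Real.pi * Complex.I * n * s / l)) * u s := by
      refine intervalIntegral.integral_congr fun s _ => ?_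
      change (fourier (-n) (s : AddCircle l)) • f (s : AddCircle l) = _
      rw [hf, fourier_coe_apply, smul_eq_mul]
      congr 2
      push_cast
      ring
    change _ = ‖(1 / l : ℂ) * ∫ s in (0 : ℝ)..l,
      Complex.exp (-(2 * Real.pi * Complex.I * n * s / l)) * u s‖
    rw [e, norm_smul, norm_mul]
    congr 1
    rw [norm_div, norm_div, norm_one, norm_one, Complex.norm_real]
  have hB : 0 ≤ l ^ 2 * M / 4 := by positivity
  have h0 : ∀ n, 0 ≤ g n := fun n => norm_nonneg _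
  have hgb : ∀ n : ℤ, n ≠ 0 → g n ≤ (l ^ 2 * M / 4) * ((n : ℝ) ^ 2)⁻¹ :=
    fun n hn => IF1.coef hl hn hu hper hM
  set R : ℝ := ∑ n ∈ Finset.Icc (-(J : ℤ)) J, g n + 2 * (l ^ 2 * M / 4) * (J : ℝ)⁻¹ with hR
  have hfin : ∀ s : Finset ℤ, ∑ n ∈ s, g n ≤ R := by
    intro s
    obtain ⟨N, hN1, hN2⟩ : ∃ N : ℕ, J ≤ N ∧ s ⊆ Finset.Icc (-(N : ℤ)) N := by
      refine ⟨J + ∑ n ∈ s, n.natAbs, by omega, fun x hx => ?_⟩
      have h1 : x.natAbs ≤ ∑ n ∈ s, n.natAbs :=
        Finset.single_le_sum (f := fun n : ℤ => n.natAbs) (fun _ _ => Nat.zero_le _) hx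
      rw [Finset.mem_Icc]
      generalize (∑ n ∈ s, n.natAbs) = S at h1 ⊢
      omega
    have h1 := Finset.sum_le_sum_of_subset_of_nonneg hN2 (f := g) (fun i _ _ => h0 i)
    have h2 := IF1.tail hB h0 hgb hJ N hN1
    have h3 : 2 * (l ^ 2 * M / 4) * ((J : ℝ)⁻¹ - (N : ℝ)⁻¹) ≤ 2 * (l ^ 2 * M / 4) * (J : ℝ)⁻¹ := by
      apply mul_le_mul_of_nonneg_left _ (by positivity)
      have : 0 ≤ (N : ℝ)⁻¹ := by positivity
      linarith
    linarith
  have hsum : Summable g := summable_of_sum_le h0 hfin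
  have hsumC : Summable (fun n => ‖fourierCoeff f n‖) := by
    simpa only [hc] using hsum
  have hs := has_pointwise_sum_fourier_series_of_summable (f := f) hsumC.of_norm
    (t : AddCircle l)
  have hnorm : ∀ n : ℤ, ‖fourierCoeff f n • fourier n (t : AddCircle l)‖ = g n := by
    intro n
    rw [norm_smul, hc n]
    have : ‖fourier n (t : AddCircle l)‖ = 1 := by
      rw [fourier_apply]
      exact Circle.norm_coe _
    rw [this, mul_one]
  have h1 : ‖u t‖ ≤ ∑' n : ℤ, g n := by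
    rw [← hf t, ← hs.tsum_eq]
    refine (norm_tsum_le_tsum_norm ?_).trans ?_
    · simpa only [hnorm] using hsum
    · simp only [hnorm]
      exact le_rfl
  have h2 : ∑' n : ℤ, g n ≤ R := hsum.tsum_le_of_sum_le hfin
  refine (h1.trans h2).trans ?_
  rw [hR]
  have hJ0 : (0 : ℝ) < J := by exact_mod_cast hJ
  have h3 : 2 * (l ^ 2 * M / 4) * (J : ℝ)⁻¹ ≤ l ^ 2 * M / J := by
    rw [div_eq_mul_inv]
    apply mul_le_mul_of_nonneg_right _ (by positivity)
    have : 0 ≤ l ^ 2 * M := by positivity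
    linarith
  linarith

end Pool.Agent.LR
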