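import Pool.Agent.Work.MP_13b5d9_gt.LR.StmtsA

set_option autoImplicit false

/-!
# MP_13b5d9_gt, block LR, item Fou: the Fourier lemma
-/

open MeasureTheory Set Filter Topology
open scoped ContDiff ENNReal

namespace Pool.Agent.LR

namespace IFou

/-- character of period `l` -/
noncomputable def ch (l : ℝ) (k : ℤ) (t : ℝ) : ℂ :=
  Complex.exp (-(2 * Real.pi * Complex.I * k * t / l))

theorem ch_norm (l : ℝ) (k : ℤ) (t : ℝ) : ‖ch l k t‖ = 1 := by
  have h : -(2 * Real.pi * Complex.I * k * t / l : ℂ) =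
      ((-(2 * Real.pi * k * t / l) : ℝ) : ℂ) * Complex.I := by
    push_cast
    ring
  rw [ch, h, Complex.norm_exp_ofReal_mul_I]

theorem ch_cont (l : ℝ) (k : ℤ) : Continuous (ch l k) := by
  unfold ch
  fun_prop

theorem ch_add (l : ℝ) (k : ℤ) (s t : ℝ) : ch l k (s + t) = ch l k s * ch l k t := by
  rw [ch, ch, ch, ← Complex.exp_add]
  congr 1
  push_cast
  ring

theorem ch_self {l : ℝ} (hl : l ≠ 0) (k : ℤ) : ch l k l = 1 := by
  rw [ch, Complex.exp_eq_one_iff]
  refine ⟨-k, ?_⟩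
  have : (l : ℂ) ≠ 0 := by exact_mod_cast hl
  push_cast
  field_simp

theorem ch_per {l : ℝ} (hl : l ≠ 0) (k : ℤ) (t : ℝ) : ch l k (t + l) = ch l k t := by
  rw [ch_add, ch_self hl, mul_one]

theorem ch_zero (l : ℝ) (k : ℤ) : ch l k 0 = 1 := by
  simp [ch]

/-- `k`-th Fourier coefficient in the second variable -/
noncomputable def fk (l : ℝ) (G : ℝ → ℝ → ℝ) (k : ℤ) (S : ℝ) : ℂ :=
  (1 / l : ℂ) * ∫ s in (0 : ℝ)..l, ch l k s * (G S s : ℂ)

theorem fk_bound {l M : ℝ} (hl : 0 < l) {G : ℝ → ℝ → ℝ} (hG : ∀ S t, |G S t| ≤ M) (k : ℤ)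
    (S : ℝ) : ‖fk l G k S‖ ≤ M := by
  have h1 : ‖∫ s in (0 : ℝ)..l, ch l k s * (G S s : ℂ)‖ ≤ M * |l - 0| := by
    apply intervalIntegral.norm_integral_le_of_norm_le_const
    intro s _
    rw [norm_mul, ch_norm, one_mul, Complex.norm_real, Real.norm_eq_abs]
    exact hG S s
  rw [sub_zero, abs_of_pos hl] at h1
  rw [fk, norm_mul, norm_div, norm_one, Complex.norm_real, Real.norm_eq_abs, abs_of_pos hl]
  calc 1 / l * ‖∫ s in (0 : ℝ)..l, ch l k s * (G S s : ℂ)‖ ≤ 1 / l * (M * l) := by gcongr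
    _ = M := by field_simp

theorem fk_deriv {l M : ℝ} {G G' : ℝ → ℝ → ℝ}
    (hc : Continuous fun q : ℝ × ℝ => G q.1 q.2) (hc' : Continuous fun q : ℝ × ℝ => G' q.1 q.2)
    (hG : ∀ S t, HasDerivAt (fun S => G S t) (G' S t) S) (hM : ∀ S t, |G' S t| ≤ M) (k : ℤ)
    (S : ℝ) : HasDerivAt (fk l G k) (fk l G' k S) S := by
  have hsl : ∀ {g : ℝ → ℝ → ℝ}, (Continuous fun q : ℝ × ℝ => g q.1 q.2) → ∀ S : ℝ,
      Continuous fun s => ch l k s * (g S s : ℂ) := by
    intro g hg S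
    refine (ch_cont l k).mul (Complex.continuous_ofReal.comp ?_)
    exact hg.comp (by fun_prop : Continuous fun s : ℝ => ((S, s) : ℝ × ℝ))
  have h := (intervalIntegral.hasDerivAt_integral_of_dominated_loc_of_deriv_le
    (F := fun S s => ch l k s * (G S s : ℂ)) (F' := fun S s => ch l k s * (G' S s : ℂ))
    (x₀ := S) (s := univ) (a := 0) (b := l) (μ := volume) (bound := fun _ => M) univ_mem
    (Eventually.of_forall fun x => (hsl hc x).aestronglyMeasurable)
    ((hsl hc S).intervalIntegrable _ _) (hsl hc' S).aestronglyMeasurable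
    (Eventually.of_forall fun s _ x _ => by
      rw [norm_mul, ch_norm, one_mul, Complex.norm_real, Real.norm_eq_abs]
      exact hM x s)
    intervalIntegrable_const
    (Eventually.of_forall fun s _ x _ => (hG x s).ofReal_comp.const_mul _)).2
  exact h.const_mul _

theorem c2 {F F1 F2 : ℝ → ℂ} (h1 : ∀ x, HasDerivAt F (F1 x) x) (h2 : ∀ x, HasDerivAt F1 (F2 x) x)
    (h3 : Continuous F2) : ContDiff ℝ 2 F ∧ ∀ x, deriv (deriv F) x = F2 x := by
  have e1 : deriv F = F1 := funext fun x => (h1 x).deriv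
  have e2 : deriv F1 = F2 := funext fun x => (h2 x).deriv
  refine ⟨?_, fun x => by rw [e1, e2]⟩
  have h4 : ContDiff ℝ 1 F1 := by
    rw [contDiff_one_iff_deriv]
    exact ⟨fun x => (h2 x).differentiableAt, by rw [e2]; exact h3⟩
  have h5 : (2 : WithTop ℕ∞) = 1 + 1 := by norm_num
  rw [h5, contDiff_succ_iff_deriv]
  refine ⟨fun x => (h1 x).differentiableAt, by simp, by rw [e1]; exact h4⟩

/-- partial derivatives in the direction `v` -/
theorem partials {H : ℝ → ℝ → ℝ} {M : ℝ} (hH : ContDiff ℝ 2 (fun q : ℝ × ℝ => H q.1 q.2))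
    (hb : ∀ q, ∀ i ≤ 2, ‖iteratedFDeriv ℝ i (fun q : ℝ × ℝ => H q.1 q.2) q‖ ≤ M)
    (v : ℝ × ℝ) (hv : ‖v‖ ≤ 1) : ∃ A B : ℝ → ℝ → ℝ,
    (Continuous fun q : ℝ × ℝ => A q.1 q.2) ∧ (Continuous fun q : ℝ × ℝ => B q.1 q.2) ∧
    (∀ S t, |A S t| ≤ M) ∧ (∀ S t, |B S t| ≤ M) ∧
    (∀ (c : ℝ → ℝ × ℝ) (r : ℝ), HasDerivAt c v r →
      HasDerivAt (fun r => H (c r).1 (c r).2) (A (c r).1 (c r).2) r) ∧
    ∀ (c : ℝ → ℝ × ℝ) (r : ℝ), HasDerivAt c v r →
      HasDerivAt (fun r => A (c r).1 (c r).2) (B (c r).1 (c r).2) r := by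
  set U : ℝ × ℝ → ℝ := fun q => H q.1 q.2 with hU
  have h5 : (2 : WithTop ℕ∞) = 1 + 1 := by norm_num
  have hU1 : ContDiff ℝ 1 (fderiv ℝ U) := hH.fderiv_right (by rw [h5])
  have hU0 : Continuous (fderiv ℝ (fderiv ℝ U)) := hU1.continuous_fderiv (by norm_num)
  have hd : Differentiable ℝ U := hH.differentiable (by norm_num)
  have hd1 : Differentiable ℝ (fderiv ℝ U) := hU1.differentiable (by norm_num)
  have n1 : ∀ q, ‖fderiv ℝ U q‖ ≤ M := by
    intro q
    rw [← norm_iteratedFDeriv_one]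
    exact hb q 1 (by norm_num)
  have n2 : ∀ q, ‖fderiv ℝ (fderiv ℝ U) q‖ ≤ M := by
    intro q
    rw [← norm_iteratedFDeriv_one, norm_iteratedFDeriv_fderiv]
    exact hb q 2 le_rfl
  have hM : 0 ≤ M := (norm_nonneg _).trans (n1 0)
  refine ⟨fun S t => fderiv ℝ U (S, t) v, fun S t => fderiv ℝ (fderiv ℝ U) (S, t) v v,
    ?_, ?_, ?_, ?_, ?_, ?_⟩
  · exact hU1.continuous.clm_apply continuous_const
  · exact (hU0.clm_apply continuous_const).clm_apply continuous_const
  · intro S t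
    have h1 := (fderiv ℝ U (S, t)).le_opNorm v
    rw [Real.norm_eq_abs] at h1
    calc |fderiv ℝ U (S, t) v| ≤ ‖fderiv ℝ U (S, t)‖ * ‖v‖ := h1
      _ ≤ M * 1 := by
          gcongr
          exact n1 _
      _ = M := mul_one M
  · intro S t
    have h1 := (fderiv ℝ (fderiv ℝ U) (S, t) v).le_opNorm v
    have h2 := (fderiv ℝ (fderiv ℝ U) (S, t)).le_opNorm v
    rw [Real.norm_eq_abs] at h1
    calc |fderiv ℝ (fderiv ℝ U) (S, t) v v| ≤ ‖fderiv ℝ (fderiv ℝ U) (S, t) v‖ * ‖v‖ := h1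
      _ ≤ (‖fderiv ℝ (fderiv ℝ U) (S, t)‖ * ‖v‖) * ‖v‖ := by gcongr
      _ ≤ (M * 1) * 1 := by
          gcongr
          exact n2 _
      _ = M := by ring
  · intro c r hc
    exact (hd (c r)).hasFDerivAt.comp_hasDerivAt r hc
  · intro c r hc
    have h1 : HasDerivAt (fun r => fderiv ℝ U (c r)) (fderiv ℝ (fderiv ℝ U) (c r) v) r :=
      (hd1 (c r)).hasFDerivAt.comp_hasDerivAt r hc
    exact (h1.clm_apply (hasDerivAt_const r v)).congr_deriv (by simp)

/-- the coefficient is quasiperiodic -/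
theorem fk_shift {l ell a : ℝ} (hl : l ≠ 0) {G : ℝ → ℝ → ℝ}
    (hG : ∀ S t, G S (t + l) = G S t) (hG2 : ∀ S t, G (S + ell) (t + a) = G S t) (k : ℤ)
    (S : ℝ) : fk l G k (S + ell) = ch l k a * fk l G k S := by
  have hper : Function.Periodic (fun s => ch l k s * (G S s : ℂ)) l := by
    intro s
    simp only [ch_per hl, hG]
  have h1 : ∀ s, ch l k s * (G (S + ell) s : ℂ) =
      ch l k a * (fun s => ch l k s * (G S s : ℂ)) (s - a) := by
    intro s
    have h2 : G (S + ell) s = G S (s - a) := by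
      rw [← hG2 S (s - a), sub_add_cancel]
    have h3 : ch l k s = ch l k a * ch l k (s - a) := by
      rw [← ch_add, add_sub_cancel]
    simp only
    rw [h2, h3]
    ring
  have h4 : ∫ s in (0 : ℝ)..l, ch l k s * (G (S + ell) s : ℂ) =
      ch l k a * ∫ s in (0 : ℝ)..l, ch l k s * (G S s : ℂ) := by
    rw [intervalIntegral.integral_congr fun s _ => h1 s, intervalIntegral.integral_const_mul,
      intervalIntegral.integral_comp_sub_right (fun s => ch l k s * (G S s : ℂ))]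
    congr 1
    have h5 := hper.intervalIntegral_add_eq (0 - a) 0
    rw [zero_add] at h5
    rw [← h5]
    congr 1
    ring
  rw [fk, fk, h4]
  ring

/-- integrals over lines -/
theorem line {l β D : ℝ} (hl : l ≠ 0) {G : ℝ → ℝ → ℝ} (hc : Continuous fun q : ℝ × ℝ => G q.1 q.2)
    (hG : ∀ S t, G S (t + l) = G S t) (k : ℤ) :
    (1 / l : ℂ) * ∫ θ in (0 : ℝ)..l, ch l k θ *
        ((∫ S in (0 : ℝ)..D, G S (θ + β * S) : ℝ) : ℂ) =
      ∫ S in (0 : ℝ)..D, ch l k (-(β * S)) * fk l G k S := by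
  have hcont : Continuous fun q : ℝ × ℝ => ch l k q.1 * ((G q.2 (q.1 + β * q.2) : ℝ) : ℂ) := by
    refine ((ch_cont l k).comp continuous_fst).mul (Complex.continuous_ofReal.comp ?_)
    exact hc.comp (by fun_prop : Continuous fun q : ℝ × ℝ => ((q.2, q.1 + β * q.2) : ℝ × ℝ))
  have h1 : ∫ θ in (0 : ℝ)..l, ch l k θ * ((∫ S in (0 : ℝ)..D, G S (θ + β * S) : ℝ) : ℂ) =
      ∫ θ in (0 : ℝ)..l, ∫ S in (0 : ℝ)..D, ch l k θ * ((G S (θ + β * S) : ℝ) : ℂ) := by
    refine intervalIntegral.integral_congr fun θ _ => ?_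
    rw [intervalIntegral.integral_const_mul, intervalIntegral.integral_ofReal]
  rw [h1, intervalIntegral_intervalIntegral_swap]
  · rw [← intervalIntegral.integral_const_mul]
    refine intervalIntegral.integral_congr fun S _ => ?_
    have hper : Function.Periodic (fun s => ch l k s * (G S s : ℂ)) l := by
      intro s
      simp only [ch_per hl, hG]
    have h2 : ∀ θ, ch l k θ * ((G S (θ + β * S) : ℝ) : ℂ) =
        ch l k (-(β * S)) * (fun s => ch l k s * (G S s : ℂ)) (θ + β * S) := by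
      intro θ
      have h3 : ch l k θ = ch l k (-(β * S)) * ch l k (θ + β * S) := by
        rw [← ch_add]
        congr 1
        ring
      simp only
      rw [h3]
      ring
    rw [intervalIntegral.integral_congr fun θ _ => h2 θ, intervalIntegral.integral_const_mul,
      intervalIntegral.integral_comp_add_right (fun s => ch l k s * (G S s : ℂ))]
    have h5 := hper.intervalIntegral_add_eq (0 + β * S) 0
    rw [zero_add l] at h5
    have h6 : l + β * S = 0 + β * S + l := by ring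
    rw [h6, h5, fk]
    ring
  · have h7 : IntegrableOn (fun q : ℝ × ℝ => ch l k q.1 * ((G q.2 (q.1 + β * q.2) : ℝ) : ℂ))
        (uIcc 0 l ×ˢ uIcc 0 D) :=
      hcont.continuousOn.integrableOn_compact (isCompact_uIcc.prod isCompact_uIcc)
    exact h7.mono_set (Set.prod_mono uIoc_subset_uIcc uIoc_subset_uIcc)

theorem ch_deriv (l : ℝ) (k : ℤ) (b S : ℝ) : HasDerivAt (fun S : ℝ => ch l k (b * S))
    (-(2 * Real.pi * Complex.I * k * b / l) * ch l k (b * S)) S := by
  have h1 : HasDerivAt (fun S : ℝ => -(2 * Real.pi * Complex.I * k * ((b * S : ℝ) : ℂ) / l))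
      (-(2 * Real.pi * Complex.I * k * b / l)) S := by
    have h2 : HasDerivAt (fun S : ℝ => ((b * S : ℝ) : ℂ)) (b : ℂ) S := by
      have h3 : HasDerivAt (fun S : ℝ => b * S) b S := by
        simpa using (hasDerivAt_id S).const_mul b
      exact h3.ofReal_comp
    have h4 := (h2.const_mul (-(2 * Real.pi * Complex.I * k / l) : ℂ))
    refine (h4.congr_deriv ?_).congr_of_eventuallyEq (Eventually.of_forall fun x => ?_)
    · ring
    · simp only
      ring
  refine h1.cexp.congr_deriv ?_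
  rw [ch]
  ring

/-- the periodic function -/
noncomputable def ph (l ell a : ℝ) (G : ℝ → ℝ → ℝ) (k : ℤ) (S : ℝ) : ℂ :=
  ch l k (-(a / ell) * S) * fk l G k S

theorem ph_per {l ell a : ℝ} (hl : l ≠ 0) (he : ell ≠ 0) {G : ℝ → ℝ → ℝ}
    (hG : ∀ S t, G S (t + l) = G S t) (hG2 : ∀ S t, G (S + ell) (t + a) = G S t) (k : ℤ)
    (S : ℝ) : ph l ell a G k (S + ell) = ph l ell a G k S := by
  have h1 : ch l k (-(a / ell) * (S + ell)) * ch l k a = ch l k (-(a / ell) * S) := by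
    rw [← ch_add]
    congr 1
    field_simp
    ring
  rw [ph, ph, fk_shift hl hG hG2, ← mul_assoc, h1]

/-- the Fourier coefficients of `ph` are integrals over closed lines -/
theorem coeff {l ell a ε L : ℝ} {J : ℕ} {H : ℝ → ℝ → ℝ} (hL : 1 ≤ L) (hl : 0 < l) (he : 0 < ell)
    (hLe : 1 ≤ L * ell)
    (hc : Continuous fun q : ℝ × ℝ => H q.1 q.2)
    (hA : ∀ k, Continuous (fk l H k)) (hG : ∀ S t, H S (t + l) = H S t)
    (hG2 : ∀ S t, H (S + ell) (t + a) = H S t)
    (hX : ∀ (k : ℕ) (j : ℤ) (θ : ℝ), 1 ≤ k → k ≤ J → |j| ≤ (J : ℤ) ^ 4 →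
      |∫ S in (0 : ℝ)..(k * ell), H S (θ + (k * a + j * l) / (k * ell) * S)| ≤ ε)
    (κ : ℤ) (hκ : κ ≠ 0) (hκJ : |κ| ≤ J) (n : ℤ) (hn : |n| ≤ (J : ℤ) ^ 4) :
    ‖(1 / ell : ℂ) * ∫ S in (0 : ℝ)..ell, ch ell n S * ph l ell a H κ S‖ ≤ L * ε := by
  set k : ℕ := κ.natAbs with hk
  have hk1 : 1 ≤ k := Int.natAbs_pos.2 hκ
  have hkJ : k ≤ J := by
    have : (k : ℤ) ≤ J := by
      rw [hk, Int.natCast_natAbs]
      exact hκJ
    exact_mod_cast this
  have hk0 : (0 : ℝ) < k := by exact_mod_cast hk1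
  set j : ℤ := -(κ.sign * n) with hj
  have hj1 : |j| ≤ (J : ℤ) ^ 4 := by
    rw [hj, abs_neg, abs_mul, Int.abs_sign_of_ne_zero hκ, one_mul]
    exact hn
  have hkκ : (κ : ℝ) * j = -(k * n) := by
    have h1 : κ * j = -((k : ℤ) * n) := by
      have h2 : κ * κ.sign = (k : ℤ) := by
        rw [mul_comm, Int.sign_mul_self_eq_abs, hk, Int.natCast_natAbs]
      rw [hj, ← h2]
      ring
    exact_mod_cast h1
  set β : ℝ := (k * a + j * l) / (k * ell) with hβ
  have hch : ∀ S, ch l κ (-(β * S)) = ch ell n S * ch l κ (-(a / ell) * S) := by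
    intro S
    rw [ch, ch, ch, ← Complex.exp_add]
    congr 1
    have h1 : (κ : ℝ) * β / l = κ * (a / ell) / l - n / ell := by
      rw [hβ]
      field_simp
      linear_combination l * hkκ
    have h2 : (κ : ℂ) * β / l = κ * (a / ell) / l - n / ell := by exact_mod_cast h1
    push_cast
    linear_combination (2 * Real.pi * Complex.I * S : ℂ) * h2
  have hline := line (l := l) (β := β) (D := k * ell) hl.ne' hc hG κ
  have hbound : ‖(1 / l : ℂ) * ∫ θ in (0 : ℝ)..l, ch l κ θ *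
      ((∫ S in (0 : ℝ)..(k * ell), H S (θ + β * S) : ℝ) : ℂ)‖ ≤ ε := by
    have h1 : ‖∫ θ in (0 : ℝ)..l, ch l κ θ *
        ((∫ S in (0 : ℝ)..(k * ell), H S (θ + β * S) : ℝ) : ℂ)‖ ≤ ε * |l - 0| := by
      apply intervalIntegral.norm_integral_le_of_norm_le_const
      intro θ _
      rw [norm_mul, ch_norm, one_mul, Complex.norm_real, Real.norm_eq_abs]
      exact hX k j θ hk1 hkJ hj1
    rw [sub_zero, abs_of_pos hl] at h1
    rw [norm_mul, norm_div, norm_one, Complex.norm_real, Real.norm_eq_abs, abs_of_pos hl]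
    calc 1 / l * _ ≤ 1 / l * (ε * l) := by gcongr
      _ = ε := by field_simp
  rw [hline] at hbound
  have hper : Function.Periodic (fun S => ch ell n S * ph l ell a H κ S) ell := by
    intro S
    simp only [ch_per he.ne', ph_per hl.ne' he.ne' hG hG2]
  have hcont : Continuous fun S => ch ell n S * ph l ell a H κ S := by
    refine (ch_cont ell n).mul ?_
    exact ((ch_cont l κ).comp (continuous_const.mul continuous_id)).mul (hA κ)
  have h2 : ∫ S in (0 : ℝ)..(k * ell), ch l κ (-(β * S)) * fk l H κ S =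
      (k : ℂ) * ∫ S in (0 : ℝ)..ell, ch ell n S * ph l ell a H κ S := by
    have h3 := hper.intervalIntegral_add_zsmul_eq (k : ℤ) 0
      (fun t₁ t₂ => hcont.intervalIntegrable t₁ t₂)
    simp only [zero_add, zsmul_eq_mul, Int.cast_natCast] at h3
    rw [← h3]
    refine intervalIntegral.integral_congr fun S _ => ?_
    rw [hch, ph]
    ring
  rw [h2, norm_mul, Complex.norm_natCast] at hbound
  rw [norm_mul, norm_div, norm_one, Complex.norm_real, Real.norm_eq_abs, abs_of_pos he]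
  have h4 : ‖∫ S in (0 : ℝ)..ell, ch ell n S * ph l ell a H κ S‖ ≤ ε := by
    have h5 : (1 : ℝ) ≤ k := by exact_mod_cast hk1
    calc ‖∫ S in (0 : ℝ)..ell, ch ell n S * ph l ell a H κ S‖
        = 1 * ‖∫ S in (0 : ℝ)..ell, ch ell n S * ph l ell a H κ S‖ := (one_mul _).symm
      _ ≤ k * ‖∫ S in (0 : ℝ)..ell, ch ell n S * ph l ell a H κ S‖ := by gcongr
      _ ≤ ε := hbound
  have h6 : 1 / ell ≤ L := by
    rw [div_le_iff₀ he]
    exact hLe
  gcongr

end IFou

open IFou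

theorem pr_Fou (h : StF1) : StFou := by
  intro L hL
  set C₁ : ℝ := (1 + 2 * Real.pi * L ^ 3) ^ 2 with hC₁
  have hL0 : 0 < L := by linarith
  have hC₁0 : 0 ≤ C₁ := sq_nonneg _
  refine ⟨9 * L + 3 * C₁ + L ^ 2, by positivity, ?_⟩
  intro l ell a M ε J H hLl hlL hLe haL hM hε hJ hH hG hG2 hmean hb hX S t
  have hl : 0 < l := by
    by_contra hcon
    have : L * l ≤ 0 := mul_nonpos_of_nonneg_of_nonpos hL0.le (not_lt.1 hcon)
    linarith
  have he : 0 < ell := by
    by_contra hcon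
    have : L * ell ≤ 0 := mul_nonpos_of_nonneg_of_nonpos hL0.le (not_lt.1 hcon)
    linarith
  have hJ1 : (1 : ℝ) ≤ J := by exact_mod_cast hJ
  have hJ0 : (0 : ℝ) < J := by linarith
  have hc : Continuous fun q : ℝ × ℝ => H q.1 q.2 := hH.continuous
  have hn1 : ‖((1, 0) : ℝ × ℝ)‖ ≤ 1 := by simp [Prod.norm_def]
  have hn2 : ‖((0, 1) : ℝ × ℝ)‖ ≤ 1 := by simp [Prod.norm_def]
  have hH0 : ∀ S t, |H S t| ≤ M := by
    intro S t
    have := hb (S, t) 0 (by norm_num)
    rwa [norm_iteratedFDeriv_zero, Real.norm_eq_abs] at this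
  obtain ⟨A, B, hAc, hBc, hAM, hBM, hdA, hdB⟩ := partials hH hb (1, 0) hn1
  obtain ⟨A', B', -, hBc', -, hBM', hdA', hdB'⟩ := partials hH hb (0, 1) hn2
  have hcv : ∀ (t r : ℝ), HasDerivAt (fun S : ℝ => ((S, t) : ℝ × ℝ)) (1, 0) r := fun t r =>
    (hasDerivAt_id r).prodMk (hasDerivAt_const r t)
  have hcv' : ∀ (S r : ℝ), HasDerivAt (fun t : ℝ => ((S, t) : ℝ × ℝ)) (0, 1) r := fun S r =>
    (hasDerivAt_const r S).prodMk (hasDerivAt_id r)
  -- Fourier coefficients in the second variable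
  have hF : ∀ k S, HasDerivAt (fk l H k) (fk l A k S) S := fun k S =>
    fk_deriv hc hAc (fun S t => hdA _ S (hcv t S)) hAM k S
  have hF1 : ∀ k S, HasDerivAt (fk l A k) (fk l B k S) S := fun k S =>
    fk_deriv hAc hBc (fun S t => hdB _ S (hcv t S)) hBM k S
  have hFc : ∀ k, Continuous (fk l H k) := fun k =>
    continuous_iff_continuousAt.2 fun S => (hF k S).continuousAt
  have hF1c : ∀ k, Continuous (fk l A k) := fun k =>
    continuous_iff_continuousAt.2 fun S => (hF1 k S).continuousAt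
  have hF2c : ∀ k, Continuous (fk l B k) := by
    intro k
    have h1 : Continuous fun q : ℝ × ℝ => ch l k q.2 * (B q.1 q.2 : ℂ) :=
      ((ch_cont l k).comp continuous_snd).mul (Complex.continuous_ofReal.comp hBc)
    exact continuous_const.mul
      (intervalIntegral.continuous_parametric_intervalIntegral_of_continuous' h1 0 l)
  -- the bound for a coefficient
  have hcoef : ∀ κ : ℤ, |κ| ≤ J → ∀ S, ‖fk l H κ S‖ ≤
      3 * (J : ℝ) ^ 4 * (L * ε) + ell ^ 2 * C₁ * M / (J : ℝ) ^ 2 := by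
    intro κ hκJ S
    rcases eq_or_ne κ 0 with hκ | hκ
    · have h1 : fk l H κ S = 0 := by
        rw [fk, hκ]
        have h2 : ∀ s, ch l 0 s * (H S s : ℂ) = ((H S s : ℝ) : ℂ) := by
          intro s
          simp [ch]
        rw [intervalIntegral.integral_congr fun s _ => h2 s, intervalIntegral.integral_ofReal,
          hmean S]
        simp
      rw [h1, norm_zero]
      positivity
    set b : ℝ := -(a / ell) with hb_def
    set c : ℂ := -(2 * Real.pi * Complex.I * κ * b / l) with hc_def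
    have hch1 : ∀ S, HasDerivAt (fun S : ℝ => ch l κ (b * S)) (c * ch l κ (b * S)) S :=
      fun S => ch_deriv l κ b S
    have hΦ1 : ∀ S, HasDerivAt (ph l ell a H κ)
        (c * ch l κ (b * S) * fk l H κ S + ch l κ (b * S) * fk l A κ S) S := fun S =>
      (hch1 S).mul (hF κ S)
    have hΦ2 : ∀ S, HasDerivAt
        (fun S => c * ch l κ (b * S) * fk l H κ S + ch l κ (b * S) * fk l A κ S)
        (c ^ 2 * ch l κ (b * S) * fk l H κ S + 2 * c * ch l κ (b * S) * fk l A κ S +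
          ch l κ (b * S) * fk l B κ S) S := by
      intro S
      refine ((((hch1 S).const_mul c).mul (hF κ S)).add ((hch1 S).mul (hF1 κ S))).congr_deriv ?_
      ring
    have hchc : Continuous fun S : ℝ => ch l κ (b * S) :=
      (ch_cont l κ).comp (continuous_const.mul continuous_id)
    have hΦ3 : Continuous (fun S => c ^ 2 * ch l κ (b * S) * fk l H κ S +
        2 * c * ch l κ (b * S) * fk l A κ S + ch l κ (b * S) * fk l B κ S) :=
      (((continuous_const.mul hchc).mul (hFc κ)).add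
        ((continuous_const.mul hchc).mul (hF1c κ))).add (hchc.mul (hF2c κ))
    obtain ⟨hC2, hdd⟩ := c2 hΦ1 hΦ2 hΦ3
    have hcn : ‖c‖ ≤ 2 * Real.pi * L ^ 3 * J := by
      have h1 : ‖c‖ = 2 * Real.pi * |(κ : ℝ)| * (|a| / ell) / l := by
        rw [hc_def, hb_def]
        simp only [norm_neg, norm_div, norm_mul, Complex.norm_I, mul_one, Complex.norm_real,
          Real.norm_eq_abs, Complex.norm_intCast, Complex.norm_ofNat]
        rw [abs_of_pos he, abs_of_pos hl, abs_of_pos Real.pi_pos]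
      rw [h1]
      have h2 : |(κ : ℝ)| ≤ J := by exact_mod_cast hκJ
      have h3 : |a| / ell ≤ L ^ 2 := by
        rw [div_le_iff₀ he]
        calc |a| ≤ L := haL
          _ = L * 1 := (mul_one L).symm
          _ ≤ L * (L * ell) := by gcongr
          _ = L ^ 2 * ell := by ring
      have h4 : 1 / l ≤ L := by
        rw [div_le_iff₀ hl]
        exact hLl
      calc 2 * Real.pi * |(κ : ℝ)| * (|a| / ell) / l
          = 2 * Real.pi * |(κ : ℝ)| * (|a| / ell) * (1 / l) := by ring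
        _ ≤ 2 * Real.pi * J * (L ^ 2) * L := by gcongr
        _ = _ := by ring
    have hMb : ∀ S, ‖deriv (deriv (ph l ell a H κ)) S‖ ≤ C₁ * (J : ℝ) ^ 2 * M := by
      intro S
      rw [hdd]
      have h0 := fk_bound hl hH0 κ S
      have h1 := fk_bound hl hAM κ S
      have h2 := fk_bound hl hBM κ S
      have e1 : ‖c ^ 2 * ch l κ (b * S) * fk l H κ S‖ ≤ ‖c‖ ^ 2 * M := by
        rw [norm_mul, norm_mul, ch_norm, mul_one, norm_pow]
        gcongr
      have e2 : ‖2 * c * ch l κ (b * S) * fk l A κ S‖ ≤ 2 * ‖c‖ * M := by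
        rw [norm_mul, norm_mul, norm_mul, ch_norm, mul_one, Complex.norm_ofNat]
        gcongr
      have e3 : ‖ch l κ (b * S) * fk l B κ S‖ ≤ M := by
        rw [norm_mul, ch_norm, one_mul]
        exact h2
      have e4 := norm_add₃_le (a := c ^ 2 * ch l κ (b * S) * fk l H κ S)
        (b := 2 * c * ch l κ (b * S) * fk l A κ S) (c := ch l κ (b * S) * fk l B κ S)
      calc _ ≤ (1 + ‖c‖) ^ 2 * M := by nlinarith
        _ ≤ (1 * J + 2 * Real.pi * L ^ 3 * J) ^ 2 * M := by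
            gcongr
            linarith
        _ = C₁ * (J : ℝ) ^ 2 * M := by
            rw [hC₁]
            ring
    have hst := h ell (C₁ * (J : ℝ) ^ 2 * M) (J ^ 4) (ph l ell a H κ) he
      (Nat.one_le_pow _ _ hJ) hC2 (ph_per hl.ne' he.ne' hG hG2 κ) hMb S
    have hnorm : ‖ph l ell a H κ S‖ = ‖fk l H κ S‖ := by
      rw [ph, norm_mul, ch_norm, one_mul]
    rw [hnorm] at hst
    refine hst.trans (add_le_add ?_ ?_)
    · have h1 : ∀ n ∈ Finset.Icc (-((J ^ 4 : ℕ) : ℤ)) ((J ^ 4 : ℕ) : ℤ),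
          ‖(1 / ell : ℂ) * ∫ s in (0 : ℝ)..ell,
            Complex.exp (-(2 * Real.pi * Complex.I * n * s / ell)) * ph l ell a H κ s‖ ≤
          L * ε := by
        intro n hn
        rw [Finset.mem_Icc] at hn
        refine coeff hL hl he hLe hc hFc hG hG2 hX κ hκ hκJ n ?_
        rw [abs_le]
        have e : ((J ^ 4 : ℕ) : ℤ) = (J : ℤ) ^ 4 := by push_cast; rfl
        rw [e] at hn
        exact hn
      refine (Finset.sum_le_sum h1).trans ?_
      rw [Finset.sum_const, nsmul_eq_mul, Int.card_Icc]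
      have h2 : ((((J ^ 4 : ℕ) : ℤ) + 1 - -((J ^ 4 : ℕ) : ℤ)).toNat : ℝ) =
          2 * (J : ℝ) ^ 4 + 1 := by
        have e : (((J ^ 4 : ℕ) : ℤ) + 1 - -((J ^ 4 : ℕ) : ℤ)).toNat = 2 * J ^ 4 + 1 := by omega
        rw [e]
        push_cast
        ring
      rw [h2]
      have h3 : (1 : ℝ) ≤ (J : ℝ) ^ 4 := one_le_pow₀ hJ1
      have h4 : 0 ≤ L * ε := by positivity
      calc (2 * (J : ℝ) ^ 4 + 1) * (L * ε) ≤ (2 * (J : ℝ) ^ 4 + (J : ℝ) ^ 4) * (L * ε) := by
            gcongr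
        _ = _ := by ring
    · apply le_of_eq
      push_cast
      field_simp
  -- the Fourier series in the second variable
  have hut : ContDiff ℝ 2 (fun s : ℝ => ((H S s : ℝ) : ℂ)) ∧
      ∀ s, deriv (deriv fun s : ℝ => ((H S s : ℝ) : ℂ)) s = (B' S s : ℂ) := by
    refine c2 (F := fun s : ℝ => ((H S s : ℝ) : ℂ)) (F1 := fun s => (A' S s : ℂ))
      (F2 := fun s => (B' S s : ℂ)) ?_ ?_ ?_
    · intro s
      exact (hdA' _ s (hcv' S s)).ofReal_comp
    · intro s
      exact (hdB' _ s (hcv' S s)).ofReal_comp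
    · exact Complex.continuous_ofReal.comp
        (hBc'.comp (by fun_prop : Continuous fun s : ℝ => ((S, s) : ℝ × ℝ)))
  have hser := h l M J (fun s : ℝ => ((H S s : ℝ) : ℂ)) hl hJ hut.1
    (fun s => by simp only [hG]) (fun s => by
      rw [hut.2 s, Complex.norm_real, Real.norm_eq_abs]
      exact hBM' S s) t
  rw [Complex.norm_real, Real.norm_eq_abs] at hser
  have hsum : ∑ k ∈ Finset.Icc (-(J : ℤ)) J, ‖(1 / l : ℂ) * ∫ s in (0 : ℝ)..l,
      Complex.exp (-(2 * Real.pi * Complex.I * k * s / l)) * ((H S s : ℝ) : ℂ)‖ ≤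
      3 * J * (3 * (J : ℝ) ^ 4 * (L * ε) + ell ^ 2 * C₁ * M / (J : ℝ) ^ 2) := by
    have h1 : ∀ k ∈ Finset.Icc (-(J : ℤ)) J, ‖(1 / l : ℂ) * ∫ s in (0 : ℝ)..l,
        Complex.exp (-(2 * Real.pi * Complex.I * k * s / l)) * ((H S s : ℝ) : ℂ)‖ ≤
        3 * (J : ℝ) ^ 4 * (L * ε) + ell ^ 2 * C₁ * M / (J : ℝ) ^ 2 := by
      intro k hk
      rw [Finset.mem_Icc] at hk
      exact hcoef k (abs_le.2 hk) S
    refine (Finset.sum_le_sum h1).trans ?_
    rw [Finset.sum_const, nsmul_eq_mul, Int.card_Icc]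
    have h2 : (((J : ℤ) + 1 - -(J : ℤ)).toNat : ℝ) = 2 * (J : ℝ) + 1 := by
      have e : ((J : ℤ) + 1 - -(J : ℤ)).toNat = 2 * J + 1 := by omega
      rw [e]
      push_cast
      ring
    rw [h2]
    have h3 : (0 : ℝ) ≤ 3 * (J : ℝ) ^ 4 * (L * ε) + ell ^ 2 * C₁ * M / (J : ℝ) ^ 2 := by
      positivity
    gcongr
    linarith
  have hfin : 3 * J * (3 * (J : ℝ) ^ 4 * (L * ε) + ell ^ 2 * C₁ * M / (J : ℝ) ^ 2) +
      l ^ 2 * M / J = 9 * L * ((J : ℝ) ^ 5 * ε) + (3 * C₁ * ell ^ 2 + l ^ 2) * (M / J) := by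
    field_simp
    ring
  have hMJ : 0 ≤ M / J := by positivity
  have hJε : 0 ≤ (J : ℝ) ^ 5 * ε := by positivity
  calc |H S t| ≤ 9 * L * ((J : ℝ) ^ 5 * ε) + (3 * C₁ * ell ^ 2 + l ^ 2) * (M / J) := by
        rw [← hfin]
        exact hser.trans (add_le_add_left hsum _)
    _ ≤ (9 * L + 3 * C₁ + L ^ 2) * ((J : ℝ) ^ 5 * ε) +
        ((9 * L + 3 * C₁ + L ^ 2) * (1 + ell) ^ 2) * (M / J) := by
        have e1 : ell ^ 2 ≤ (1 + ell) ^ 2 := by gcongr; linarith
        have e2 : 1 ≤ (1 + ell) ^ 2 := one_le_pow₀ (by linarith)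
        have e3 : l ^ 2 ≤ L ^ 2 * (1 + ell) ^ 2 := by
          calc l ^ 2 ≤ L ^ 2 := by gcongr
            _ = L ^ 2 * 1 := (mul_one _).symm
            _ ≤ _ := by gcongr
        have e4 : 3 * C₁ * ell ^ 2 ≤ 3 * C₁ * (1 + ell) ^ 2 := by gcongr
        have e5 : 0 ≤ 9 * L * (1 + ell) ^ 2 := by positivity
        have e6 : 0 ≤ 3 * C₁ + L ^ 2 := by positivity
        gcongr
        · linarith
        · linarith
    _ = _ := by ring

end Pool.Agent.LR
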