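import Mathlib
import Pool.Agent.Work.MP_25cd3b_gt.M.All
import Pool.Agent.Work.MP_13b5d9_gt.LR.StmtsD

set_option autoImplicit false

/-!
# MP_13b5d9_gt, block LR, item GF: the gradient flow of the displacement function
-/

open MeasureTheory Set Filter Topology
open scoped ContDiff ENNReal
open Pool.Agent.Work.MP_c9f990_an.Al (IsFlow)

namespace Pool.Agent.LR

open Pool.Agent.MLS Pool.Agent.STR

namespace IGF

/-- cut-off function -/
noncomputable def rho (R r : ℝ) : ℝ := Real.smoothTransition (R + 2 - r)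

theorem rho_nonneg (R r : ℝ) : 0 ≤ rho R r := Real.smoothTransition.nonneg _

theorem rho_le_one (R r : ℝ) : rho R r ≤ 1 := Real.smoothTransition.le_one _

theorem rho_one (R r : ℝ) (h : r ≤ R + 1) : rho R r = 1 :=
  Real.smoothTransition.one_of_one_le (by linarith)

theorem rho_zero (R r : ℝ) (h : R + 2 ≤ r) : rho R r = 0 :=
  Real.smoothTransition.zero_of_nonpos (by linarith)

theorem rho_smooth (R : ℝ) : ContDiff ℝ ∞ (rho R) :=
  Real.smoothTransition.contDiff.comp (contDiff_const.sub contDiff_id)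

/-- the cut off gradient field -/
noncomputable def Z {n : ℕ} (R : ℝ) (F : E n → ℝ) (gr : E n → E n) (x : E n) : E n :=
  (-rho R (F x)) • gr x

theorem Z_smooth {n : ℕ} (R : ℝ) (F : E n → ℝ) (gr : E n → E n) (hF : ContDiff ℝ ∞ F)
    (hgr : ContDiff ℝ ∞ gr) : ContDiff ℝ ∞ (Z R F gr) :=
  (((rho_smooth R).comp hF).neg).smul hgr

/-- the field has bounded length -/
theorem Z_bound {n : ℕ} (g : Form n) (R : ℝ) (hR : 0 ≤ R) (F : E n → ℝ) (gr : E n → E n)
    (h : ∀ x, g.val x (gr x) (gr x) ≤ 8 * F x) (x : E n) :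
    g.val x (Z R F gr x) (Z R F gr x) ≤ 2 * (4 * (R + 2)) := by
  have h1 : g.val x (Z R F gr x) (Z R F gr x) =
      rho R (F x) * rho R (F x) * g.val x (gr x) (gr x) := by
    unfold Z
    rw [map_smul, map_smul, _root_.smul_apply, smul_eq_mul, smul_eq_mul]
    ring
  rw [h1]
  have h2 := rho_nonneg R (F x)
  have h3 := rho_le_one R (F x)
  have h4 := g.nonneg x (gr x)
  have h5 := h x
  rcases le_total (R + 2) (F x) with h6 | h6
  · rw [rho_zero R (F x) h6]
    nlinarith
  · have h7 : rho R (F x) * rho R (F x) ≤ 1 := by nlinarith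
    nlinarith

end IGF

open IGF in
/-- Item GF. -/
theorem pr_GF (h1 : StGrd) : StGF := by
  intro n G _ _ hG g hR hI φ M hφ lg hlg a C
  obtain ⟨hF, hgr, hF2, hgF, hle, heq⟩ := h1 n G hG g hR hI φ M hφ lg hlg a
  obtain ⟨-, hpm, -, -⟩ := pr_Gd n g
  have hR0 : (0 : ℝ) ≤ C ^ 2 / 2 := by positivity
  set R : ℝ := C ^ 2 / 2 with hRdef
  set F := dsp g lg a with hFdef
  set gr := grd g F with hgrdef
  have hZ : ContDiff ℝ ∞ (Z R F gr) := Z_smooth R F gr hF hgr
  have hZb := Z_bound g R hR0 F gr hle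
  obtain ⟨Ψ, M', hΨ⟩ := p_Patch (E n) (Z R F gr) (hZ.of_le (by norm_num)) (by
    intro S T hS
    obtain ⟨K', hK', hK'2⟩ := p_Prop n G hG g hR hI S (|T| * Real.sqrt (2 * (4 * (R + 2)))) hS
    refine ⟨K', hK', ?_⟩
    intro ψ hψ hψ01 y hy hy0 t ht
    apply hK'2 (y 0) hy0
    have hyc : Continuous y := continuous_iff_continuousAt.2 fun t => (hy t).continuousAt
    have hd : deriv y = fun t => ψ (y t) • Z R F gr (y t) := funext fun t => (hy t).deriv
    have hy1 : ContDiff ℝ 1 y := by
      rw [contDiff_one_iff_deriv]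
      refine ⟨fun t => (hy t).differentiableAt, ?_⟩
      rw [hd]
      exact (hψ.continuous.comp hyc).smul (hZ.continuous.comp hyc)
    have hspeed : ∀ t, nrm g (y t) (deriv y t) ≤ Real.sqrt (2 * (4 * (R + 2))) := by
      intro s
      rw [hd]
      exact IFlow.nrm_smul_le g _ _ _ (4 * (R + 2)) (hψ01 _).1 (hψ01 _).2 (hZb (y s))
    refine le_trans (IFlow.dist_curve g pr_Gd y hy1 _ hspeed t) ?_
    apply mul_le_mul_of_nonneg_right _ (Real.sqrt_nonneg _)
    exact le_trans ht (le_abs_self T))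
  refine ⟨Ψ, hΨ.cont, hΨ.zero, ?_, ?_⟩
  · intro x hx t ht
    have hC : 0 ≤ C := le_trans (hpm.nonneg _ _) hx
    have hFx : F x ≤ R := by
      rw [hF2 x, hRdef]
      have h3 := hpm.nonneg x (a • x)
      nlinarith
    -- the function is nonincreasing along the flow
    have hder : ∀ s, HasDerivAt (fun s => F (Ψ s x))
        (-(rho R (F (Ψ s x)) * g.val (Ψ s x) (gr (Ψ s x)) (gr (Ψ s x)))) s := by
      intro s
      have h3 : HasFDerivAt F (fderiv ℝ F (Ψ s x)) (Ψ s x) :=
        ((hF.differentiable (by norm_num)) (Ψ s x)).hasFDerivAt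
      have h4 := h3.comp_hasDerivAt s (hΨ.ode x s)
      have h5 : fderiv ℝ F (Ψ s x) (Z R F gr (Ψ s x)) =
          -(rho R (F (Ψ s x)) * g.val (Ψ s x) (gr (Ψ s x)) (gr (Ψ s x))) := by
        unfold Z
        rw [map_smul, ← hgF, smul_eq_mul]
        ring
      rw [h5] at h4
      exact h4
    have hanti : Antitone (fun s => F (Ψ s x)) := by
      apply antitone_of_deriv_nonpos (fun s => (hder s).differentiableAt)
      intro s
      rw [(hder s).deriv]
      have h3 := rho_nonneg R (F (Ψ s x))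
      have h4 := g.nonneg (Ψ s x) (gr (Ψ s x))
      have h5 := mul_nonneg h3 h4
      linarith
    have hFt : F (Ψ t x) ≤ R := by
      have h3 := hanti ht
      simp only [hΨ.zero] at h3
      exact le_trans h3 hFx
    constructor
    · rw [hF2 (Ψ t x), hRdef] at hFt
      have h3 := hpm.nonneg (Ψ t x) (a • Ψ t x)
      exact abs_le_of_sq_le_sq' (by linarith) hC |>.2
    · have h3 := hΨ.ode x t
      have h4 : Z R F gr (Ψ t x) = -gr (Ψ t x) := by
        unfold Z
        rw [rho_one R _ (by linarith), neg_smul, one_smul]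
      rw [h4] at h3
      exact h3
  · intro b hb t ht x
    have h3 := heq b hb
    have h4 := hΨ.uniq (fun s => b • Ψ s x) (by
      intro s _
      have h5 : HasFDerivAt (fun y : E n => b • y) (dac b (Ψ s x)) (Ψ s x) :=
        (((hG.smooth b).differentiable (by norm_num)) (Ψ s x)).hasFDerivAt
      have h6 := h5.comp_hasDerivAt s (hΨ.ode x s)
      have h7 : dac b (Ψ s x) (Z R F gr (Ψ s x)) = Z R F gr (b • Ψ s x) := by
        unfold Z
        rw [map_smul, (h3 (Ψ s x)).1, (h3 (Ψ s x)).2]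
      rw [h7] at h6
      exact h6.hasDerivWithinAt) t ht
    simp only [hΨ.zero] at h4
    exact h4.symm

end Pool.Agent.LR
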