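import Pool.Agent.Work.MP_13b5d9_gt.LR.StmtsB
import Pool.Agent.Work.MP_25cd3b_gt.NG.All

set_option autoImplicit false

/-!
# MP_13b5d9_gt, block LR, item Ge: geodesics of a metric without conjugate points
-/

open MeasureTheory Set Filter Topology
open scoped ContDiff ENNReal
open Pool.Agent.Work.MP_c9f990_an.Al (IsFlow)

namespace Pool.Agent.LR

open Pool.Agent.MLS Pool.Agent.STR

theorem pr_Ge : StGe := by
  intro n g φ M hg hφ hN
  refine ⟨fun σ hσ s t => p_NcMinz n g φ M hg hφ hN σ hσ.geo hσ.unit s t, ?_⟩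
  intro x y hxy
  have hinj := p_NcInj n g φ M hg hφ hN
  obtain ⟨hb, hd⟩ := p_NcDist n g φ M hg hφ x (fun v w => hinj x v w)
  obtain ⟨v, hv⟩ := hb.2 y
  obtain ⟨-, -, hexp, -, h0⟩ := p_NcExp n g φ M hg hφ x
  have hv0 : v ≠ 0 := by
    rintro rfl
    exact hxy (h0.symm.trans hv)
  have hgv : 0 < g.val x v v := hg x v hv0
  have hpos : 0 < nrm g x v := Real.sqrt_pos.2 hgv
  have hsq : nrm g x v * nrm g x v = g.val x v v := Real.mul_self_sqrt hgv.le
  have hdist : gd g x y = nrm g x v := by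
    rw [← hv, hd v]
  set w : E n := (nrm g x v)⁻¹ • v with hw
  have hww : g.val x w w = 1 := by
    rw [hw]
    simp only [map_smul, ContinuousLinearMap.smul_apply, smul_eq_mul]
    rw [← hsq]
    field_simp
  obtain ⟨-, -, hiop, -, -, -, -, -, hHm⟩ := pr_Op n g hg
  obtain ⟨hG, hder, hE⟩ := p_Geo1 n g hg (fun t => φ t (x, op g x w))
    (fun t => hφ.ode (x, op g x w) t)
  refine ⟨fun t => (φ t (x, op g x w)).1, ⟨hG, ?_⟩, ?_, ?_, ?_⟩
  · intro t
    have h1 := hE t
    simp only [hφ.zero] at h1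
    rw [hHm, hHm] at h1
    have h2 : vel g (x, op g x w) = w := hiop x w
    rw [h2] at h1
    simp only [hww] at h1
    rw [hder t]
    linarith
  · simp only [hφ.zero]
  · simp only
    rw [hexp, hdist, hw, smul_smul, mul_inv_cancel₀ hpos.ne', one_smul, hv]
  · rw [hdist]
    exact hpos

end Pool.Agent.LR
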