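import Pool.Agent.Work.MP_13b5d9_gt.LR.StmtsD
import Pool.Agent.Work.MP_25cd3b_gt.M.I_Op
import Pool.Agent.Work.MP_25cd3b_gt.M.I_Hd
import Pool.Agent.Work.MP_25cd3b_gt.M.I_Tr0
import Pool.Agent.Work.MP_25cd3b_gt.M.I_Geo1
import Mathlib

set_option autoImplicit false

/-!
# MP_13b5d9_gt, block LR, item Grd: the displacement function and its gradient
-/

open MeasureTheory Set Filter Topology
open scoped ContDiff ENNReal
open Pool.Agent.Work.MP_c9f990_an.Al (IsFlow)

namespace Pool.Agent.LR

open Pool.Agent.MLS Pool.Agent.STR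

namespace IGrd

/-- the derivative of the action is surjective -/
lemma dac_dac {n : ℕ} {G : Type} [Group G] [MulAction G (E n)] (hG : Cocompact n G) (z : G)
    (x u : E n) : dac z x (dac z⁻¹ (z • x) u) = u := by
  have h1 : HasFDerivAt (fun y : E n => z⁻¹ • y) (dac z⁻¹ (z • x)) (z • x) :=
    (((hG.smooth z⁻¹).differentiable (by norm_num)) (z • x)).hasFDerivAt
  have h2 : HasFDerivAt (fun y : E n => z • y) (dac z x) x :=
    (((hG.smooth z).differentiable (by norm_num)) x).hasFDerivAt
  have h3 : z⁻¹ • (z • x) = x := inv_smul_smul z x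
  have h4 : HasFDerivAt (fun y : E n => z • y) (dac z x) (z⁻¹ • (z • x)) := by
    rw [h3]
    exact h2
  have h5 := h4.comp (z • x) h1
  have h6 : ((fun y : E n => z • y) ∘ fun y : E n => z⁻¹ • y) = id := by
    funext y
    simp
  rw [h6] at h5
  have h7 := h5.unique (hasFDerivAt_id (z • x))
  have h8 := DFunLike.congr_fun h7 u
  simpa using h8

/-- a positive definite form is nondegenerate -/
lemma eq_of {n : ℕ} {g : Form n} (hg : Riem g) (x a b : E n)
    (h : ∀ w, g.val x a w = g.val x b w) : a = b := by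
  by_contra hne
  have h1 : a - b ≠ 0 := sub_ne_zero.2 hne
  have h2 := hg x (a - b) h1
  have h4 : g.val x (a - b) = g.val x a - g.val x b := map_sub _ _ _
  have h3 : g.val x (a - b) (a - b) = 0 := by
    rw [h4, _root_.sub_apply, h (a - b), sub_self]
  rw [h3] at h2
  exact lt_irrefl 0 h2

lemma cs1 {n : ℕ} (g : Form n) (x p q : E n) :
    2 * g.val x p q ≤ 2 * g.val x p p + 1 / 2 * g.val x q q := by
  have h := g.nonneg x ((2 : ℝ) • p - q)
  have hs := g.symm x q p
  simp only [map_sub, map_smul, _root_.sub_apply, _root_.smul_apply, smul_eq_mul] at h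
  nlinarith

lemma cs2 {n : ℕ} (g : Form n) (x p q : E n) :
    -(2 * g.val x p q) ≤ 2 * g.val x p p + 1 / 2 * g.val x q q := by
  have h := g.nonneg x ((2 : ℝ) • p + q)
  have hs := g.symm x q p
  simp only [map_add, map_smul, _root_.add_apply, _root_.smul_apply, smul_eq_mul] at h
  nlinarith

end IGrd

open IGrd in
theorem pr_Grd (h1 : STR.StVar) (h2 : STR.StLgI) : StGrd := by
  intro n G _ _ hG g hg hI φ M hφ lg hlg a
  obtain ⟨o1, o2, o3, o4, o5, o6, o7, o8, o9⟩ := pr_Op n g hg
  have hv : ContDiff ℝ ∞ (fun x : E n => lg x (a • x)) :=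
    hlg.smooth.comp (contDiff_id.prodMk (hG.smooth a))
  have hF : ContDiff ℝ ∞ (dsp g lg a) := by
    have h := contDiff_const (c := (1 / 2 : ℝ)) |>.mul ((g.smooth.clm_apply hv).clm_apply hv)
    exact h
  have hdF : ContDiff ℝ ∞ (fderiv ℝ (dsp g lg a)) := hF.fderiv_right (by norm_num)
  have hgr : ContDiff ℝ ∞ (grd g (dsp g lg a)) := by
    have h := o7.clm_apply ((sh (n := n)).contDiff.comp hdF)
    exact h
  have hga : ∀ x w, g.val x (grd g (dsp g lg a) x) w = fderiv ℝ (dsp g lg a) x w := by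
    intro x w
    rw [← o2 x (grd g (dsp g lg a) x) w]
    unfold grd
    rw [o4 x, o1]
  have hFe : ∀ x, dsp g lg a x = 1 / 2 * g.val x (lg x (a • x)) (lg x (a • x)) := fun x => rfl
  have hFd : ∀ x, dsp g lg a x = 1 / 2 * gd g x (a • x) ^ 2 := by
    intro x
    rw [hFe, hlg.dist x (a • x)]
    unfold nrm
    rw [Real.sq_sqrt (g.nonneg x _)]
  have hB : ∀ x, g.val x (grd g (dsp g lg a) x) (grd g (dsp g lg a) x) ≤ 8 * dsp g lg a x := by
    intro x
    set u := grd g (dsp g lg a) x with hu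
    set v := lg x (a • x) with hvx
    have hvar := h1 n g φ M lg hg hφ hlg (fun y => a • y) (hG.smooth a) x u
    have hd : fderiv ℝ (dsp g lg a) x u =
        g.val (a • x) (ev φ g x v) (dac a x u) - g.val x v u := hvar
    rw [← hga x u] at hd
    -- energy
    have hE : g.val (a • x) (ev φ g x v) (ev φ g x v) = g.val x v v := by
      have hode : ∀ t, HasDerivAt (fun s => φ s (x, op g x v))
          (XH (Hm g) (φ t (x, op g x v))) t := fun t => hφ.ode _ t
      have h3 := (pr_Geo1 pr_Op (pr_Hd pr_Op) pr_Tr0 n g hg (fun s => φ s (x, op g x v)) hode).2.2 1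
      have h4 : φ 0 (x, op g x v) = (x, op g x v) := hφ.zero _
      simp only [h4] at h3
      rw [o9, o9] at h3
      have h5 : vel g (x, op g x v) = v := o3 x v
      have h6 : (φ 1 (x, op g x v)).1 = a • x := hlg.exp_log x (a • x)
      rw [h5, h6] at h3
      have h7 : vel g (φ 1 (x, op g x v)) = ev φ g x v := rfl
      rw [h7] at h3
      have h8 : ((x, op g x v) : W n).1 = x := rfl
      rw [h8] at h3
      linarith
    have hD : g.val (a • x) (dac a x u) (dac a x u) = g.val x u u := hI a x u u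
    have c1 := cs1 g (a • x) (ev φ g x v) (dac a x u)
    have c2 := cs2 g x v u
    rw [hFe x]
    change g.val x u u ≤ 8 * (1 / 2 * g.val x v v)
    rw [hE, hD] at c1
    linarith
  have hEq : ∀ b : G, b * a = a * b → ∀ x, dsp g lg a (b • x) = dsp g lg a x := by
    intro b hb x
    have h3 : a • (b • x) = b • (a • x) := by rw [smul_smul, smul_smul, hb]
    have h4 := (h2 n G hG g hg hI φ M hφ).2 lg hlg b x (a • x)
    rw [hFe, hFe, h3, h4, hI b x]
  refine ⟨hF, hgr, hFd, hga, hB, fun b hb x => ⟨hEq b hb x, ?_⟩⟩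
  refine eq_of hg (b • x) _ _ (fun w => ?_)
  obtain ⟨w', rfl⟩ : ∃ w', dac b x w' = w := ⟨_, dac_dac hG b x w⟩
  rw [hga, hI b x, hga]
  have h3 : (dsp g lg a) ∘ (fun y : E n => b • y) = dsp g lg a := funext (hEq b hb)
  have h4 : HasFDerivAt (fun y : E n => b • y) (dac b x) x :=
    (((hG.smooth b).differentiable (by norm_num)) x).hasFDerivAt
  have h5 : HasFDerivAt (dsp g lg a) (fderiv ℝ (dsp g lg a) (b • x)) (b • x) :=
    ((hF.differentiable (by norm_num)) (b • x)).hasFDerivAt
  have h6 := (h5.comp x h4).fderiv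
  rw [h3] at h6
  rw [h6]
  rfl

end Pool.Agent.LR
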