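import Pool.Agent.Work.MP_13b5d9_gt.LR.StmtsB
import Pool.Agent.Work.MP_25cd3b_gt.M.I_Gd

set_option autoImplicit false

/-!
# MP_13b5d9_gt, block LR, item Iso
-/

namespace Pool.Agent.LR

open Pool.Agent.MLS Pool.Agent.STR

namespace IIso

/-- the inequality from the two Stewart inequalities -/
theorem alg {S s c d B : ℝ} (hS : 0 ≤ Real.sinh S)
    (h1 : Real.sinh S * d ≤ Real.sinh (S - s) * Real.cosh s + Real.sinh s * c)
    (h2 : Real.sinh S * c ≤ Real.sinh (S - s) * Real.cosh S + Real.sinh s * B)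
    (hs : 0 ≤ Real.sinh s) :
    Real.sinh S ^ 2 * (d - 1) ≤ Real.sinh s ^ 2 * (B - 1) := by
  have e1 := mul_le_mul_of_nonneg_left h1 hS
  have e2 := mul_le_mul_of_nonneg_left h2 hs
  have c1 : Real.cosh s ^ 2 = Real.sinh s ^ 2 + 1 := Real.cosh_sq s
  have c2 : Real.cosh S ^ 2 = Real.sinh S ^ 2 + 1 := Real.cosh_sq S
  have e3 : Real.sinh (S - s) * (Real.sinh S * Real.cosh s + Real.sinh s * Real.cosh S) =
      Real.sinh S ^ 2 - Real.sinh s ^ 2 := by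
    rw [Real.sinh_sub]
    linear_combination Real.sinh S ^ 2 * c1 - Real.sinh s ^ 2 * c2
  nlinarith [e1, e2, e3]

end IIso

theorem pr_Iso (h1 : StCvG) (h2 : StStew) : StIso := by
  intro n g κ hC σ₁ σ₃ u1 u3 h0 s S hs hsS
  have hκ : 0 < κ := hC.pos
  have hd := (h1 n g κ hC).2.1
  have sym := (pr_Gd n g).2.1.symm
  have hS : 0 ≤ S := le_trans hs hsS
  have a1 := h2 n g κ hC σ₃ u3 (σ₁ s) s s (S - s) hs (sub_nonneg.2 hsS)
  have a2 := h2 n g κ hC σ₁ u1 (σ₃ S) s s (S - s) hs (sub_nonneg.2 hsS)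
  rw [add_sub_cancel, sub_self] at a1 a2
  have b1 : gd g (σ₁ s) (σ₃ 0) = s := by
    rw [← h0, hd σ₁ u1, sub_zero, abs_of_nonneg hs]
  have b2 : gd g (σ₃ S) (σ₁ 0) = S := by
    rw [h0, hd σ₃ u3, sub_zero, abs_of_nonneg hS]
  rw [b1] at a1
  rw [b2, sym (σ₃ S) (σ₁ s), sym (σ₃ S) (σ₁ S)] at a2
  have e : κ * (S - s) = κ * S - κ * s := by ring
  rw [e] at a1 a2
  exact IIso.alg (Real.sinh_nonneg_iff.2 (by positivity)) a1 a2
    (Real.sinh_nonneg_iff.2 (by positivity))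

end Pool.Agent.LR
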