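import Mathlib
import Pool.Agent.Work.MP_25cd3b_gt.M.I_Gd
import Pool.Agent.Work.MP_13b5d9_gt.LR.StmtsB

set_option autoImplicit false

/-!
# MP_13b5d9_gt, block LR, item Qd: the quadrilateral inequality
-/

open MeasureTheory Set Filter Topology
open scoped ContDiff ENNReal
open Pool.Agent.Work.MP_c9f990_an.Al (IsFlow)

namespace Pool.Agent.LR

open Pool.Agent.MLS Pool.Agent.STR

namespace IQd

/-- `cosh A + cosh B ≥ 2 cosh ((A + B) / 2)` -/
theorem two_cosh (A B : ℝ) : 2 * Real.cosh ((A + B) / 2) ≤ Real.cosh A + Real.cosh B := by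
  have h : Real.cosh A + Real.cosh B = 2 * Real.cosh ((A + B) / 2) * Real.cosh ((A - B) / 2) := by
    have h1 := Real.cosh_add ((A + B) / 2) ((A - B) / 2)
    have h2 := Real.cosh_sub ((A + B) / 2) ((A - B) / 2)
    have e1 : (A + B) / 2 + (A - B) / 2 = A := by ring
    have e2 : (A + B) / 2 - (A - B) / 2 = B := by ring
    rw [e1] at h1
    rw [e2] at h2
    rw [h1, h2]
    ring
  rw [h]
  nlinarith [Real.one_le_cosh ((A - B) / 2), Real.cosh_pos ((A + B) / 2)]

/-- the inequality with a midpoint -/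
theorem cosh_tri {κ a b c : ℝ} (hκ : 0 ≤ κ) (hc : 0 ≤ c) (h : c ≤ a + b) :
    2 * Real.cosh (κ * c / 2) ≤ Real.cosh (κ * a) + Real.cosh (κ * b) := by
  refine le_trans ?_ (two_cosh (κ * a) (κ * b))
  have h1 : κ * c / 2 ≤ (κ * a + κ * b) / 2 := by nlinarith
  have h0 : 0 ≤ κ * c / 2 := by positivity
  have h2 : Real.cosh (κ * c / 2) ≤ Real.cosh ((κ * a + κ * b) / 2) := by
    rw [Real.cosh_le_cosh, abs_of_nonneg h0, abs_of_nonneg (h0.trans h1)]
    exact h1
  linarith

/-- Stewart inequality at the midpoint -/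
theorem mid {n : ℕ} {g : Form n} {κ : ℝ} (h2 : StStew) (hg : Cv g κ) {σ : ℝ → E n} (hσ : UG g σ)
    {δ : ℝ} (hδ : 0 < δ) (y : E n) :
    2 * Real.cosh (κ * δ / 2) * Real.cosh (κ * gd g y (σ (δ / 2))) ≤
      Real.cosh (κ * gd g y (σ 0)) + Real.cosh (κ * gd g y (σ δ)) := by
  have h := h2 n g κ hg σ hσ y (δ / 2) (δ / 2) (δ / 2) (by positivity) (by positivity)
  have e1 : δ / 2 - δ / 2 = 0 := by ring
  have e2 : δ / 2 + δ / 2 = δ := by ring
  rw [e1, e2] at h
  have e3 : κ * δ = 2 * (κ * δ / 2) := by ring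
  have e4 : κ * (δ / 2) = κ * δ / 2 := by ring
  rw [e4, e3, Real.sinh_two_mul] at h
  have hs : 0 < Real.sinh (κ * δ / 2) := Real.sinh_pos_iff.2 (by have := hg.pos; positivity)
  have e5 : 2 * (κ * δ / 2) / 2 = κ * δ / 2 := by ring
  rw [e5] at h
  refine le_of_mul_le_mul_left ?_ hs
  nlinarith [h]

end IQd

open IQd

theorem pr_Qd (h1 : StCvG) (h2 : StStew) : StQd := by
  intro n g κ hg x o o' x'
  have hκ : 0 < κ := hg.pos
  have hpm : IsPM (gd g) := (pr_Gd n g).2.1
  by_cases hx : x = o'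
  · subst hx
    have e0 : κ * gd g x x / 2 = 0 := by rw [hpm.self]; ring
    rw [e0, Real.cosh_zero]
    have t : gd g x' o ≤ gd g x o + gd g x x' := by
      have := hpm.tri x' x o
      rw [hpm.symm x' x] at this
      linarith
    have h := cosh_tri hκ.le (hpm.nonneg x' o) t
    rw [hpm.symm o x, hpm.symm x' x]
    linarith
  · obtain ⟨σ, hσ, h0, hδ', hδ⟩ := (h1 n g κ hg).2.2 x o' hx
    have m1 := mid h2 hg hσ hδ o
    have m2 := mid h2 hg hσ hδ x'
    rw [h0, hδ'] at m1 m2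
    have t : gd g x' o ≤ gd g o (σ (gd g x o' / 2)) + gd g x' (σ (gd g x o' / 2)) := by
      have := hpm.tri x' (σ (gd g x o' / 2)) o
      rw [hpm.symm (σ (gd g x o' / 2)) o] at this
      linarith
    have h := cosh_tri hκ.le (hpm.nonneg x' o) t
    have hc := Real.cosh_pos (κ * gd g x o' / 2)
    have h' := mul_le_mul_of_nonneg_left h hc.le
    rw [hpm.symm o x] at m1
    rw [hpm.symm x' o'] at m2
    nlinarith [m1, m2, h']

end Pool.Agent.LR
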