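import Pool.Agent.Work.MP_25cd3b_gt.M.I_Gd
import Pool.Agent.Work.MP_13b5d9_gt.LR.StmtsB

set_option autoImplicit false

/-!
# MP_13b5d9_gt, block LR, item RA: the distance to the nearest point of a geodesic
-/

open MeasureTheory Set Filter Topology
open scoped ContDiff ENNReal

namespace Pool.Agent.LR

open Pool.Agent.MLS Pool.Agent.STR

namespace IRA

theorem gd_nn {n : ℕ} (g : Form n) (x y : E n) : 0 ≤ gd g x y :=
  Real.sInf_nonneg fun _ h => IGd.len_nonneg h

/-- passage to the limit -/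
theorem lim {κ t A F : ℝ} (hκ : 0 < κ) (ht : 0 < t) (hA : 0 ≤ A)
    (h : ∀ q, 0 < q → q < t → Real.sinh (κ * t) * A ≤
      Real.sinh (κ * (t - q)) * A + Real.sinh (κ * q) * F) :
    A * Real.cosh (κ * t) ≤ F := by
  have key : ∀ q, 0 < q → q < t → A * Real.cosh (κ * (t - q)) ≤ F := by
    intro q hq hqt
    have h1 := h q hq hqt
    have h2 : Real.sinh (κ * t) = Real.sinh (κ * (t - q)) * Real.cosh (κ * q) +
        Real.cosh (κ * (t - q)) * Real.sinh (κ * q) := by
      rw [← Real.sinh_add]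
      congr 1
      ring
    have h3 : 0 < Real.sinh (κ * q) := Real.sinh_pos_iff.mpr (mul_pos hκ hq)
    have h4 : 0 < Real.sinh (κ * (t - q)) :=
      Real.sinh_pos_iff.mpr (mul_pos hκ (sub_pos.mpr hqt))
    have h5 := Real.one_le_cosh (κ * q)
    have h6 : 0 ≤ Real.sinh (κ * (t - q)) * A * (Real.cosh (κ * q) - 1) :=
      mul_nonneg (mul_nonneg h4.le hA) (sub_nonneg.mpr h5)
    rw [h2] at h1
    have h7 : Real.sinh (κ * q) * (A * Real.cosh (κ * (t - q))) ≤ Real.sinh (κ * q) * F := by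
      linarith
    exact le_of_mul_le_mul_left h7 h3
  have hc : Tendsto (fun q : ℝ => A * Real.cosh (κ * (t - q))) (𝓝[>] 0)
      (𝓝 (A * Real.cosh (κ * (t - 0)))) := by
    have : Continuous (fun q : ℝ => A * Real.cosh (κ * (t - q))) := by
      fun_prop
    exact (this.tendsto 0).mono_left nhdsWithin_le_nhds
  rw [sub_zero] at hc
  refine le_of_tendsto hc ?_
  filter_upwards [Ioo_mem_nhdsGT ht] with q hq
  exact key q hq.1 hq.2

end IRA

theorem pr_RA (h : StStew) : StRA := by
  intro n g κ hg σ hσ x t₀ hmin t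
  have hκ := hg.pos
  have hf : ∀ s, Real.cosh (κ * gd g x (σ t₀)) ≤ Real.cosh (κ * gd g x (σ s)) := by
    intro s
    rw [Real.cosh_le_cosh, abs_of_nonneg (mul_nonneg hκ.le (IRA.gd_nn g _ _)),
      abs_of_nonneg (mul_nonneg hκ.le (IRA.gd_nn g _ _))]
    exact mul_le_mul_of_nonneg_left (hmin s) hκ.le
  have hA : 0 ≤ Real.cosh (κ * gd g x (σ t₀)) := (Real.cosh_pos _).le
  rcases lt_trichotomy t 0 with ht | ht | ht
  · have h1 := IRA.lim (κ := κ) (t := -t) (A := Real.cosh (κ * gd g x (σ t₀)))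
      (F := Real.cosh (κ * gd g x (σ (t₀ + t)))) hκ (by linarith) hA (by
        intro q hq hqt
        have h2 := h n g κ hg σ hσ x (t₀ - q) (-t - q) q (by linarith) hq.le
        have e1 : -t - q + q = -t := by ring
        have e2 : t₀ - q - (-t - q) = t₀ + t := by ring
        have e3 : t₀ - q + q = t₀ := by ring
        rw [e1, e2, e3] at h2
        have h3 : 0 < Real.sinh (κ * -t) := Real.sinh_pos_iff.mpr (mul_pos hκ (by linarith))
        have h4 := mul_le_mul_of_nonneg_left (hf (t₀ - q)) h3.le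
        linarith)
    have h5 : Real.cosh (κ * -t) = Real.cosh (κ * t) := by
      rw [mul_neg, Real.cosh_neg]
    rwa [h5] at h1
  · subst ht
    simp
  · refine IRA.lim hκ ht hA ?_
    intro q hq hqt
    have h2 := h n g κ hg σ hσ x (t₀ + q) q (t - q) hq.le (by linarith)
    have e1 : q + (t - q) = t := by ring
    have e2 : t₀ + q - q = t₀ := by ring
    have e3 : t₀ + q + (t - q) = t₀ + t := by ring
    rw [e1, e2, e3] at h2
    have h3 : 0 < Real.sinh (κ * t) := Real.sinh_pos_iff.mpr (mul_pos hκ ht)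
    have h4 := mul_le_mul_of_nonneg_left (hf (t₀ + q)) h3.le
    linarith

end Pool.Agent.LR
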