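import Pool.Agent.Work.MP_13b5d9_gt.LR.StmtsB
import Pool.Agent.Work.MP_25cd3b_gt.NG.All

set_option autoImplicit false
set_option maxSynthPendingDepth 3

/-!
# MP_13b5d9_gt, block LR, item Stew: the Stewart inequality
-/

open MeasureTheory Set Filter Topology
open scoped ContDiff ENNReal
open Pool.Agent.Work.MP_c9f990_an.Al (IsFlow)

namespace Pool.Agent.LR

open Pool.Agent.MLS Pool.Agent.STR

namespace IStew

/-- growth of a function with `f'' ≥ κ² f` to the right -/
theorem grow (κ : ℝ) (hκ : 0 < κ) (f f1 f2 : ℝ → ℝ) (hf : ∀ s, HasDerivAt f (f1 s) s)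
    (hf1 : ∀ s, HasDerivAt f1 (f2 s) s) (h : ∀ s, κ ^ 2 * f s ≤ f2 s) (t s : ℝ) (hs : 0 ≤ s) :
    f t * Real.cosh (κ * s) + f1 t / κ * Real.sinh (κ * s) ≤ f (t + s) := by
  have hκ0 : κ ≠ 0 := hκ.ne'
  have sh : ∀ s : ℝ, HasDerivAt (fun s => t + s) 1 s := fun s => (hasDerivAt_id s).const_add t
  have df : ∀ s : ℝ, HasDerivAt (fun s => f (t + s)) (f1 (t + s)) s := fun s => by
    exact HasDerivAt.congr_deriv ((hf (t + s)).comp s (sh s)) (mul_one _)
  have df1 : ∀ s : ℝ, HasDerivAt (fun s => f1 (t + s)) (f2 (t + s)) s := fun s => by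
    exact HasDerivAt.congr_deriv ((hf1 (t + s)).comp s (sh s)) (mul_one _)
  have dc : ∀ s : ℝ, HasDerivAt (fun s => Real.cosh (κ * s)) (Real.sinh (κ * s) * κ) s := fun s => by
    have hid : HasDerivAt (fun s : ℝ => κ * s) (κ * 1) s := (hasDerivAt_id s).const_mul κ
    simpa using hid.cosh
  have ds : ∀ s : ℝ, HasDerivAt (fun s => Real.sinh (κ * s)) (Real.cosh (κ * s) * κ) s := fun s => by
    have hid : HasDerivAt (fun s : ℝ => κ * s) (κ * 1) s := (hasDerivAt_id s).const_mul κ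
    simpa using hid.sinh
  have dD : ∀ s : ℝ, HasDerivAt (fun s => f1 (t + s) * Real.cosh (κ * s) -
      κ * (f (t + s) * Real.sinh (κ * s)) - f1 t)
      ((f2 (t + s) - κ ^ 2 * f (t + s)) * Real.cosh (κ * s)) s := by
    intro s
    exact HasDerivAt.congr_deriv
      ((((df1 s).mul (dc s)).sub (((df s).mul (ds s)).const_mul κ)).sub_const (f1 t)) (by ring)
  have hD : ∀ s : ℝ, 0 ≤ s → 0 ≤ f1 (t + s) * Real.cosh (κ * s) -
      κ * (f (t + s) * Real.sinh (κ * s)) - f1 t := by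
    intro s hs
    have h1 := INgOde.mono0 _ _ (fun s _ => dD s) (fun s _ => mul_nonneg (sub_nonneg.2 (h (t + s)))
      (Real.cosh_pos _).le) s hs
    simpa using h1
  have dq : ∀ s : ℝ, HasDerivAt (fun s => (f (t + s) - f1 t / κ * Real.sinh (κ * s)) /
      Real.cosh (κ * s))
      ((f1 (t + s) * Real.cosh (κ * s) - κ * (f (t + s) * Real.sinh (κ * s)) - f1 t) /
        Real.cosh (κ * s) ^ 2) s := by
    intro s
    have h1 := ((df s).sub ((ds s).const_mul (f1 t / κ))).div (dc s) (Real.cosh_pos _).ne'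
    refine HasDerivAt.congr_deriv h1 ?_
    have h2 := Real.cosh_sq (κ * s)
    have e3 : f1 t / κ * κ = f1 t := div_mul_cancel₀ _ hκ0
    have e4 : (f1 (t + s) - f1 t / κ * (Real.cosh (κ * s) * κ)) * Real.cosh (κ * s) -
        (f (t + s) - f1 t / κ * Real.sinh (κ * s)) * (Real.sinh (κ * s) * κ) =
        f1 (t + s) * Real.cosh (κ * s) - κ * (f (t + s) * Real.sinh (κ * s)) - f1 t := by
      linear_combination (-(f1 t)) * h2 + (Real.sinh (κ * s) ^ 2 - Real.cosh (κ * s) ^ 2) * e3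
    rw [← e4]
    rfl
  have hq := INgOde.mono0 _ _ (fun s _ => dq s) (fun s hs => div_nonneg (hD s hs) (sq_nonneg _)) s hs
  simp only [mul_zero, Real.sinh_zero, Real.cosh_zero, div_one, add_zero, sub_zero] at hq
  rw [le_div_iff₀ (Real.cosh_pos _)] at hq
  linarith

/-- comparison with the solution of `W'' = κ² W` -/
theorem cmp (κ : ℝ) (hκ : 0 < κ) (f f1 f2 : ℝ → ℝ) (hf : ∀ s, HasDerivAt f (f1 s) s)
    (hf1 : ∀ s, HasDerivAt f1 (f2 s) s) (h : ∀ s, κ ^ 2 * f s ≤ f2 s) (t a b : ℝ)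
    (ha : 0 ≤ a) (hb : 0 ≤ b) :
    Real.sinh (κ * (a + b)) * f t ≤ Real.sinh (κ * b) * f (t - a) + Real.sinh (κ * a) * f (t + b) := by
  have h1 := grow κ hκ f f1 f2 hf hf1 h t b hb
  have dn : ∀ s : ℝ, HasDerivAt (fun s : ℝ => -s) (-1) s := fun s => hasDerivAt_neg s
  have h2 := grow κ hκ (fun s => f (-s)) (fun s => -f1 (-s)) (fun s => f2 (-s))
    (fun s => HasDerivAt.congr_deriv ((hf (-s)).comp s (dn s)) (by ring))
    (fun s => HasDerivAt.congr_deriv ((hf1 (-s)).comp s (dn s)).neg (by ring))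
    (fun s => h (-s)) (-t) a ha
  simp only [neg_neg] at h2
  have e : -(-t + a) = t - a := by ring
  rw [e] at h2
  have hsa : 0 ≤ Real.sinh (κ * a) := Real.sinh_nonneg_iff.2 (by positivity)
  have hsb : 0 ≤ Real.sinh (κ * b) := Real.sinh_nonneg_iff.2 (by positivity)
  have h3 := mul_le_mul_of_nonneg_left h1 hsa
  have h4 := mul_le_mul_of_nonneg_left h2 hsb
  have h5 : Real.sinh (κ * (a + b)) = Real.sinh (κ * a) * Real.cosh (κ * b) +
      Real.cosh (κ * a) * Real.sinh (κ * b) := by rw [mul_add, Real.sinh_add]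
  rw [h5]
  have h6 : -f1 t / κ = -(f1 t / κ) := neg_div _ _
  rw [h6] at h4
  nlinarith [h3, h4]

/-- the identity in the degenerate case -/
theorem ident (A B x : ℝ) : Real.sinh (A + B) * Real.cosh x =
    Real.sinh B * Real.cosh (x + A) + Real.sinh A * Real.cosh (x - B) := by
  rw [Real.sinh_add, Real.cosh_add, Real.cosh_sub]
  ring

end IStew

open IStew in
theorem pr_Stew (h : StCvG) : StStew := by
  intro n g κ hcv σ hσ y t a b ha hb
  obtain ⟨hNC, hmin, -⟩ := h n g κ hcv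
  obtain ⟨φ, M, hφ⟩ := hcv.flow
  have hR := hcv.riem
  have hκ := hcv.pos
  have hcur := hcv.curv
  by_cases hy : ∃ t₀, y = σ t₀
  · obtain ⟨t₀, rfl⟩ := hy
    have hc : ∀ s, Real.cosh (κ * gd g (σ t₀) (σ s)) = Real.cosh (κ * (t₀ - s)) := by
      intro s
      rw [hmin σ hσ t₀ s, ← Real.cosh_abs (κ * (t₀ - s)), abs_mul, abs_of_pos hκ]
    rw [hc, hc, hc]
    have e1 := ident (κ * a) (κ * b) (κ * (t₀ - t))
    have e2 : κ * a + κ * b = κ * (a + b) := by ring
    have e3 : κ * (t₀ - t) + κ * a = κ * (t₀ - (t - a)) := by ring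
    have e4 : κ * (t₀ - t) - κ * b = κ * (t₀ - (t + b)) := by ring
    rw [e2, e3, e4] at e1
    exact e1.le
  · have hne : ∀ s, y ≠ σ s := fun s hs => hy ⟨s, hs⟩
    obtain ⟨-, hop, hio, -, -, -, -, -, hHm⟩ := pr_Op n g hR
    have hinj := p_NcInj n g φ M hR hφ hNC
    have hdist := fun p => p_NcDist n g φ M hR hφ p (hinj p)
    have hvel0 : ∀ p w : E n, vel g (p, op g p w) = w := fun p w => hio p w
    have hgeo : ∀ p w : E n, IsGeo g (fun s => (φ s (p, op g p w)).1) ∧
        (∀ t, deriv (fun s => (φ s (p, op g p w)).1) t = vel g (φ t (p, op g p w))) ∧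
        ∀ t, g.val (φ t (p, op g p w)).1 (vel g (φ t (p, op g p w))) (vel g (φ t (p, op g p w)))
          = g.val p w w := by
      intro p w
      obtain ⟨q1, q2, q3⟩ := p_Geo1 n g hR (fun s => φ s (p, op g p w))
        (fun t => hφ.ode (p, op g p w) t)
      refine ⟨q1, q2, fun t => ?_⟩
      have e := q3 t
      rw [hHm, hHm, hφ.zero] at e
      simp only [hvel0] at e
      linarith
    obtain ⟨-, -, hexp, -, hexp0⟩ := p_NcExp n g φ M hR hφ y
    obtain ⟨hbij, hgdy⟩ := hdist y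
    obtain ⟨w, e1, e2, hw, he, he1, hf1, hf2⟩ := p_NgVar n g φ M hR hφ y (hinj y) hbij σ hσ.geo
    have hgd : ∀ t, gd g y (σ t) = Real.sqrt (2 * (1 / 2 * g.val y (w t) (w t))) := by
      intro t
      rw [← hw t, hgdy]
      unfold nrm
      congr 1
      ring
    have hpos : ∀ t, 0 < 1 / 2 * g.val y (w t) (w t) := by
      intro t
      have hwt : w t ≠ 0 := by
        intro h0
        apply hne t
        rw [← hw t, h0, hexp0]
      have := hR y (w t) hwt
      linarith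
    have hl : ∀ t, 0 < Real.sqrt (2 * (1 / 2 * g.val y (w t) (w t))) := fun t =>
      Real.sqrt_pos.2 (by have := hpos t; linarith)
    have hcomp : ∀ t, e1 t ^ 2 / (2 * (1 / 2 * g.val y (w t) (w t))) +
        κ * Real.sqrt (2 * (1 / 2 * g.val y (w t) (w t))) *
          (Real.cosh (κ * Real.sqrt (2 * (1 / 2 * g.val y (w t) (w t)))) /
            Real.sinh (κ * Real.sqrt (2 * (1 / 2 * g.val y (w t) (w t))))) *
          (1 - e1 t ^ 2 / (2 * (1 / 2 * g.val y (w t) (w t)))) ≤ e2 t := by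
      intro t
      obtain ⟨J, hJ, hJ0, hJ1, hJe⟩ := hf2 t
      obtain ⟨hγ, hγd, hγn⟩ := hgeo y (w t)
      obtain ⟨k1, k2⟩ := p_NgJc n g κ hR hκ hcur _ J hγ hJ hJ0
      have hγ1 : (φ 1 (y, op g y (w t))).1 = σ t := hw t
      simp only [hγ1] at k1 k2
      set l : ℝ := Real.sqrt (2 * (1 / 2 * g.val y (w t) (w t))) with hld
      have hlpos : 0 < l := hl t
      have hl2 : l ^ 2 = 2 * (1 / 2 * g.val y (w t) (w t)) :=
        Real.sq_sqrt (by have := hpos t; linarith)
      have k3 := k1 l hlpos (fun s => by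
        rw [hγd s, hl2]
        have := hγn s
        linarith)
      rw [hγd 1, ← hJe, hJ1, hσ.unit t] at k3
      have e5 : g.val (σ t) (deriv σ t) (vel g (φ 1 (y, op g y (w t)))) = e1 t := by
        rw [g.symm, hf1 t]
      rw [e5] at k3
      rw [← hl2]
      exact k3
    set e : ℝ → ℝ := fun t => 1 / 2 * g.val y (w t) (w t) with hedef
    have hE : ∀ t, 0 < e t := hpos
    have hlsq : ∀ t, Real.sqrt (2 * e t) ^ 2 = 2 * e t := fun t =>
      Real.sq_sqrt (by have := hE t; linarith)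
    have dl : ∀ t, HasDerivAt (fun s => Real.sqrt (2 * e s)) (e1 t / Real.sqrt (2 * e t)) t := by
      intro t
      have h := ((he t).const_mul 2).sqrt (by have := hE t; positivity)
      refine HasDerivAt.congr_deriv h ?_
      have := (hl t).ne'
      change 2 * e1 t / (2 * Real.sqrt (2 * e t)) = e1 t / Real.sqrt (2 * e t)
      rw [mul_div_mul_left _ _ two_ne_zero]
    have dh : ∀ t, HasDerivAt (fun s => Real.cosh (κ * Real.sqrt (2 * e s)))
        (κ * (Real.sinh (κ * Real.sqrt (2 * e t)) * (e1 t / Real.sqrt (2 * e t)))) t := by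
      intro t
      have h := ((dl t).const_mul κ).cosh
      exact HasDerivAt.congr_deriv h (by ring)
    have dh1 : ∀ t, HasDerivAt
        (fun t => κ * (Real.sinh (κ * Real.sqrt (2 * e t)) * (e1 t / Real.sqrt (2 * e t))))
        (κ * ((Real.cosh (κ * Real.sqrt (2 * e t)) * (κ * (e1 t / Real.sqrt (2 * e t)))) *
          (e1 t / Real.sqrt (2 * e t)) + Real.sinh (κ * Real.sqrt (2 * e t)) *
            ((e2 t * Real.sqrt (2 * e t) - e1 t * (e1 t / Real.sqrt (2 * e t))) /
              Real.sqrt (2 * e t) ^ 2))) t := by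
      intro t
      exact ((((dl t).const_mul κ).sinh).mul ((he1 t).div (dl t) (hl t).ne')).const_mul κ
    have key : ∀ t, κ ^ 2 * Real.cosh (κ * Real.sqrt (2 * e t)) ≤
        κ * ((Real.cosh (κ * Real.sqrt (2 * e t)) * (κ * (e1 t / Real.sqrt (2 * e t)))) *
          (e1 t / Real.sqrt (2 * e t)) + Real.sinh (κ * Real.sqrt (2 * e t)) *
            ((e2 t * Real.sqrt (2 * e t) - e1 t * (e1 t / Real.sqrt (2 * e t))) /
              Real.sqrt (2 * e t) ^ 2)) := by
      intro t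
      refine INgOde.alg κ _ _ (e1 t) (e2 t) (hl t) (Real.sinh_pos_iff.2 (mul_pos hκ (hl t))) _ hκ ?_
      have h := hcomp t
      change e1 t ^ 2 / Real.sqrt (2 * e t) ^ 2 + κ * Real.sqrt (2 * e t) *
        (Real.cosh (κ * Real.sqrt (2 * e t)) / Real.sinh (κ * Real.sqrt (2 * e t))) *
          (1 - e1 t ^ 2 / Real.sqrt (2 * e t) ^ 2) ≤ e2 t
      rw [hlsq t]
      exact h
    have hfin := cmp κ hκ _ _ _ dh dh1 key t a b ha hb
    have hc : ∀ s, Real.cosh (κ * gd g y (σ s)) = Real.cosh (κ * Real.sqrt (2 * e s)) := by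
      intro s
      rw [hgd s]
    rw [hc, hc, hc]
    exact hfin

end Pool.Agent.LR
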