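import Pool.Agent.Work.MP_13b5d9_gt.LR.StmtsA

set_option autoImplicit false

open MeasureTheory Set Filter Topology
open scoped ContDiff ENNReal

namespace Pool.Agent.LR

namespace ITay

theorem fwd {F : Type} [NormedAddCommGroup F] [NormedSpace ℝ F] (f : ℝ → F)
    (q ε M : ℝ) (hf : ContDiff ℝ 2 f) (hq : 0 < q) (h0 : ‖f 0‖ ≤ ε) (h1 : ‖f q‖ ≤ ε)
    (hM : ∀ t ∈ Icc 0 q, ‖deriv (deriv f) t‖ ≤ M) : ‖deriv f 0‖ ≤ 2 * ε / q + M * q := by
  have hd : Differentiable ℝ f := hf.differentiable (by norm_num)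
  have hf' : ContDiff ℝ 1 (deriv f) := by
    have h2 : ContDiff ℝ (1 + 1) f := by
      have : ((1 : WithTop ℕ∞) + 1) = 2 := by norm_num
      rw [this]; exact hf
    exact (contDiff_succ_iff_deriv.1 h2).2.2
  have hd' : Differentiable ℝ (deriv f) := hf'.differentiable (by norm_num)
  have hM0 : 0 ≤ M := le_trans (norm_nonneg _) (hM 0 ⟨le_refl _, hq.le⟩)
  -- first derivative close to the value at 0
  have e1 : ∀ t ∈ Icc (0 : ℝ) q, ‖deriv f t - deriv f 0‖ ≤ M * q := by
    intro t ht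
    have := (convex_Icc (0 : ℝ) q).norm_image_sub_le_of_norm_deriv_le (f := deriv f) (C := M)
      (fun x _ => hd' x) (fun x hx => hM x hx) (left_mem_Icc.2 hq.le) ht
    refine this.trans ?_
    rw [sub_zero, Real.norm_eq_abs, abs_of_nonneg ht.1]
    exact mul_le_mul_of_nonneg_left ht.2 hM0
  have e2 : ‖(f q - q • deriv f 0) - (f 0 - (0 : ℝ) • deriv f 0)‖ ≤ M * q * ‖q - 0‖ := by
    refine (convex_Icc (0 : ℝ) q).norm_image_sub_le_of_norm_hasDerivWithin_le
      (f := fun t => f t - t • deriv f 0) (f' := fun t => deriv f t - deriv f 0) (C := M * q)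
      ?_ e1 (left_mem_Icc.2 hq.le) (right_mem_Icc.2 hq.le)
    intro x _
    have h3 : HasDerivAt (fun t : ℝ => t • deriv f 0) ((1 : ℝ) • deriv f 0) x :=
      (hasDerivAt_id x).smul_const (deriv f 0)
    rw [one_smul] at h3
    exact ((hd x).hasDerivAt.sub h3).hasDerivWithinAt
  rw [zero_smul, sub_zero, sub_zero, Real.norm_eq_abs, abs_of_pos hq] at e2
  have e3 : ‖q • deriv f 0‖ ≤ 2 * ε + M * q * q := by
    have : q • deriv f 0 = f q - f 0 - (f q - q • deriv f 0 - f 0) := by abel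
    rw [this]
    calc _ ≤ ‖f q - f 0‖ + ‖f q - q • deriv f 0 - f 0‖ := norm_sub_le _ _
      _ ≤ (‖f q‖ + ‖f 0‖) + M * q * q := add_le_add (norm_sub_le _ _) e2
      _ ≤ _ := by linarith
  rw [norm_smul, Real.norm_eq_abs, abs_of_pos hq] at e3
  have e4 : ‖deriv f 0‖ ≤ (2 * ε + M * q * q) / q := by
    rw [le_div_iff₀ hq]; linarith
  refine e4.trans (le_of_eq ?_)
  field_simp

end ITay

theorem pr_Tay : StTay := by
  intro F _ _ f q ε M hf hq h0
  refine ⟨fun h1 hM => ITay.fwd f q ε M hf hq h0 h1 hM, fun h1 hM => ?_⟩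
  have hneg : ContDiff ℝ 2 (fun t : ℝ => f (-t)) := hf.comp contDiff_neg
  have d1 : deriv (fun t : ℝ => f (-t)) = fun t => -deriv f (-t) := by
    funext t
    exact deriv_comp_neg f t
  have d2 : deriv (deriv (fun t : ℝ => f (-t))) = fun t => deriv (deriv f) (-t) := by
    rw [d1]
    funext t
    have : deriv (fun t : ℝ => -deriv f (-t)) t = -deriv (fun t : ℝ => deriv f (-t)) t := by
      simp
    rw [this, deriv_comp_neg (deriv f) t, neg_neg]
  have := ITay.fwd (fun t : ℝ => f (-t)) q ε M hneg hq (by simpa using h0) (by simpa using h1)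
    (by
      intro t ht
      rw [d2]
      exact hM (-t) ⟨by linarith [ht.2], by linarith [ht.1]⟩)
  rw [d1] at this
  simpa using this

end Pool.Agent.LR
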