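import Pool.Agent.Work.MP_25cd3b_gt.M.I_Gd
import Pool.Agent.Work.MP_13b5d9_gt.LR.StmtsB

set_option autoImplicit false

/-!
# MP_13b5d9_gt, block LR, item Tube: the tube inequality
-/

open MeasureTheory Set Filter Topology
open scoped ContDiff ENNReal

namespace Pool.Agent.LR

open Pool.Agent.MLS Pool.Agent.STR

namespace ITube

/-- a function of Lipschitz constant one which grows at infinity has a minimum -/
theorem exists_min (F : ℝ → ℝ) (hL : ∀ s t, F s ≤ F t + |t - s|) (hG : ∀ t, |t| ≤ F 0 + F t) :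
    ∃ t₀, ∀ t, F t₀ ≤ F t := by
  have hc : Continuous F := by
    have : LipschitzWith 1 F := by
      refine LipschitzWith.of_dist_le_mul fun s t => ?_
      rw [Real.dist_eq, Real.dist_eq, abs_le]
      have h1 := hL s t
      have h2 := hL t s
      rw [abs_sub_comm] at h1
      simp only [NNReal.coe_one, one_mul]
      constructor <;> linarith
    exact this.continuous
  have h0 : 0 ≤ F 0 := by
    have := hG 0
    rw [abs_zero] at this
    linarith
  obtain ⟨t₀, ht₀, hm⟩ := (isCompact_Icc (a := -(2 * F 0)) (b := 2 * F 0)).exists_isMinOn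
    ⟨0, by constructor <;> linarith⟩ hc.continuousOn
  refine ⟨t₀, fun t => ?_⟩
  by_cases ht : t ∈ Icc (-(2 * F 0)) (2 * F 0)
  · exact hm ht
  · have h3 : F t₀ ≤ F 0 := hm (show (0 : ℝ) ∈ Icc (-(2 * F 0)) (2 * F 0) by
      constructor <;> linarith)
    have h4 : 2 * F 0 < |t| := by
      by_contra hcon
      exact ht (abs_le.mp (not_lt.mp hcon))
    have h5 := hG t
    linarith

/-- half angles -/
theorem half (y : ℝ) : Real.cosh (y / 2) ^ 2 = (Real.cosh y + 1) / 2 := by
  have h := Real.cosh_sq (y / 2)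
  have h2 : Real.cosh y = Real.cosh (y / 2) ^ 2 + Real.sinh (y / 2) ^ 2 := by
    rw [← Real.cosh_two_mul]
    ring_nf
  linarith

theorem prod_half (a b A : ℝ) (hA : 0 ≤ A) (ha : A ≤ Real.cosh a) (hb : A ≤ Real.cosh b) :
    (A + 1) / 2 ≤ Real.cosh (a / 2) * Real.cosh (b / 2) := by
  have h1 := half a
  have h2 := half b
  have h3 : 0 ≤ Real.cosh (a / 2) * Real.cosh (b / 2) := by
    have := Real.cosh_pos (a / 2)
    have := Real.cosh_pos (b / 2)
    positivity
  have h4 : ((A + 1) / 2) ^ 2 ≤ (Real.cosh (a / 2) * Real.cosh (b / 2)) ^ 2 := by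
    rw [mul_pow, h1, h2, sq]
    apply mul_le_mul <;> linarith
  exact (pow_le_pow_iff_left₀ (by linarith) h3 two_ne_zero).mp h4

end ITube

theorem pr_Tube (h1 : StCvG) (h2 : StRA) (h3 : StQd) : StTube := by
  intro n g κ hC f hf σ hσ D hD hper x
  obtain ⟨-, hmin, -⟩ := h1 n g κ hC
  have hd := hmin σ hσ
  have P : IsPM (gd g) := (pr_Gd n g).2.1
  obtain ⟨t₀, ht₀⟩ := ITube.exists_min (fun t => gd g x (σ t))
    (fun s t => by
      have := P.tri x (σ t) (σ s)
      rw [hd] at this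
      exact this)
    (fun t => by
      have h := P.tri (σ 0) x (σ t)
      rw [hd, zero_sub, abs_neg, P.symm (σ 0) x] at h
      exact h)
  refine ⟨t₀, ?_⟩
  have e1 : ∀ t, gd g (f x) (σ t) = gd g x (σ (t - D)) := by
    intro t
    have := hper (t - D)
    rw [sub_add_cancel] at this
    rw [this, hf]
  have r1 := h2 n g κ hC σ hσ x t₀ ht₀ D
  have r2 := h2 n g κ hC σ hσ (f x) (t₀ + D) (fun t => by
    rw [e1, e1, add_sub_cancel_right]
    exact ht₀ _) (-D)
  rw [add_neg_cancel_right, mul_neg, Real.cosh_neg] at r2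
  have e2 : gd g (f x) (σ (t₀ + D)) = gd g x (σ t₀) := by
    rw [e1, add_sub_cancel_right]
  rw [e2] at r2
  have q := h3 n g κ hC x (σ t₀) (σ (t₀ + D)) (f x)
  rw [P.symm (σ (t₀ + D)) (f x), e2, hd t₀ (t₀ + D), P.symm (f x) x] at q
  have e3 : |t₀ - (t₀ + D)| = D := by
    rw [sub_add_cancel_left, abs_neg, abs_of_pos hD]
  rw [e3] at q
  have hA : 0 ≤ Real.cosh (κ * gd g x (σ t₀)) * Real.cosh (κ * D) :=
    mul_nonneg (Real.cosh_pos _).le (Real.cosh_pos _).le
  have r3 := ITube.prod_half _ _ _ hA r1 r2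
  nlinarith [r3, q]

end Pool.Agent.LR
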