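import Mathlib
import Pool.Agent.Work.MP_13b5d9_gt.LR.StmtsB

set_option autoImplicit false

/-!
# MP_13b5d9_gt, block LR, item TubeN: an elementary inequality
-/

open MeasureTheory Set Filter Topology
open scoped ContDiff ENNReal

namespace Pool.Agent.LR

namespace ITubeN

theorem cosh_sub (a b : ℝ) (hab : a ≤ b) :
    Real.cosh b - Real.cosh a ≤ (b - a) * Real.exp b := by
  rw [Real.cosh_eq, Real.cosh_eq]
  have h1 : Real.exp (-b) ≤ Real.exp (-a) := Real.exp_le_exp.mpr (by linarith)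
  have h2 : (a - b) + 1 ≤ Real.exp (a - b) := Real.add_one_le_exp _
  have h3 : Real.exp a = Real.exp (a - b) * Real.exp b := by
    rw [← Real.exp_add]; congr 1; ring
  have h4 : ((a - b) + 1) * Real.exp b ≤ Real.exp a := by
    rw [h3]
    exact mul_le_mul_of_nonneg_right h2 (Real.exp_pos b).le
  have h5 : 0 ≤ (b - a) * Real.exp b := mul_nonneg (by linarith) (Real.exp_pos b).le
  nlinarith

theorem cosh_low (x x0 : ℝ) (h0 : 0 < x0) (hx : x0 ≤ x) :
    (1 - Real.exp (-x0)) ^ 2 / 2 * Real.exp x ≤ Real.cosh x - 1 := by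
  have h1 : Real.cosh x - 1 = (1 - Real.exp (-x)) ^ 2 / 2 * Real.exp x := by
    rw [Real.cosh_eq]
    have h : Real.exp (-x) * Real.exp x = 1 := by
      rw [← Real.exp_add]; simp
    have : (1 - Real.exp (-x)) ^ 2 / 2 * Real.exp x =
      (Real.exp x - 2 * (Real.exp (-x) * Real.exp x) +
        Real.exp (-x) * (Real.exp (-x) * Real.exp x)) / 2 := by ring
    rw [this, h]; ring
  rw [h1]
  have h2 : Real.exp (-x) ≤ Real.exp (-x0) := Real.exp_le_exp.mpr (by linarith)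
  have h3 : Real.exp (-x0) < 1 := by
    rw [Real.exp_lt_one_iff]; linarith
  have h4 : (1 - Real.exp (-x0)) ^ 2 ≤ (1 - Real.exp (-x)) ^ 2 :=
    pow_le_pow_left₀ (by linarith) (by linarith) 2
  have h5 : 0 < Real.exp x := Real.exp_pos x
  nlinarith

theorem cosh_sq (y : ℝ) (hy : 0 ≤ y) : y ^ 2 / 2 ≤ Real.cosh y - 1 := by
  have h1 : Real.cosh y = 1 + 2 * Real.sinh (y / 2) ^ 2 := by
    have h := Real.cosh_two_mul (y / 2)
    have h2 := Real.cosh_sq (y / 2)
    have h3 : 2 * (y / 2) = y := by ring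
    rw [h3] at h
    rw [h, h2]; ring
  have h4 : y / 2 ≤ Real.sinh (y / 2) := Real.self_le_sinh_iff.mpr (by linarith)
  rw [h1]
  have h5 : (y / 2) ^ 2 ≤ Real.sinh (y / 2) ^ 2 := pow_le_pow_left₀ (by linarith) h4 2
  nlinarith

end ITubeN

/-- item TubeN -/
theorem pr_TubeN : StTubeN := by
  intro κ l0 C₁ hκ hl0 hC₁
  have hx0 : 0 < κ * l0 := mul_pos hκ hl0
  have hexp : Real.exp (-(κ * l0)) < 1 := by
    rw [Real.exp_lt_one_iff]; linarith
  have hc0 : 0 < (1 - Real.exp (-(κ * l0))) ^ 2 / 2 := by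
    have : 0 < 1 - Real.exp (-(κ * l0)) := by linarith
    positivity
  obtain ⟨c, hc⟩ : ∃ c, c = (1 - Real.exp (-(κ * l0))) ^ 2 / 2 := ⟨_, rfl⟩
  rw [← hc] at hc0
  have hK : 0 < Real.exp (κ * C₁) / (κ * c) :=
    div_pos (Real.exp_pos _) (mul_pos hκ hc0)
  refine ⟨Real.sqrt (Real.exp (κ * C₁) / (κ * c)), Real.sqrt_pos.mpr hK, ?_⟩
  intro D e ρ hD he heC hρ h
  rw [← Real.sqrt_mul hK.le]
  apply Real.le_sqrt_of_sq_le
  have h1 := ITubeN.cosh_sub (κ * D) (κ * (D + e)) (by nlinarith)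
  have h2 := ITubeN.cosh_low (κ * D) (κ * l0) hx0 (by nlinarith)
  have h3 := ITubeN.cosh_sq (κ * ρ) (by positivity)
  rw [← hc] at h2
  have h4 : Real.exp (κ * (D + e)) ≤ Real.exp (κ * C₁) * Real.exp (κ * D) := by
    rw [← Real.exp_add]
    apply Real.exp_le_exp.mpr
    nlinarith
  have hED : 0 < Real.exp (κ * D) := Real.exp_pos _
  have h5 : Real.cosh (κ * (D + e)) - Real.cosh (κ * D) ≤
      (κ * e) * (Real.exp (κ * C₁) * Real.exp (κ * D)) := by
    refine h1.trans ?_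
    have : κ * (D + e) - κ * D = κ * e := by ring
    rw [this]
    exact mul_le_mul_of_nonneg_left h4 (by positivity)
  have h6 : (κ * ρ) ^ 2 * (c * Real.exp (κ * D)) ≤
      2 * (Real.cosh (κ * ρ) - 1) * (Real.cosh (κ * D) - 1) := by
    have ha : (κ * ρ) ^ 2 ≤ 2 * (Real.cosh (κ * ρ) - 1) := by linarith
    have hb : 0 ≤ c * Real.exp (κ * D) := by positivity
    have hd : 0 ≤ 2 * (Real.cosh (κ * ρ) - 1) := le_trans (by positivity) ha
    exact mul_le_mul ha h2 hb hd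
  have h7 : ((κ * ρ) ^ 2 * c) * Real.exp (κ * D) ≤
      ((κ * e) * Real.exp (κ * C₁)) * Real.exp (κ * D) := by
    have := h6.trans (h.trans h5)
    linarith
  have h8 : (κ * ρ) ^ 2 * c ≤ (κ * e) * Real.exp (κ * C₁) := le_of_mul_le_mul_right h7 hED
  have h9 : ρ ^ 2 * (κ * c) ≤ e * Real.exp (κ * C₁) := by
    have : κ * (ρ ^ 2 * (κ * c)) ≤ κ * (e * Real.exp (κ * C₁)) := by nlinarith
    exact le_of_mul_le_mul_left this hκ
  rw [div_mul_eq_mul_div, le_div_iff₀ (mul_pos hκ hc0)]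
  linarith

end Pool.Agent.LR
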