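import Pool.Agent.Work.MP_13b5d9_gt.LR.StmtsB
import Pool.Agent.Work.MP_25cd3b_gt.NG.All

set_option autoImplicit false

/-!
# MP_13b5d9_gt, block LR, item UG: operations on unit speed geodesics
-/

open MeasureTheory Set Filter Topology
open scoped ContDiff ENNReal
open Pool.Agent.Work.MP_c9f990_an.Al (IsFlow)

namespace Pool.Agent.LR

open Pool.Agent.MLS Pool.Agent.STR

/-- item UG -/
theorem pr_UG : StUG := by
  intro n g c hc
  refine ⟨fun s => ?_, fun s => ?_, ?_⟩
  · have hd : ∀ t, deriv (fun t => c (t + s)) t = deriv c (t + s) := fun t =>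
      deriv_comp_add_const c s t
    refine ⟨⟨hc.geo.smooth.comp (contDiff_id.add contDiff_const), fun t w => ?_⟩, fun t => ?_⟩
    · simp only [hd]
      exact HasDerivAt.comp_add_const t s (hc.geo.el (t + s) w)
    · rw [hd]
      exact hc.unit (t + s)
  · have hd : ∀ t, deriv (fun t => c (s - t)) t = -deriv c (s - t) := fun t =>
      deriv_comp_const_sub c s t
    refine ⟨⟨hc.geo.smooth.comp (contDiff_const.sub contDiff_id), fun t w => ?_⟩, fun t => ?_⟩
    · simp only [hd]
      have h1 := (HasDerivAt.comp_const_sub s t (hc.geo.el (s - t) w)).neg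
      have e1 : (fun r => g.val (c (s - r)) (-deriv c (s - r)) w) =
          -fun r => g.val (c (s - r)) (deriv c (s - r)) w := by
        funext r
        simp
      rw [e1]
      refine h1.congr_deriv ?_
      simp
    · rw [hd]
      simp only [map_neg, neg_neg, _root_.neg_apply]
      exact hc.unit (s - t)
  · intro G _ _ hG hR hI a
    have hd : ∀ t, deriv (fun s => a • c s) t = dac a (c t) (deriv c t) := by
      intro t
      have h1 : HasFDerivAt (fun y : E n => a • y) (dac a (c t)) (c t) :=
        ((hG.smooth a).differentiable (by simp)).differentiableAt.hasFDerivAt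
      have h2 : HasDerivAt c (deriv c t) t :=
        (hc.geo.smooth.differentiable (by norm_num)).differentiableAt.hasDerivAt
      exact (h1.comp_hasDerivAt t h2).deriv
    refine ⟨⟨p_EqG n G hG g hR hI a c hc.geo, fun t => ?_⟩, hd⟩
    rw [hd, hI]
    exact hc.unit t

end Pool.Agent.LR
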