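import Pool.Agent.Work.MP_25cd3b_gt.NG.Stmts
import Pool.Agent.Work.MP_13b5d9_gt.LR.StmtsA
import Pool.Agent.Work.MP_13b5d9_gt.LR.StmtsB

set_option autoImplicit false

/-!
# MP_13b5d9_gt, block LR: statements of part C (uniform local estimates, closing lemma), each with its
complete proof

All statements of the blocks M, NC and NG of MP_25cd3b_gt are theorems: import
`Pool.Agent.Work.MP_25cd3b_gt.NG.All` and use them freely.  Notation of the comments: `d = gd g` or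
`gd gb`, `|v|` the euclidean norm, `Γ(u, v)` = `Ga g x u v`; `C` denotes constants which depend only on
`m, Γ, K, L, c0` (not on the metric).
-/

open MeasureTheory Set Filter Topology
open scoped ContDiff ENNReal
open Pool.Agent.Work.MP_c9f990_an.Al (IsFlow)

namespace Pool.Agent.LR

open Pool.Agent.MLS Pool.Agent.STR

/-- `Cls.riem, curv, c0_pos` and the flow of `StFlow`. -/
def StClC : Prop := ∀ (m : ℕ) (Γ : Type) [Group Γ] [MulAction Γ (E m)] (K : Set (E m)) (L c0 : ℝ)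
  (gb : Form m), Cls m Γ K L c0 gb → Cv gb c0

/-- Euclidean norm and distance.  On `S`: `‖v‖ ≤ L nrm g x v` (`‖v‖^2 ≤ L g(v,v) ≤ L^2 g(v,v)`) and
`nrm g x v ≤ L ‖v‖` (`g(v,v) ≤ ‖g.val x‖ ‖v‖^2 ≤ L ‖v‖^2`, `‖iteratedFDeriv 0‖ = ‖g.val x‖`).
First part: claim: for every path from `x'` to `y` of length `l` with `‖x' - x‖ + L l < r`:
`‖x' - y‖ ≤ L l`; induction on `PathLen`: for a `C^1` piece `c` on `[a, b]` of length `m'` the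
set of the `t` such that `c ([a, t])` is in the closed ball is closed, and open in `[a, b]` since
there `‖c s - c a‖ ≤ ∫ ‖c'‖ ≤ L m'` keeps `c s` at distance `< r` from `x`; so `‖c b - c a‖ ≤ L m'`.
Apply the claim with `x' = x` and `l` close to `gd g x y` (`StGd`).  Second part: straight segment
(`StGd`, last part). -/
def StEu : Prop := ∀ (n : ℕ) (S : Set (E n)) (L : ℝ) (g : Form n), 1 ≤ L → Bd S L 0 g →
  (∀ (x y : E n) (r : ℝ), Metric.closedBall x r ⊆ S → L * gd g x y < r →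
    ‖x - y‖ ≤ L * gd g x y) ∧
  (∀ (x y : E n) (r : ℝ), Metric.closedBall x r ⊆ S → ‖x - y‖ ≤ r → gd g x y ≤ L * ‖x - y‖)

/-- Bounds for the Christoffel symbols.  `NcGa`: `g(Γ(u,v), w) = 1/2 (D_u g(v,w) +
D_v g(u,w) - D_w g(u,v))`; with `w = Γ(u,v)`: `‖w‖^2 ≤ L g(w,w) ≤ L (3/2) L ‖u‖ ‖v‖ ‖w‖`.  For the
derivative in the direction `z`, differentiate: `g(DΓ(z)(u,v), w) = 1/2 (D²g ...) - Dg(z)(Γ(u,v), w)`,
bounded by `C ‖z‖ ‖u‖ ‖v‖ ‖w‖`; take `w = DΓ(z)(u,v)`.  (`‖fderiv g.val x‖ =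
‖iteratedFDeriv 1 g.val x‖`, second derivatives through `iteratedFDeriv 2 g.val x ![z, u]`.)  The last
part: mean value inequality for `y ↦ Ga g y u v` on the convex set. -/
def StGaB : Prop := ∀ (n : ℕ) (L : ℝ), 1 ≤ L → ∃ C : ℝ, 1 ≤ C ∧ ∀ (g : Form n) (S : Set (E n)),
  Riem g → Bd S L 3 g → (∀ x ∈ S, ∀ u v, ‖Ga g x u v‖ ≤ C * ‖u‖ * ‖v‖) ∧
  (∀ x ∈ S, ∀ z u v, ‖fderiv ℝ (Ga g) x z u v‖ ≤ C * ‖z‖ * ‖u‖ * ‖v‖) ∧
  ∀ T ⊆ S, Convex ℝ T → ∀ x ∈ T, ∀ y ∈ T, ∀ u v,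
    ‖Ga g x u v - Ga g y u v‖ ≤ C * ‖x - y‖ * ‖u‖ * ‖v‖

/-- Geodesics are smooth and have bounded derivatives (uses `StGaB`).  `c'' = - Γ(c', c')` (`NcGeo`),
`Ga g` is smooth (`NcGa`), so `c` is smooth by induction.  `‖c'‖^2 ≤ L g(c',c') ≤ 4 L`,
`‖c''‖ ≤ ‖Γ‖ ‖c'‖^2`, `c''' = - DΓ(c')(c', c') - Γ(c'', c') - Γ(c', c'')`. -/
def StAcc : Prop := ∀ (n : ℕ), (∀ (g : Form n) (c : ℝ → E n), Riem g → IsGeo g c →
    ContDiff ℝ ∞ c) ∧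
  ∀ L : ℝ, 1 ≤ L → ∃ C : ℝ, 1 ≤ C ∧ ∀ (g : Form n) (c : ℝ → E n) (t : ℝ),
  Riem g → IsGeo g c → g.val (c t) (deriv c t) (deriv c t) ≤ 4 → Bd {c t} L 3 g →
  ‖deriv c t‖ ≤ C ∧ ‖deriv (deriv c) t‖ ≤ C ∧ ‖deriv (deriv (deriv c)) t‖ ≤ C

/-- Uniform lower bound of displacements (uses `StEu`).  The set `A` of the `f` with
`f K ∩ nb K 1 ≠ ∅` is finite (`proper` for `nb K 1 ∪ K`, compact); let `δ ≤ 1` be a positive lower bound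
of `‖x - f x‖` for `x ∈ K` and `f ∈ A`, `f ≠ 1` (continuity, `free`).  For `f ∉ A` we have `f x ∉ nb K 1`
so `‖x - f x‖ ≥ 1 ≥ δ`.  `l0 = δ / (2 L)`: if `x ∈ K` and `d(x, f x) < l0` then `L d < δ ≤ 1`, so
`‖x - f x‖ ≤ L d < δ` by `StEu` (`S = nb K 1`, `r = 1`), a contradiction.  For general `x` let
`a x ∈ K` and use `f' = a f a⁻¹`, `d(a x, f' a x) = d(x, f x)` (`StInvD`). -/
def StL0 : Prop := ∀ (m : ℕ) (Γ : Type) [Group Γ] [MulAction Γ (E m)] (K : Set (E m)) (L : ℝ),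
  ∃ l0 : ℝ, 0 < l0 ∧ ∀ (c0 : ℝ) (gb : Form m), Cls m Γ K L c0 gb → ∀ f : Γ, f ≠ 1 → ∀ x,
  l0 ≤ gd gb x (f • x)

/-- One step (uses `StEu`, `StAcc`, `StGaB`, `StUG`).  (If there is no metric in the class there is
nothing to prove; otherwise `K` is compact and the action is cocompact.)  `c` has unit speed, so
`‖c'‖ ≤ L` as long as `c` is in `nb K 1`, and `c t ∈ nb K (1/4)` for `|t| ≤ 1/(4L)`.  `d` has
constant energy `g(d',d')`, which is `≤ 4` if `ε₁` is small (compare at `t = 0`: `g` is Lipschitz on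
the ball), so `d t ∈ nb K (1/2)` for `|t| ≤ q₀ = 1/(16 L)` too, and both are in one euclidean ball
contained in `nb K 1`.  There `Γ` is bounded and Lipschitz (`StGaB` and the mean value inequality on
the ball), so `u t = (c t - d t, c' t - d' t)` satisfies `‖u'‖ ≤ C ‖u‖` (`c'' = - Γ(c', c')`), and
Gronwall gives `pd c d t ≤ C pd c d 0`.  Last part: `β` with `β c t ∈ K`, `c t ∈ nb K 1` is in a
finite set `A` (`proper`); all derivatives of the maps `β ∈ A` are bounded on the compact `nb K 1`, so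
`‖β x - β y‖ ≤ C ‖x - y‖` and `‖dac β x v - dac β y w‖ ≤ C (‖x - y‖ ‖v‖ + ‖v - w‖)` for
`x, y` in a common ball contained in `nb K 1` (mean value inequality). -/
def StStep : Prop := ∀ (m : ℕ) (Γ : Type) [Group Γ] [MulAction Γ (E m)] (K : Set (E m)) (L : ℝ),
  ∃ q₀ C ε₁ : ℝ, 0 < q₀ ∧ q₀ ≤ 1 ∧ 1 ≤ C ∧ 0 < ε₁ ∧ ∀ (c0 : ℝ) (gb : Form m),
  Cls m Γ K L c0 gb → ∀ c d : ℝ → E m, UG gb c → IsGeo gb d → c 0 ∈ K → pd c d 0 ≤ ε₁ →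
  ∀ t, |t| ≤ q₀ → c t ∈ nb K (1 / 2) ∧ d t ∈ nb K (1 / 2) ∧ pd c d t ≤ C * pd c d 0 ∧
    ∀ β : Γ, β • c t ∈ K → pd (fun s => β • c s) (fun s => β • d s) t ≤ C * pd c d 0

/-- Bowen balls (uses `StStep`, `StEu`, `StUG`).  Claim for `j : ℕ`: if `c 0 ∈ K` and
`C₁^j pd c d 0 ≤ ε₁` then for `0 ≤ s ≤ j q₀`: `d(c s, d s) ≤ 2 L C₁^j pd c d 0`.  Induction on `j`:
on `[0, q₀]` use `StStep` and `StEu` (`c s, d s` are in a common ball in `nb K 1`); then choose `β` with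
`β c (q₀) ∈ K` and apply the induction hypothesis to `s ↦ β c (q₀ + s)`, `s ↦ β d (q₀ + s)`
(`StInvD`, `StEqG`).  The same for negative times (reverse the parameter).  Take
`j = ⌈R / q₀⌉`. -/
def StBow : Prop := ∀ (m : ℕ) (Γ : Type) [Group Γ] [MulAction Γ (E m)] (K : Set (E m)) (L : ℝ),
  ∃ C : ℝ, 1 ≤ C ∧ ∀ (c0 : ℝ) (gb : Form m),
  Cls m Γ K L c0 gb → ∀ c d : ℝ → E m, UG gb c → IsGeo gb d → c 0 ∈ K → ∀ R : ℝ, 0 ≤ R →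
  pd c d 0 ≤ Real.exp (-(C * (R + 1))) → ∀ s, |s| ≤ R → gd gb (c s) (d s) ≤ 1 / 8

/-- PIGEONHOLE.  Let `A_i = φ (i P) '' B`, `0 ≤ i ≤ N`, measurable of measure `vol B` (`StMP` with
`StTr0`/`StOp`, `φ` is bijective).  Suppose all the sets `lft g b '' A_i` (`b ∈ G`, `i ≤ N`) are pairwise
disjoint.  `vol A_i ≤ ∑_b vol (A_i ∩ {z | b z.1 ∈ K}) = ∑_b vol (lft g b '' A_i ∩ {z | z.1 ∈ K})`
(`StLftM`, `StCnt`), so by disjointness `(N + 1) vol B ≤ vol {z | z.1 ∈ K, Hm g z ≤ 1}` (energy is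
invariant under `φ` and `lft`, `StLftA`, `StGeo1`), a contradiction.  So there are
`(b, i) ≠ (b', j)`, WLOG `i ≤ j`, and `lft b (φ (i P) ζ) = lft b' (φ (j P) ζ')` with `ζ, ζ' ∈ B`;
then with `f = b⁻¹ b'`, `k = j - i` (`StEqF`, `StLftA`): `lft f (φ (k P) ζ') = ζ ∈ B`; if `k = 0`
then `b ≠ b'`, `f ≠ 1`. -/
def StPg : Prop := ∀ (n : ℕ) (G : Type) [Group G] [MulAction G (E n)], Cocompact n G →
  ∀ g : Form n, Riem g → Inv G g → ∀ (φ : ℝ → W n → W n) (M : ℝ → W n → W n →L[ℝ] W n),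
  IsFlow (XH (Hm g)) φ M → ∀ K : Set (E n), IsCompact K → (∀ x : E n, ∃ a : G, a • x ∈ K) →
  ∀ B : Set (W n), MeasurableSet B → (∀ z ∈ B, Hm g z ≤ 1) → ∀ (P : ℝ) (N : ℕ),
  volume {z : W n | z.1 ∈ K ∧ Hm g z ≤ 1} < (N + 1) * volume B →
  ∃ k ≤ N, ∃ f : G, ∃ ζ ∈ B, lft g f (φ (k * P) ζ) ∈ B ∧ (k ≠ 0 ∨ f ≠ 1)

/-- Volumes.  `closedBall z ε` in the product `E n × E n` is the product of the two closed balls
(`closedBall_prod_same`), of volume `(vol (ball 0 1) ε^n)^2`.  Second part: if `z.1 ∈ K` and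
`Hm g z ≤ 1` then with `v = vel g z`: `g(v,v) ≤ 2` (`StOp`), `‖v‖^2 ≤ 2 L`, `‖z.2‖ = ‖op g z.1 v‖ ≤
L ‖v‖` (`‖op v‖^2 = g(v, op v)`), so the set is contained in `K × closedBall 0 (2 L^2)`. -/
def StVol : Prop := ∀ n : ℕ, (∃ c : ℝ, 0 < c ∧ ∀ (z : W n) (ε : ℝ), 0 < ε →
    ENNReal.ofReal (c * ε ^ (2 * n)) ≤ volume (Metric.closedBall z ε)) ∧
  ∀ (K : Set (E n)) (L : ℝ), IsCompact K → 1 ≤ L → ∃ V : ℝ, 0 < V ∧ ∀ g : Form n, Riem g →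
    Bd K L 0 g → volume {z : W n | z.1 ∈ K ∧ Hm g z ≤ 1} ≤ ENNReal.ofReal V

/-- Almost closed geodesics of controlled length (uses `StBow`, `StL0`, `StPg`, `StVol`, `StEu`,
`StUG`, `StClC`).  Let `x₀ = c 0 ∈ K`, `v₀ = c' 0`, `z₀ = (x₀, op gb x₀ v₀)`, `Hm z₀ = 1/2`, `φ` the flow,
`B` the closed ball of radius `ε = exp(-C₂ (R + 3))` around `z₀` (`C₂` large).  For `ζ ∈ B` the
geodesic `d s = (φ s ζ).1` (`StGeo1`) has `pd c d 0 ≤ C ε` (`vel gb (x, p) = iop gb x p` is Lipschitz on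
the ball: `‖iop‖ ≤ L`, `D iop = - iop ∘ D op ∘ iop`), energy `Hm ζ ≤ 1` and speed `v` with
`|v - 1| ≤ C ε`; so by `StBow` `d(c s, d s) ≤ 1/8` for `|s| ≤ R + 2`.  With `V` and `c` from `StVol`
let `N = ⌈V / (c ε^(2m))⌉`, `P = R + 4`: `StPg` gives `k ≤ N`, `f`, `ζ ∈ B`, `lft f (φ (k P) ζ) ∈ B`.
`k = 0` is impossible: `f ≠ 1` and `‖ζ.1 - f ζ.1‖ ≤ 2 ε`, `d(ζ.1, f ζ.1) ≤ 2 L ε < l0` (`StEu`,
`StL0`).  Let `n₁ = k P ≥ R + 4`.  `f d (n₁ + s) = (φ s (lft f (φ n₁ ζ))).1` (`StEqF`), so it is within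
`1/8` of `c s` for `|s| ≤ R + 2`, and so is `d s`.  Put `w s = d (s / v)` (unit speed), `n = v n₁`
and `f⁻¹` in place of `f`: `d(f⁻¹ w s, w (n + s)) = d(d (s / v), f d (n₁ + s / v)) ≤ 1/4`, and
`d(c s, w s) ≤ 1/8 + v |s - s / v| ≤ 1` for `|s| ≤ R`.  `R ≤ n ≤ 2 N P ≤ C exp(C R)`. -/
def StCl1 : Prop := ∀ (m : ℕ) (Γ : Type) [Group Γ] [MulAction Γ (E m)] (K : Set (E m)) (L : ℝ),
  ∃ C : ℝ, 1 ≤ C ∧ ∀ (c0 : ℝ) (gb : Form m),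
  Cls m Γ K L c0 gb → ∀ c : ℝ → E m, UG gb c → c 0 ∈ K → ∀ R : ℝ, 1 ≤ R →
  ∃ (f : Γ) (n : ℝ) (w : ℝ → E m), UG gb w ∧ R ≤ n ∧ n ≤ C * Real.exp (C * R) ∧
    ∀ s, |s| ≤ R → gd gb (c s) (w s) ≤ 1 ∧ gd gb (f • w s) (w (n + s)) ≤ 1

/-- CLOSING LEMMA (uses `StCl1`, `StB2` of M, `NgPt`, `StClC`, `StCvG`, `StAxis`, `StTube`,
`StTubeN`, `StNear`, `StUG`, `StEu`, `StAcc`, `StTay`).  Let `δ = 3 log 4 / c0` (`NgPt`: `Hyp4`), `c` the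
unit speed geodesic with `c 0 = x₀`, `c' 0 = v₀` (from the flow), `f, n, w` from `StCl1`.  `StB2` with
`p = w 0`, `p' = w R₂`, `q = w n`, `q' = w (n + R₂)`, `a = w (n - R₂)`, `R₂ = 3 + δ ≤ R`, gives
`d(x, f x) ≥ n - (5 + 3δ)` for all `x`; so `f ≠ 1` and the axis `σ` of `f` (`StAxis`) has
`ell = d(σ 0, f σ 0) ≥ n - (5 + 3δ) ≥ 1`, `ell ≤ d(w 0, f w 0) ≤ n + 1`.  For `|s| ≤ R`:
`d(w s, f w s) ≤ n + 1 ≤ ell + C₁`, `C₁ = 6 + 3δ`, so by `StTube`, `StTubeN` (`l0 = 1`)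
`d(w s, σ t) ≤ C₅` for some `t = t(s)`.  Let `s₁ = t(-R)`, `s₂ = t(R)`.  Claim `s₁ ≤ s₂`: otherwise
`s₁ - s₂ ≥ 2R - 2C₅` and `≤ 2R + 2C₅`; `f w R` is within `1` of `w (n + R)` and within `C₅` of
`f σ s₂ = σ (s₂ + ell)`, so `n + 2R = d(w (-R), w (n + R)) ≤ |s₁ - s₂ - ell| + 2C₅ + 1
≤ |2R - n| + C`, which is false for `R > C` because `n ≥ R`.  As `d(c s, w s) ≤ 1`, `StNear`
(`D = C₅ + 1`) gives `t₁` with `d(c s, σ (t₁ + s)) ≤ C exp(-c0 R)` for `|s| ≤ 1`.  Let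
`c₁ s = σ (t₁ + s)`, an axis of `f`.  By `StEu` `‖c s - c₁ s‖ ≤ L C exp(-c0 R)` for small `|s|` (where
`c s ∈ nb K (1/2)`), and by `StAcc` both have second derivative `≤ C` there, so `StTay` with
`q = q₀ exp(-c0 R / 2)` gives the bound of `‖c' 0 - c₁' 0‖`. -/
def StCls : Prop := ∀ (m : ℕ) (Γ : Type) [Group Γ] [MulAction Γ (E m)] (K : Set (E m))
  (L c0 : ℝ), 0 < c0 → ∃ C R0 : ℝ, 1 ≤ C ∧ 1 ≤ R0 ∧ ∀ gb : Form m, Cls m Γ K L c0 gb →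
  ∀ R : ℝ, R0 ≤ R → ∀ x₀ ∈ K, ∀ v₀ : E m, gb.val x₀ v₀ v₀ = 1 →
  ∃ (f : Γ) (c : ℝ → E m) (ell : ℝ), f ≠ 1 ∧ Ax gb (fun x => f • x) c ell ∧
    ell ≤ C * Real.exp (C * R) ∧ ‖c 0 - x₀‖ ≤ C * Real.exp (-(c0 * R)) ∧
    ‖deriv c 0 - v₀‖ ≤ C * Real.exp (-(c0 * R / 2))

end Pool.Agent.LR
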